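import Mathlib

/-!
# Kernels on the lattice, their symbols, and a lower bound
-/

set_option autoImplicit false

open MeasureTheory UnitAddTorus

namespace Pool.Agent.Helper10K9.FL

/-- The group algebra of the lattice with matrix coefficients. -/
abbrev GA (q : ℕ) (e : Type) [Fintype e] [DecidableEq e] : Type :=
  AddMonoidAlgebra (Matrix e e ℝ) (Fin q → ℤ)

variable {q : ℕ} {e : Type} [Fintype e] [DecidableEq e]

section ev

variable {S : Type} [CommRing S] [Algebra ℝ S]

/-- Evaluation at a character. -/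
noncomputable def ev (χ : Multiplicative (Fin q → ℤ) →* S) : GA q e →+* Matrix e e S :=
  AddMonoidAlgebra.liftNCRingHom (RingHom.mapMatrix (algebraMap ℝ S))
    ((Matrix.scalar e : S →+* Matrix e e S).toMonoidHom.comp χ)
    (by
      intro x y
      exact (Matrix.scalar_commute (χ y) (fun r => mul_comm _ _) _).symm)

theorem ev_single (χ : Multiplicative (Fin q → ℤ) →* S) (z : Fin q → ℤ) (a : Matrix e e ℝ) :
    ev χ (AddMonoidAlgebra.single z a) =
      (χ (Multiplicative.ofAdd z)) • a.map (algebraMap ℝ S) := by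
  rw [ev, AddMonoidAlgebra.liftNCRingHom_single]
  ext i j
  simp [Matrix.scalar, mul_comm]

theorem ev_apply (χ : Multiplicative (Fin q → ℤ) →* S) (f : GA q e) (i j : e) :
    ev χ f i j = f.coeff.sum fun z a => algebraMap ℝ S (a i j) * χ (Multiplicative.ofAdd z) := by
  have h : f = f.coeff.sum fun z a => AddMonoidAlgebra.single z a :=
    (AddMonoidAlgebra.sum_coeff_single f).symm
  conv_lhs => rw [h]
  rw [map_finsuppSum, Finsupp.sum, Finsupp.sum, Matrix.sum_apply]
  refine Finset.sum_congr rfl fun z _ => ?_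
  rw [ev_single, Matrix.smul_apply, Matrix.map_apply, smul_eq_mul, mul_comm]

theorem ev_smul (χ : Multiplicative (Fin q → ℤ) →* S) (r : ℝ) (f : GA q e) :
    ev χ (r • f) = algebraMap ℝ S r • ev χ f := by
  ext i j
  rw [ev_apply, Matrix.smul_apply, ev_apply, AddMonoidAlgebra.coeff_smul, Finsupp.sum_smul_index']
  · rw [smul_eq_mul, Finsupp.sum, Finsupp.sum, Finset.mul_sum]
    refine Finset.sum_congr rfl fun z _ => ?_
    rw [Matrix.smul_apply, smul_eq_mul, map_mul, mul_assoc]
  · intro z; simp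

end ev

/-- The character of the lattice at a point of the torus. -/
noncomputable def chT (t : UnitAddTorus (Fin q)) : Multiplicative (Fin q → ℤ) →* ℂ where
  toFun z := mFourier z.toAdd t
  map_one' := by
    rw [toAdd_one, mFourier_zero]; rfl
  map_mul' a b := by
    rw [toAdd_mul, mFourier_add]

/-- The symbol. -/
noncomputable abbrev evT (t : UnitAddTorus (Fin q)) : GA q e →+* Matrix e e ℂ := ev (chT t)

theorem evT_apply (t : UnitAddTorus (Fin q)) (f : GA q e) (i j : e) :
    evT t f i j = f.coeff.sum fun z a => (a i j : ℂ) * mFourier z t := by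
  rw [evT, ev_apply]; rfl

theorem continuous_evT (f : GA q e) : Continuous fun t : UnitAddTorus (Fin q) => evT t f := by
  refine continuous_matrix fun i j => ?_
  simp only [evT_apply, Finsupp.sum]
  exact continuous_finsetSum _ fun z _ => continuous_const.mul (mFourier z).continuous

/-- Squared length of a kernel. -/
noncomputable def fsq (f : GA q e) : ℝ := f.coeff.sum fun _ a => ∑ i, ∑ j, (a i j) ^ 2

/-- Squared length of a matrix. -/
noncomputable def msq (B : Matrix e e ℂ) : ℝ := ∑ i, ∑ j, ‖B i j‖ ^ 2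

noncomputable local instance : MeasureSpace UnitAddCircle := ⟨AddCircle.haarAddCircle⟩

local instance : Measure.IsAddHaarMeasure (volume : Measure UnitAddCircle) :=
  inferInstanceAs (Measure.IsAddHaarMeasure AddCircle.haarAddCircle)

local instance : IsProbabilityMeasure (volume : Measure UnitAddCircle) :=
  inferInstanceAs (IsProbabilityMeasure AddCircle.haarAddCircle)

theorem parseval (s : Finset (Fin q → ℤ)) (a : (Fin q → ℤ) → ℂ) :
    ∫ t : UnitAddTorus (Fin q), ‖∑ z ∈ s, a z * mFourier z t‖ ^ 2 = ∑ z ∈ s, ‖a z‖ ^ 2 := by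
  set p : C(UnitAddTorus (Fin q), ℂ) := ∑ z ∈ s, a z • mFourier z with hp
  have hpt : ∀ t, p t = ∑ z ∈ s, a z * mFourier z t := by
    intro t
    rw [hp, ContinuousMap.sum_apply]
    rfl
  have h1 : (ContinuousMap.toLp (E := ℂ) 2 volume ℂ p) = ∑ z ∈ s, a z • mFourierLp 2 z := by
    rw [hp, map_sum]
    refine Finset.sum_congr rfl fun z _ => ?_
    rw [map_smul]
  have h2 := ContinuousMap.inner_toLp (𝕜 := ℂ) (μ := (volume : Measure (UnitAddTorus (Fin q)))) p p
  rw [h1, orthonormal_mFourier.inner_sum] at h2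
  have h3 : ∀ t, (‖p t‖ ^ 2 : ℂ) = p t * (starRingEnd ℂ) (p t) := by
    intro t
    rw [Complex.mul_conj, Complex.normSq_eq_norm_sq]
    push_cast; rfl
  have h4 : ((∫ t : UnitAddTorus (Fin q), ‖p t‖ ^ 2 : ℝ) : ℂ) = ((∑ z ∈ s, ‖a z‖ ^ 2 : ℝ) : ℂ) := by
    rw [← integral_complex_ofReal]
    push_cast
    simp only [h3]
    rw [← h2]
    refine Finset.sum_congr rfl fun z _ => ?_
    rw [mul_comm, Complex.mul_conj, Complex.normSq_eq_norm_sq]
    push_cast; rfl
  have h5 := Complex.ofReal_injective h4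
  simpa only [hpt] using h5

theorem fsq_eq (f : GA q e) : fsq f = ∫ t : UnitAddTorus (Fin q), msq (evT t f) := by
  have h1 : ∀ i j, ∫ t : UnitAddTorus (Fin q), ‖evT t f i j‖ ^ 2 =
      ∑ z ∈ f.coeff.support, (f.coeff z i j) ^ 2 := by
    intro i j
    have := parseval f.coeff.support (fun z => ((f.coeff z i j : ℝ) : ℂ))
    simp only [evT_apply, Finsupp.sum]
    rw [this]
    refine Finset.sum_congr rfl fun z _ => ?_
    rw [Complex.norm_real, Real.norm_eq_abs, sq_abs]
  have hc : ∀ i j, Continuous fun t : UnitAddTorus (Fin q) => ‖evT t f i j‖ ^ 2 := by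
    intro i j
    exact (((continuous_evT f).matrix_elem i j).norm.pow 2)
  have hI : ∀ i j, Integrable fun t : UnitAddTorus (Fin q) => ‖evT t f i j‖ ^ 2 := by
    intro i j
    exact (hc i j).integrable_of_hasCompactSupport (HasCompactSupport.of_compactSpace _)
  simp only [msq]
  rw [integral_finsetSum _ fun i _ => integrable_finsetSum _ fun j _ => hI i j]
  have : ∀ i, ∫ t : UnitAddTorus (Fin q), ∑ j, ‖evT t f i j‖ ^ 2 =
      ∑ j, ∑ z ∈ f.coeff.support, (f.coeff z i j) ^ 2 := by
    intro i
    rw [integral_finsetSum _ fun j _ => hI i j]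
    exact Finset.sum_congr rfl fun j _ => h1 i j
  simp only [this]
  rw [fsq, Finsupp.sum, Finset.sum_comm]
  refine Finset.sum_congr rfl fun i _ => ?_
  rw [Finset.sum_comm]

theorem msq_nonneg (B : Matrix e e ℂ) : 0 ≤ msq B :=
  Finset.sum_nonneg fun _ _ => Finset.sum_nonneg fun _ _ => by positivity

theorem msq_mul_le (A B : Matrix e e ℂ) : msq (A * B) ≤ msq A * msq B := by
  have h1 : ∀ i j, ‖(A * B) i j‖ ^ 2 ≤ (∑ k, ‖A i k‖ ^ 2) * ∑ k, ‖B k j‖ ^ 2 := by
    intro i j
    rw [Matrix.mul_apply]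
    have h2 : ‖∑ k, A i k * B k j‖ ≤ ∑ k, ‖A i k‖ * ‖B k j‖ := by
      refine (norm_sum_le _ _).trans (Finset.sum_le_sum fun k _ => ?_)
      rw [norm_mul]
    refine (pow_le_pow_left₀ (norm_nonneg _) h2 2).trans ?_
    exact Finset.sum_mul_sq_le_sq_mul_sq _ _ _
  calc msq (A * B) ≤ ∑ i, ∑ j, (∑ k, ‖A i k‖ ^ 2) * ∑ k, ‖B k j‖ ^ 2 :=
        Finset.sum_le_sum fun i _ => Finset.sum_le_sum fun j _ => h1 i j
    _ = msq A * msq B := by
        simp only [← Finset.mul_sum, ← Finset.sum_mul, msq]
        rw [Finset.sum_comm (f := fun j k => ‖B k j‖ ^ 2)]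

/-- The lower bound for the convolution with a kernel with invertible symbol. -/
theorem lower {K : GA q e} (hK : ∀ t : UnitAddTorus (Fin q), (evT t K).det ≠ 0) :
    ∃ c > 0, ∀ f : GA q e, c * fsq f ≤ fsq (K * f) := by
  set Inv : UnitAddTorus (Fin q) → Matrix e e ℂ :=
    fun t => ((evT t K).det)⁻¹ • (evT t K).adjugate with hInv
  have hInvc : Continuous Inv := by
    have a1 : Continuous fun t : UnitAddTorus (Fin q) => ((evT t K).det)⁻¹ :=
      (continuous_evT K).matrix_det.inv₀ hK
    exact a1.smul (continuous_evT K).matrix_adjugate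
  have hmc : Continuous fun t => msq (Inv t) := by
    refine continuous_finsetSum _ fun i _ => continuous_finsetSum _ fun j _ => ?_
    exact ((hInvc.matrix_elem i j).norm.pow 2)
  obtain ⟨C, hC⟩ := (isCompact_univ.image hmc).bddAbove
  have hC' : ∀ t, msq (Inv t) ≤ C := fun t => hC ⟨t, Set.mem_univ _, rfl⟩
  have hC0 : 0 ≤ C := (msq_nonneg _).trans (hC' 0)
  have hmul : ∀ t, Inv t * evT t K = 1 := by
    intro t
    rw [hInv]
    simp only
    rw [Matrix.smul_mul, Matrix.adjugate_mul, smul_smul, inv_mul_cancel₀ (hK t), one_smul]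
  have hbd : ∀ (f : GA q e) t, msq (evT t f) ≤ (C + 1) * msq (evT t (K * f)) := by
    intro f t
    have e1 : evT t f = Inv t * evT t (K * f) := by
      rw [map_mul, ← mul_assoc, hmul, one_mul]
    calc msq (evT t f) = msq (Inv t * evT t (K * f)) := by rw [← e1]
      _ ≤ msq (Inv t) * msq (evT t (K * f)) := msq_mul_le _ _
      _ ≤ (C + 1) * msq (evT t (K * f)) :=
        mul_le_mul_of_nonneg_right ((hC' t).trans (by linarith)) (msq_nonneg _)
  have hcont : ∀ f : GA q e, Continuous fun t => msq (evT t f) := by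
    intro f
    refine continuous_finsetSum _ fun i _ => continuous_finsetSum _ fun j _ => ?_
    exact (((continuous_evT f).matrix_elem i j).norm.pow 2)
  have hint : ∀ f : GA q e, Integrable fun t : UnitAddTorus (Fin q) => msq (evT t f) :=
    fun f => (hcont f).integrable_of_hasCompactSupport (HasCompactSupport.of_compactSpace _)
  refine ⟨(C + 1)⁻¹, by positivity, fun f => ?_⟩
  have h1 : fsq f ≤ (C + 1) * fsq (K * f) := by
    rw [fsq_eq, fsq_eq, ← integral_const_mul]
    exact integral_mono (hint f) ((hint _).const_mul _) fun t => hbd f t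
  rw [inv_mul_le_iff₀ (by positivity)]
  exact h1

end Pool.Agent.Helper10K9.FL
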