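import Mathlib

/-!
# Estimates of operator norms of real matrices
-/

set_option autoImplicit false

open scoped Matrix.Norms.L2Operator
open Matrix

namespace Pool.Agent.Helper10K9.Sc

variable {ι : Type*} [Fintype ι] [DecidableEq ι]

theorem norm_sq_toLp (v : ι → ℝ) : ‖(WithLp.toLp 2 v : EuclideanSpace ℝ ι)‖ ^ 2 = v ⬝ᵥ v := by
  rw [EuclideanSpace.norm_sq_eq]
  simp [dotProduct, pow_two]

theorem dot_nonneg (v : ι → ℝ) : 0 ≤ v ⬝ᵥ v := by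
  rw [← norm_sq_toLp]; positivity

theorem mulVec_sq_le (M : Matrix ι ι ℝ) (v : ι → ℝ) :
    (M *ᵥ v) ⬝ᵥ (M *ᵥ v) ≤ ‖M‖ ^ 2 * (v ⬝ᵥ v) := by
  have h := l2_opNorm_mulVec M (WithLp.toLp 2 v)
  have h2 : ‖(WithLp.toLp 2 (M *ᵥ v) : EuclideanSpace ℝ ι)‖ ≤
      ‖M‖ * ‖(WithLp.toLp 2 v : EuclideanSpace ℝ ι)‖ := h
  rw [← norm_sq_toLp, ← norm_sq_toLp, ← mul_pow]
  exact pow_le_pow_left₀ (norm_nonneg _) h2 2

theorem norm_le_of_sq (M : Matrix ι ι ℝ) (C : ℝ) (hC : 0 ≤ C)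
    (h : ∀ v, (M *ᵥ v) ⬝ᵥ (M *ᵥ v) ≤ C ^ 2 * (v ⬝ᵥ v)) : ‖M‖ ≤ C := by
  rw [← l2_opNorm_toEuclideanCLM]
  refine ContinuousLinearMap.opNorm_le_bound _ hC ?_
  intro x
  have h1 := h (WithLp.ofLp x)
  rw [← norm_sq_toLp, ← norm_sq_toLp, ← mul_pow] at h1
  have h2 := (pow_le_pow_iff_left₀ (norm_nonneg _) (by positivity) (by norm_num)).mp h1
  have h3 : (toEuclideanCLM (n := ι) (𝕜 := ℝ) M) x = WithLp.toLp 2 (M *ᵥ WithLp.ofLp x) := by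
    rw [← toEuclideanCLM_toLp]
  rw [h3]
  simpa using h2

/-- The Schur test. -/
theorem schur (M : Matrix ι ι ℝ) (C : ℝ) (hC : 0 ≤ C) (h1 : ∀ i, ∑ j, |M i j| ≤ C)
    (h2 : ∀ j, ∑ i, |M i j| ≤ C) : ‖M‖ ≤ C := by
  refine norm_le_of_sq M C hC ?_
  intro v
  have h3 : ∀ i, ((M *ᵥ v) i) ^ 2 ≤ C * ∑ j, |M i j| * (v j) ^ 2 := by
    intro i
    have h4 : (∑ j, M i j * v j) ^ 2 ≤ (∑ j, |M i j|) * ∑ j, |M i j| * (v j) ^ 2 := by
      apply Finset.sum_sq_le_sum_mul_sum_of_sq_le_mul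
      · intro j _; exact abs_nonneg _
      · intro j _; positivity
      · intro j _
        have : |M i j| * |M i j| = M i j * M i j := abs_mul_abs_self _
        rw [← mul_assoc, this]; exact le_of_eq (by ring)
    calc ((M *ᵥ v) i) ^ 2 = (∑ j, M i j * v j) ^ 2 := rfl
      _ ≤ (∑ j, |M i j|) * ∑ j, |M i j| * (v j) ^ 2 := h4
      _ ≤ C * ∑ j, |M i j| * (v j) ^ 2 :=
        mul_le_mul_of_nonneg_right (h1 i) (Finset.sum_nonneg fun j _ => by positivity)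
  calc (M *ᵥ v) ⬝ᵥ (M *ᵥ v) = ∑ i, ((M *ᵥ v) i) ^ 2 := by
        simp only [dotProduct, pow_two]
    _ ≤ ∑ i, C * ∑ j, |M i j| * (v j) ^ 2 := Finset.sum_le_sum fun i _ => h3 i
    _ = C * ∑ j, (∑ i, |M i j|) * (v j) ^ 2 := by
        rw [← Finset.mul_sum, Finset.sum_comm]
        simp only [Finset.sum_mul]
    _ ≤ C * ∑ j, C * (v j) ^ 2 := by
        apply mul_le_mul_of_nonneg_left _ hC
        exact Finset.sum_le_sum fun j _ => mul_le_mul_of_nonneg_right (h2 j) (sq_nonneg _)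
    _ = C ^ 2 * (v ⬝ᵥ v) := by
        simp only [dotProduct, ← pow_two, ← Finset.mul_sum]
        ring

theorem dot_mulVec_symm {T : Matrix ι ι ℝ} (hT : Tᵀ = T) (u v : ι → ℝ) :
    u ⬝ᵥ (T *ᵥ v) = v ⬝ᵥ (T *ᵥ u) := by
  rw [dotProduct_mulVec, ← mulVec_transpose, hT, dotProduct_comm]

/-- A symmetric matrix with small quadratic form is small. -/
theorem norm_le_of_quad {T : Matrix ι ι ℝ} (hT : Tᵀ = T) {θ : ℝ} (hθ : 0 ≤ θ)
    (h : ∀ v, |v ⬝ᵥ (T *ᵥ v)| ≤ θ * (v ⬝ᵥ v)) : ‖T‖ ≤ θ := by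
  have h1 : ∀ u v, u ⬝ᵥ (T *ᵥ v) ≤ θ * (u ⬝ᵥ u + v ⬝ᵥ v) / 2 := by
    intro u v
    have e1 := (abs_le.mp (h (u + v))).2
    have e2 := (abs_le.mp (h (u - v))).1
    rw [mulVec_add] at e1
    rw [mulVec_sub] at e2
    simp only [add_dotProduct, dotProduct_add, sub_dotProduct, dotProduct_sub] at e1 e2
    have e3 := dot_mulVec_symm hT v u
    have e4 := dotProduct_comm u v
    nlinarith
  refine norm_le_of_sq T θ hθ ?_
  intro v
  set w := T *ᵥ v with hw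
  have key : ∀ s : ℝ, s * (w ⬝ᵥ w) ≤ θ * (s ^ 2 * (w ⬝ᵥ w) + v ⬝ᵥ v) / 2 := by
    intro s
    have := h1 (s • w) v
    rw [← hw] at this
    simp only [smul_dotProduct, dotProduct_smul, smul_eq_mul] at this
    nlinarith
  have hw0 := dot_nonneg w
  have hv0 := dot_nonneg v
  rcases hθ.eq_or_lt with h0 | h0
  · have := key 1
    rw [← h0] at this ⊢
    nlinarith
  · have h2 := key (1 / θ)
    have h3 : θ * ((1 / θ) ^ 2 * (w ⬝ᵥ w) + v ⬝ᵥ v) / 2 =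
        (1 / θ) * (w ⬝ᵥ w) / 2 + θ * (v ⬝ᵥ v) / 2 := by
      field_simp
    rw [h3] at h2
    have h4 : (1 / θ) * (w ⬝ᵥ w) ≤ θ * (v ⬝ᵥ v) := by linarith
    have h5 := mul_le_mul_of_nonneg_left h4 h0.le
    have h6 : θ * ((1 / θ) * (w ⬝ᵥ w)) = w ⬝ᵥ w := by field_simp
    rw [h6] at h5
    linarith

theorem one_sub_sq {L : Matrix ι ι ℝ} (hL : Lᵀ = L) (h1 : ‖L‖ ≤ 1) {c : ℝ} (hc1 : c ≤ 1)
    (h : ∀ v, c * (v ⬝ᵥ v) ≤ (L *ᵥ v) ⬝ᵥ (L *ᵥ v)) : ‖1 - L * L‖ ≤ 1 - c := by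
  refine norm_le_of_quad ?_ (by linarith) ?_
  · rw [transpose_sub, transpose_mul, hL, transpose_one]
  · intro v
    have e1 : v ⬝ᵥ ((1 - L * L) *ᵥ v) = v ⬝ᵥ v - (L *ᵥ v) ⬝ᵥ (L *ᵥ v) := by
      rw [sub_mulVec, one_mulVec, dotProduct_sub, ← mulVec_mulVec]
      congr 1
      rw [dot_mulVec_symm hL]
    rw [e1, abs_le]
    have e2 := mulVec_sq_le L v
    have e3 := h v
    have e4 := dot_nonneg v
    have e5 : ‖L‖ ^ 2 ≤ 1 := by
      have := norm_nonneg L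
      nlinarith
    constructor
    · nlinarith
    · nlinarith

/-- a symmetric involution has norm at most one -/
theorem norm_invol {S : Matrix ι ι ℝ} (hS : Sᵀ = S) (h2 : S * S = 1) : ‖S‖ ≤ 1 := by
  refine norm_le_of_sq S 1 zero_le_one ?_
  intro v
  have e1 : (S *ᵥ v) ⬝ᵥ (S *ᵥ v) = v ⬝ᵥ v := by
    rw [← dot_mulVec_symm hS v (S *ᵥ v), mulVec_mulVec, h2, one_mulVec]
  rw [e1]; linarith

/-- a symmetric matrix with a small error has norm at most two -/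
theorem norm_le_two {F : Matrix ι ι ℝ} (hF : Fᵀ = F) (h : ‖1 - F * F‖ ≤ 1) : ‖F‖ ≤ 2 := by
  refine norm_le_of_sq F 2 (by norm_num) ?_
  intro v
  have e1 : (F *ᵥ v) ⬝ᵥ (F *ᵥ v) = v ⬝ᵥ v - v ⬝ᵥ ((1 - F * F) *ᵥ v) := by
    rw [sub_mulVec, one_mulVec, dotProduct_sub, ← mulVec_mulVec, dot_mulVec_symm hF v (F *ᵥ v)]
    ring
  have e2 := norm_sq_toLp v
  have e3 := norm_sq_toLp ((1 - F * F) *ᵥ v)
  have e4 := mulVec_sq_le (1 - F * F) v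
  have e5 := dot_nonneg v
  have e6 := dot_nonneg (v + (1 - F * F) *ᵥ v)
  have e7 : ‖1 - F * F‖ ^ 2 ≤ 1 := by
    have := norm_nonneg (1 - F * F)
    nlinarith
  simp only [add_dotProduct, dotProduct_add] at e6
  have e8 := dotProduct_comm v ((1 - F * F) *ᵥ v)
  rw [e1]
  nlinarith

theorem abs_entry_le (M : Matrix ι ι ℝ) (i j : ι) : |M i j| ≤ ‖M‖ := by
  have h := mulVec_sq_le M (Pi.single j 1)
  have e1 : (Pi.single j (1 : ℝ) : ι → ℝ) ⬝ᵥ Pi.single j 1 = 1 := by simp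
  rw [e1, mul_one] at h
  have e2 : (M i j) ^ 2 ≤ (M *ᵥ Pi.single j 1) ⬝ᵥ (M *ᵥ Pi.single j 1) := by
    have : (M *ᵥ Pi.single j 1) = fun k => M k j := by
      ext k; simp
    rw [this, dotProduct]
    have h0 : ∀ k ∈ Finset.univ, 0 ≤ M k j * M k j := fun k _ => mul_self_nonneg _
    have := Finset.single_le_sum h0 (Finset.mem_univ i)
    nlinarith
  exact abs_le_of_sq_le_sq (e2.trans h) (norm_nonneg _)

end Pool.Agent.Helper10K9.Sc
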