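import Mathlib
import Pool.Agent.Helper10K9.Schur
import Pool.Agent.Helper10K9.FL

/-!
# Matrices over a finite box of the lattice
-/

set_option autoImplicit false

open scoped Matrix.Norms.L2Operator Kronecker
open Matrix Pool.Agent.Helper10K9.FL Pool.Agent.Helper10K9.Sc

namespace Pool.Agent.Helper10K9.Bo

variable {q : ℕ} {e : Type} [Fintype e] [DecidableEq e] {R : ℕ}

/-- The box of radius `R`. -/
abbrev Bx (q R : ℕ) : Type := ↥(Finset.Icc (fun _ : Fin q => -(R : ℤ)) (fun _ => (R : ℤ)))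

/-- Bounded coordinates. -/
def Bd (r : ℤ) (x : Fin q → ℤ) : Prop := ∀ i, |x i| ≤ r

theorem mem_box {x : Fin q → ℤ} :
    x ∈ Finset.Icc (fun _ : Fin q => -(R : ℤ)) (fun _ => (R : ℤ)) ↔ Bd R x := by
  rw [Finset.mem_Icc, Bd]
  constructor
  · rintro ⟨h1, h2⟩ i
    exact abs_le.mpr ⟨h1 i, h2 i⟩
  · intro h
    exact ⟨fun i => (abs_le.mp (h i)).1, fun i => (abs_le.mp (h i)).2⟩

theorem Bd.neg {r : ℤ} {x : Fin q → ℤ} (h : Bd r x) : Bd r (-x) := fun i => by
  simpa using h i

theorem Bd.mono {r s : ℤ} {x : Fin q → ℤ} (h : Bd r x) (hrs : r ≤ s) : Bd s x :=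
  fun i => (h i).trans hrs

theorem Bd.add {r s : ℤ} {x y : Fin q → ℤ} (h : Bd r x) (h' : Bd s y) : Bd (r + s) (x + y) :=
  fun i => (abs_add_le _ _).trans (add_le_add (h i) (h' i))

theorem Bd.sub {r s : ℤ} {x y : Fin q → ℤ} (h : Bd r x) (h' : Bd s y) : Bd (r + s) (x - y) := by
  rw [sub_eq_add_neg]; exact h.add h'.neg

/-- The point `-x` of the box. -/
def ng (x : Bx q R) : Bx q R := ⟨-x.1, mem_box.mpr (mem_box.mp x.2).neg⟩

@[simp] theorem ng_ng (x : Bx q R) : ng (ng x) = x := by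
  apply Subtype.ext; simp [ng]

theorem ng_val (x : Bx q R) : (ng x).1 = -x.1 := rfl

/-- flat index type -/
abbrev Ix (q R : ℕ) (e : Type) : Type := Bx q R × e

/-- a block of a flat matrix -/
def blk (T : Matrix (Ix q R e) (Ix q R e) ℝ) (x y : Bx q R) : Matrix e e ℝ :=
  Matrix.of fun i j => T (x, i) (y, j)

theorem blk_mul (T U : Matrix (Ix q R e) (Ix q R e) ℝ) (x y : Bx q R) :
    blk (T * U) x y = ∑ z, blk T x z * blk U z y := by
  ext i j
  simp only [blk, Matrix.of_apply, Matrix.mul_apply, Fintype.sum_prod_type, Matrix.sum_apply]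

theorem blk_add (T U : Matrix (Ix q R e) (Ix q R e) ℝ) (x y : Bx q R) :
    blk (T + U) x y = blk T x y + blk U x y := rfl

theorem blk_sub (T U : Matrix (Ix q R e) (Ix q R e) ℝ) (x y : Bx q R) :
    blk (T - U) x y = blk T x y - blk U x y := rfl

theorem blk_smul (r : ℝ) (T : Matrix (Ix q R e) (Ix q R e) ℝ) (x y : Bx q R) :
    blk (r • T) x y = r • blk T x y := rfl

theorem blk_one (x y : Bx q R) :
    blk (1 : Matrix (Ix q R e) (Ix q R e) ℝ) x y = if x = y then 1 else 0 := by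
  ext i j
  simp only [blk, Matrix.of_apply]
  by_cases h : x = y
  · subst h
    simp [Matrix.one_apply]
  · simp [Matrix.one_apply, h]

theorem blk_ext {T U : Matrix (Ix q R e) (Ix q R e) ℝ} (h : ∀ x y, blk T x y = blk U x y) :
    T = U := by
  ext ⟨x, i⟩ ⟨y, j⟩
  exact congrFun (congrFun (h x y) i) j

/-- multiplication by a function of the position -/
def Dg (R : ℕ) (e : Type) [Fintype e] [DecidableEq e] (f : (Fin q → ℤ) → ℝ) :
    Matrix (Ix q R e) (Ix q R e) ℝ := Matrix.diagonal fun p => f p.1.1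

/-- a matrix acting on the fibre -/
def Sl (R : ℕ) (q : ℕ) (A : Matrix e e ℝ) : Matrix (Ix q R e) (Ix q R e) ℝ :=
  (1 : Matrix (Bx q R) (Bx q R) ℝ) ⊗ₖ A

/-- the truncated convolution -/
def Tp (R : ℕ) (k : GA q e) : Matrix (Ix q R e) (Ix q R e) ℝ :=
  Matrix.of fun p p' => k.coeff (p.1.1 - p'.1.1) p.2 p'.2

theorem blk_Dg (f : (Fin q → ℤ) → ℝ) (x y : Bx q R) :
    blk (Dg R e f) x y = if x = y then f x.1 • 1 else 0 := by
  ext i j
  simp only [blk, Matrix.of_apply, Dg, Matrix.diagonal_apply, Prod.mk.injEq]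
  by_cases h : x = y
  · subst h
    simp [Matrix.one_apply]
  · simp [h]

theorem blk_Sl (A : Matrix e e ℝ) (x y : Bx q R) :
    blk (Sl R q A) x y = if x = y then A else 0 := by
  ext i j
  simp only [blk, Matrix.of_apply, Sl, Matrix.kroneckerMap_apply, Matrix.one_apply]
  by_cases h : x = y
  · subst h
    simp
  · simp [h]

theorem blk_Tp (k : GA q e) (x y : Bx q R) : blk (Tp R k) x y = k.coeff (x.1 - y.1) := rfl

theorem Dg_mul (f g : (Fin q → ℤ) → ℝ) : Dg R e f * Dg R e g = Dg R e (fun x => f x * g x) := by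
  rw [Dg, Dg, Dg, Matrix.diagonal_mul_diagonal]

theorem Dg_transpose (f : (Fin q → ℤ) → ℝ) : (Dg R e f)ᵀ = Dg R e f := by
  rw [Dg, Matrix.diagonal_transpose]

theorem Sl_mul (A B : Matrix e e ℝ) : Sl R q A * Sl R q B = Sl R q (A * B) := by
  rw [Sl, Sl, Sl, ← Matrix.mul_kronecker_mul, one_mul]

theorem Sl_one : Sl R q (1 : Matrix e e ℝ) = 1 := by
  rw [Sl, Matrix.one_kronecker_one]

theorem Sl_neg (A : Matrix e e ℝ) : Sl R q (-A) = -Sl R q A := by
  apply blk_ext
  intro x y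
  have : blk (-Sl R q A) x y = -blk (Sl R q A) x y := rfl
  rw [this, blk_Sl, blk_Sl]
  split_ifs <;> simp

theorem Sl_transpose (A : Matrix e e ℝ) : (Sl R q A)ᵀ = Sl R q Aᵀ := by
  rw [Sl, Sl, ← Matrix.kroneckerMap_transpose, Matrix.transpose_one]

theorem Dg_Sl (f : (Fin q → ℤ) → ℝ) (A : Matrix e e ℝ) :
    Dg R e f * Sl R q A = Sl R q A * Dg R e f := by
  apply blk_ext
  intro x y
  rw [blk_mul, blk_mul]
  simp only [blk_Dg, blk_Sl]
  simp only [mul_ite, ite_mul, mul_zero, zero_mul, Finset.sum_ite_eq, Finset.mem_univ, if_true,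
    Finset.sum_ite_eq']
  by_cases h : x = y
  · subst h; simp
  · simp [h]

theorem Sl_Tp (A : Matrix e e ℝ) (k : GA q e) (x y : Bx q R) :
    blk (Sl R q A * Tp R k) x y = A * k.coeff (x.1 - y.1) := by
  rw [blk_mul]
  simp only [blk_Tp, blk_Sl, ite_mul, zero_mul, Finset.sum_ite_eq, Finset.mem_univ, if_true]

theorem Tp_Sl (A : Matrix e e ℝ) (k : GA q e) (x y : Bx q R) :
    blk (Tp R k * Sl R q A) x y = k.coeff (x.1 - y.1) * A := by
  rw [blk_mul]
  simp only [blk_Tp, blk_Sl, mul_ite, mul_zero, Finset.sum_ite_eq', Finset.mem_univ, if_true]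

theorem Sl_Tp_anti {A : Matrix e e ℝ} {k : GA q e} (h : ∀ z, A * k.coeff z = -(k.coeff z * A)) :
    Sl R q A * Tp R k = -(Tp R k * Sl R q A) := by
  apply blk_ext
  intro x y
  have : blk (-(Tp R k * Sl R q A)) x y = -blk (Tp R k * Sl R q A) x y := rfl
  rw [this, Sl_Tp, Tp_Sl, h]

theorem Sl_Tp_comm {A : Matrix e e ℝ} {k : GA q e} (h : ∀ z, A * k.coeff z = k.coeff z * A) :
    Sl R q A * Tp R k = Tp R k * Sl R q A := by
  apply blk_ext
  intro x y
  rw [Sl_Tp, Tp_Sl, h]

theorem Tp_transpose {k : GA q e} (h : ∀ z, k.coeff (-z) = (k.coeff z)ᵀ) :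
    (Tp R k)ᵀ = Tp R k := by
  ext ⟨x, i⟩ ⟨y, j⟩
  rw [Matrix.transpose_apply, Tp, Matrix.of_apply, Matrix.of_apply]
  have := h (x.1 - y.1)
  rw [neg_sub] at this
  simp only
  rw [this, Matrix.transpose_apply]

theorem blk_Dg_mul (f : (Fin q → ℤ) → ℝ) (T : Matrix (Ix q R e) (Ix q R e) ℝ) (x y : Bx q R) :
    blk (Dg R e f * T) x y = f x.1 • blk T x y := by
  ext i j
  simp only [blk, Matrix.of_apply, Dg, Matrix.diagonal_mul, Matrix.smul_apply, smul_eq_mul]

theorem blk_mul_Dg (f : (Fin q → ℤ) → ℝ) (T : Matrix (Ix q R e) (Ix q R e) ℝ) (x y : Bx q R) :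
    blk (T * Dg R e f) x y = f y.1 • blk T x y := by
  ext i j
  simp only [blk, Matrix.of_apply, Dg, Matrix.mul_diagonal, Matrix.smul_apply, smul_eq_mul]
  ring

theorem norm_Dg_le {f : (Fin q → ℤ) → ℝ} {C : ℝ} (hC : 0 ≤ C) (h : ∀ x, |f x| ≤ C) :
    ‖Dg R e f‖ ≤ C := by
  rw [Dg, l2_opNorm_diagonal, pi_norm_le_iff_of_nonneg hC]
  intro p
  exact h _

/-- The reflected fibre matrix. -/
def Rf (R : ℕ) (q : ℕ) (A : Matrix e e ℝ) : Matrix (Ix q R e) (Ix q R e) ℝ :=
  Matrix.of fun p p' => if ng p.1 = p'.1 then A p.2 p'.2 else 0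

theorem blk_Rf (A : Matrix e e ℝ) (x y : Bx q R) :
    blk (Rf R q A) x y = if ng x = y then A else 0 := by
  ext i j
  simp only [blk, Matrix.of_apply, Rf]
  split_ifs <;> simp

theorem Rf_mul_blk (A : Matrix e e ℝ) (T : Matrix (Ix q R e) (Ix q R e) ℝ) (x y : Bx q R) :
    blk (Rf R q A * T) x y = A * blk T (ng x) y := by
  rw [blk_mul]
  simp only [blk_Rf, ite_mul, zero_mul, Finset.sum_ite_eq, Finset.mem_univ, if_true]

theorem mul_Rf_blk (A : Matrix e e ℝ) (T : Matrix (Ix q R e) (Ix q R e) ℝ) (x y : Bx q R) :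
    blk (T * Rf R q A) x y = blk T x (ng y) * A := by
  rw [blk_mul]
  simp only [blk_Rf, mul_ite, mul_zero]
  rw [Finset.sum_eq_single (ng y)]
  · simp
  · intro b _ hb
    rw [if_neg]
    intro h
    apply hb
    rw [← h, ng_ng]
  · intro h; exact absurd (Finset.mem_univ _) h

section schur

theorem sum_box_le {F : (Fin q → ℤ) → ℝ} (hF : ∀ z, 0 ≤ F z) {s : Finset (Fin q → ℤ)}
    (hs : ∀ z, z ∉ s → F z = 0) {g : Bx q R → (Fin q → ℤ)} (hg : Function.Injective g) :
    ∑ y, F (g y) ≤ ∑ z ∈ s, F z := by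
  classical
  calc ∑ y, F (g y) = ∑ z ∈ Finset.univ.image g, F z := by
        rw [Finset.sum_image]
        intro a _ b _ h
        exact hg h
    _ ≤ ∑ z ∈ Finset.univ.image g ∪ s, F z :=
        Finset.sum_le_sum_of_subset_of_nonneg Finset.subset_union_left fun z _ _ => hF z
    _ = ∑ z ∈ s, F z := by
        symm
        apply Finset.sum_subset Finset.subset_union_right
        intro z _ hz
        exact hs z hz

/-- Rows and columns of a kernel have sums at most `C`. -/
def KS (C : ℝ) (k : GA q e) : Prop :=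
  (∀ i, ∑ z ∈ k.coeff.support, ∑ j, |k.coeff z i j| ≤ C) ∧
    (∀ j, ∑ z ∈ k.coeff.support, ∑ i, |k.coeff z i j| ≤ C)

theorem norm_weighted {C : ℝ} (hC : 0 ≤ C) {k : GA q e} (hk : KS C k) {δ : ℝ} (hδ : 0 ≤ δ)
    (T : Matrix (Ix q R e) (Ix q R e) ℝ) (w : Bx q R → Bx q R → ℝ)
    (hT : ∀ x y, blk T x y = w x y • k.coeff (x.1 - y.1))
    (hw : ∀ x y, k.coeff (x.1 - y.1) ≠ 0 → |w x y| ≤ δ) : ‖T‖ ≤ δ * C := by
  have hent : ∀ x i y j, |T (x, i) (y, j)| ≤ δ * |k.coeff (x.1 - y.1) i j| := by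
    intro x i y j
    have h1 : T (x, i) (y, j) = w x y * k.coeff (x.1 - y.1) i j :=
      congrFun (congrFun (hT x y) i) j
    by_cases h : k.coeff (x.1 - y.1) = 0
    · rw [h1, h]; simp
    · rw [h1, abs_mul]
      exact mul_le_mul_of_nonneg_right (hw x y h) (abs_nonneg _)
  refine schur T (δ * C) (by positivity) ?_ ?_
  · rintro ⟨x, i⟩
    rw [Fintype.sum_prod_type]
    calc ∑ y, ∑ j, |T (x, i) (y, j)| ≤ ∑ y : Bx q R, δ * ∑ j, |k.coeff (x.1 - y.1) i j| := by
          refine Finset.sum_le_sum fun y _ => ?_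
          rw [Finset.mul_sum]
          exact Finset.sum_le_sum fun j _ => hent x i y j
      _ = δ * ∑ y : Bx q R, ∑ j, |k.coeff (x.1 - y.1) i j| := by rw [Finset.mul_sum]
      _ ≤ δ * ∑ z ∈ k.coeff.support, ∑ j, |k.coeff z i j| := by
          apply mul_le_mul_of_nonneg_left _ hδ
          apply sum_box_le (F := fun z => ∑ j, |k.coeff z i j|)
            (fun z => Finset.sum_nonneg fun _ _ => abs_nonneg _)
          · intro z hz
            rw [Finsupp.notMem_support_iff.mp hz]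
            simp
          · intro a b h
            apply Subtype.ext
            have : x.1 - a.1 = x.1 - b.1 := h
            simpa using this
      _ ≤ δ * C := mul_le_mul_of_nonneg_left (hk.1 i) hδ
  · rintro ⟨y, j⟩
    rw [Fintype.sum_prod_type]
    calc ∑ x, ∑ i, |T (x, i) (y, j)| ≤ ∑ x : Bx q R, δ * ∑ i, |k.coeff (x.1 - y.1) i j| := by
          refine Finset.sum_le_sum fun x _ => ?_
          rw [Finset.mul_sum]
          exact Finset.sum_le_sum fun i _ => hent x i y j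
      _ = δ * ∑ x : Bx q R, ∑ i, |k.coeff (x.1 - y.1) i j| := by rw [Finset.mul_sum]
      _ ≤ δ * ∑ z ∈ k.coeff.support, ∑ i, |k.coeff z i j| := by
          apply mul_le_mul_of_nonneg_left _ hδ
          apply sum_box_le (F := fun z => ∑ i, |k.coeff z i j|)
            (fun z => Finset.sum_nonneg fun _ _ => abs_nonneg _)
          · intro z hz
            rw [Finsupp.notMem_support_iff.mp hz]
            simp
          · intro a b h
            apply Subtype.ext
            have : a.1 - y.1 = b.1 - y.1 := h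
            simpa using this
      _ ≤ δ * C := mul_le_mul_of_nonneg_left (hk.2 j) hδ

theorem norm_Tp_le {C : ℝ} (hC : 0 ≤ C) {k : GA q e} (hk : KS C k) : ‖Tp R k‖ ≤ C := by
  have := norm_weighted (R := R) hC hk zero_le_one (Tp R k) (fun _ _ => 1)
    (fun x y => by rw [blk_Tp, one_smul]) (fun x y _ => by simp)
  simpa using this

theorem norm_comm_le {C : ℝ} (hC : 0 ≤ C) {k : GA q e} (hk : KS C k) {δ : ℝ} (hδ : 0 ≤ δ)
    {f : (Fin q → ℤ) → ℝ} (hf : ∀ x y, k.coeff (x - y) ≠ 0 → |f x - f y| ≤ δ) :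
    ‖Dg R e f * Tp R k - Tp R k * Dg R e f‖ ≤ δ * C := by
  refine norm_weighted hC hk hδ _ (fun x y => f x.1 - f y.1) ?_ (fun x y h => hf _ _ h)
  intro x y
  rw [blk_sub, blk_Dg_mul, blk_mul_Dg, blk_Tp, sub_smul]

end schur

theorem mul_coeff (k l : GA q e) (m : Fin q → ℤ) {s : Finset (Fin q → ℤ)}
    (hs : k.coeff.support ⊆ s) :
    (k * l).coeff m = ∑ u ∈ s, k.coeff u * l.coeff (m - u) := by
  classical
  rw [AddMonoidAlgebra.coeff_mul]
  rw [Finsupp.sum, Finset.sum_subset hs]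
  · refine Finset.sum_congr rfl fun u _ => ?_
    rw [Finsupp.sum]
    by_cases h : m - u ∈ l.coeff.support
    · rw [Finset.sum_eq_single_of_mem (m - u) h]
      · rw [if_pos (by abel)]
      · intro b _ hb
        rw [if_neg]
        intro h'
        apply hb
        rw [← h']; abel
    · rw [Finsupp.notMem_support_iff.mp h, mul_zero]
      apply Finset.sum_eq_zero
      intro b hb
      rw [if_neg]
      intro h'
      apply h
      rw [← h']
      simpa using hb
  · intro u _ hu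
    rw [Finsupp.notMem_support_iff.mp hu]
    simp [Finsupp.sum]

/-- The lower bound for the truncated convolution. -/
theorem Tp_lower [Nonempty e] {K : GA q e} {β : ℤ} (hβ : ∀ z, K.coeff z ≠ 0 → Bd β z) {c : ℝ}
    (hc : ∀ f : GA q e, c * fsq f ≤ fsq (K * f)) {w : Ix q R e → ℝ}
    (hw : ∀ x : Bx q R, (∃ i, w (x, i) ≠ 0) → Bd (R - β) x.1) :
    c * (w ⬝ᵥ w) ≤ (Tp R K *ᵥ w) ⬝ᵥ (Tp R K *ᵥ w) := by
  classical
  -- the kernel attached to the vector
  let wz : (Fin q → ℤ) → Matrix e e ℝ := fun z =>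
    if hz : z ∈ Finset.Icc (fun _ : Fin q => -(R : ℤ)) (fun _ => (R : ℤ)) then
      Matrix.of fun i _ => w (⟨z, hz⟩, i) else 0
  have hwz : ∀ x : Bx q R, wz x.1 = Matrix.of fun i _ => w (x, i) := by
    intro x
    simp only [wz]
    rw [dif_pos x.2]
  have hwz0 : ∀ z, wz z ≠ 0 → Bd (R - β) z := by
    intro z hz
    by_cases h : z ∈ Finset.Icc (fun _ : Fin q => -(R : ℤ)) (fun _ => (R : ℤ))
    · apply hw ⟨z, h⟩
      by_contra hcon
      push Not at hcon
      apply hz
      simp only [wz]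
      rw [dif_pos h]
      ext i j
      simp [hcon i]
    · exfalso
      apply hz
      simp only [wz]
      rw [dif_neg h]
  let f : GA q e := AddMonoidAlgebra.ofCoeff (Finsupp.onFinset
    (Finset.Icc (fun _ : Fin q => -(R : ℤ)) (fun _ => (R : ℤ))) wz (by
      intro z hz
      by_contra hcon
      apply hz
      simp only [wz]
      rw [dif_neg hcon]))
  have hf : ∀ z, f.coeff z = wz z := fun z => rfl
  have hfs : f.coeff.support ⊆ Finset.Icc (fun _ : Fin q => -(R : ℤ)) (fun _ => (R : ℤ)) := by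
    intro z hz
    rw [Finsupp.mem_support_iff, hf] at hz
    by_contra hcon
    apply hz
    simp only [wz]
    rw [dif_neg hcon]
  -- the product
  have hprod : ∀ z, (K * f).coeff z = ∑ y : Bx q R, K.coeff (z - y.1) * wz y.1 := by
    intro z
    rw [mul_coeff K f z (s := K.coeff.support ∪
      (Finset.Icc (fun _ : Fin q => -(R : ℤ)) (fun _ => (R : ℤ))).image (fun y => z - y))
      Finset.subset_union_left]
    rw [Finset.sum_coe_sort (Finset.Icc (fun _ : Fin q => -(R : ℤ)) (fun _ => (R : ℤ)))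
      (fun y => K.coeff (z - y) * wz y)]
    have e1 : ∑ y ∈ Finset.Icc (fun _ : Fin q => -(R : ℤ)) (fun _ => (R : ℤ)),
        K.coeff (z - y) * wz y = ∑ u ∈ (Finset.Icc (fun _ : Fin q => -(R : ℤ))
          (fun _ => (R : ℤ))).image (fun y => z - y), K.coeff u * wz (z - u) := by
      rw [Finset.sum_image]
      · refine Finset.sum_congr rfl fun y _ => ?_
        simp only [sub_sub_cancel]
      · intro a _ b _ h
        simpa using h
    rw [e1]
    symm
    simp only [hf]
    apply Finset.sum_subset Finset.subset_union_right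
    intro u _ hu
    have : wz (z - u) = 0 := by
      by_contra hcon
      apply hu
      rw [Finset.mem_image]
      refine ⟨z - u, ?_, by abel⟩
      apply hfs
      rw [Finsupp.mem_support_iff, hf]
      exact hcon
    rw [this, mul_zero]
  have hsupp : (K * f).coeff.support ⊆
      Finset.Icc (fun _ : Fin q => -(R : ℤ)) (fun _ => (R : ℤ)) := by
    intro z hz
    rw [Finsupp.mem_support_iff, hprod] at hz
    obtain ⟨y, _, hy⟩ := Finset.exists_ne_zero_of_sum_ne_zero hz
    rw [mem_box]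
    have h1 : K.coeff (z - y.1) ≠ 0 := fun h => hy (by rw [h, zero_mul])
    have h2 : wz y.1 ≠ 0 := fun h => hy (by rw [h, mul_zero])
    have h3 := (hβ _ h1).add (hwz0 _ h2)
    have h4 : z - y.1 + y.1 = z := by abel
    rw [h4] at h3
    exact h3.mono (by linarith)
  have hM : ∀ x : Bx q R, (K * f).coeff x.1 = Matrix.of fun i _ => (Tp R K *ᵥ w) (x, i) := by
    intro x
    rw [hprod]
    ext i j
    rw [Matrix.sum_apply, Matrix.of_apply, Matrix.mulVec, dotProduct, Fintype.sum_prod_type]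
    refine Finset.sum_congr rfl fun y _ => ?_
    rw [Matrix.mul_apply, hwz]
    rfl
  have hcard : (0 : ℝ) < Fintype.card e := by
    exact_mod_cast Fintype.card_pos
  have g1 : fsq f = Fintype.card e * (w ⬝ᵥ w) := by
    rw [fsq, Finsupp.sum_of_support_subset _ hfs _ (by intro z _; simp)]
    rw [← Finset.sum_coe_sort, dotProduct, Fintype.sum_prod_type, Finset.mul_sum]
    refine Finset.sum_congr rfl fun x _ => ?_
    rw [hf, hwz]
    simp only [Matrix.of_apply, Finset.sum_const, Finset.card_univ, nsmul_eq_mul, Finset.mul_sum,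
      pow_two]
  have g2 : fsq (K * f) = Fintype.card e * ((Tp R K *ᵥ w) ⬝ᵥ (Tp R K *ᵥ w)) := by
    rw [fsq, Finsupp.sum_of_support_subset _ hsupp _ (by intro z _; simp)]
    rw [← Finset.sum_coe_sort, dotProduct, Fintype.sum_prod_type, Finset.mul_sum]
    refine Finset.sum_congr rfl fun x _ => ?_
    rw [hM]
    simp only [Matrix.of_apply, Finset.sum_const, Finset.card_univ, nsmul_eq_mul, Finset.mul_sum,
      pow_two]
  have h := hc f
  rw [g1, g2] at h
  have h' : (Fintype.card e : ℝ) * (c * (w ⬝ᵥ w)) ≤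
      Fintype.card e * ((Tp R K *ᵥ w) ⬝ᵥ (Tp R K *ᵥ w)) := by
    linarith
  exact le_of_mul_le_mul_left h' hcard

end Pool.Agent.Helper10K9.Bo
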