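import Mathlib

/-!
# Transverse spheres of full flags: definitions
-/

set_option autoImplicit false

namespace Pool.Agent.Helper10K9.FS

/-- Euclidean space of dimension `d`. -/
abbrev E (d : ℕ) : Type := EuclideanSpace ℝ (Fin d)

/-- A full flag of `ℝ^d`: an increasing sequence of linear subspaces `F^0 ⊆ F^1 ⊆ ⋯ ⊆ F^d` with
`dim F^i = i`. (The subspaces `F^0 = 0` and `F^d = ℝ^d` carry no information.) -/
structure FullFlag (d : ℕ) where
  /-- the subspaces -/
  sub : Fin (d + 1) → Submodule ℝ (E d)
  mono : Monotone sub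
  dim : ∀ i : Fin (d + 1), Module.finrank ℝ (sub i) = (i : ℕ)

/-- The orthogonal projections onto the subspaces of a flag. -/
noncomputable def FullFlag.proj {d : ℕ} (F : FullFlag d) : Fin (d + 1) → (E d →L[ℝ] E d) :=
  fun i => (F.sub i).starProjection

/-- The usual topology of the flag manifold: the flags are identified with the sequences of the
orthogonal projections onto their subspaces. -/
noncomputable instance (d : ℕ) : TopologicalSpace (FullFlag d) :=
  TopologicalSpace.induced FullFlag.proj inferInstance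

/-- Two flags are transverse if `F^i ∩ G^(d-i) = 0` for all `i`. -/
def Transverse {d : ℕ} (F G : FullFlag d) : Prop :=
  ∀ i : Fin (d + 1), F.sub i ⊓ G.sub i.rev = ⊥

/-- `S` is a transverse `n`-sphere: any two distinct flags in `S` are transverse, and `S` is
homeomorphic to the unit sphere of `ℝ^(n+1)`. -/
def IsTransverseSphere (n : ℕ) {d : ℕ} (S : Set (FullFlag d)) : Prop :=
  (∀ F ∈ S, ∀ G ∈ S, F ≠ G → Transverse F G) ∧
    Nonempty (S ≃ₜ Metric.sphere (0 : E (n + 1)) 1)

/-- The number of `i` with `1 ≤ i ≤ n` and `i ≡ 0, 1, 2, 4` modulo `8`. -/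
def phi (n : ℕ) : ℕ :=
  ((Finset.Icc 1 n).filter fun i => i % 8 = 0 ∨ i % 8 = 1 ∨ i % 8 = 2 ∨ i % 8 = 4).card

end Pool.Agent.Helper10K9.FS
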