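import Mathlib

/-!
# Total domination of disjoint unions of bipartite complements of the Heawood graph

`F k` is the disjoint union of `k` copies of the bipartite complement of the Heawood graph. For
`k ≥ 2` its complement is connected, has order `14 k`, `δ* = 4`, total domination number `2`, and
`F k` itself has total domination number `6 k`.
-/

set_option autoImplicit false

namespace Pool.Agent.Helper10K9.HeawoodTD

/-- `S` is a total dominating set of `G`: every vertex of `G` is adjacent to a vertex of `S`. -/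
def IsTotalDominating {V : Type} (G : SimpleGraph V) (S : Finset V) : Prop :=
  ∀ v : V, ∃ u ∈ S, G.Adj v u

/-- The total domination number: the least cardinality of a total dominating set. -/
noncomputable def gammaT {V : Type} (G : SimpleGraph V) : ℕ :=
  sInf {k : ℕ | ∃ S : Finset V, IsTotalDominating G S ∧ S.card = k}

/-- The minimum degree. -/
noncomputable def minDeg {V : Type} (G : SimpleGraph V) : ℕ :=
  sInf (Set.range fun v : V => (G.neighborSet v).ncard)

/-- `δ*(G) = min {δ(G), δ(Gᶜ)}`. -/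
noncomputable def deltaStar {V : Type} (G : SimpleGraph V) : ℕ :=
  min (minDeg G) (minDeg Gᶜ)

/-- the differences defining the non-incident point-line pairs of the Fano plane -/
def D : Finset (ZMod 7) := {0, 3, 5, 6}

/-- vertices: copy, side, residue -/
abbrev W (k : ℕ) : Type := Fin k × Bool × ZMod 7

/-- adjacency inside one copy -/
def rel (p q : Bool × ZMod 7) : Prop :=
  (p.1 = false ∧ q.1 = true ∧ q.2 - p.2 ∈ D) ∨ (p.1 = true ∧ q.1 = false ∧ p.2 - q.2 ∈ D)

instance : DecidableRel rel := fun p q => by unfold rel; infer_instance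

theorem rel_symm {p q : Bool × ZMod 7} (h : rel p q) : rel q p := by
  rcases h with ⟨h1, h2, h3⟩ | ⟨h1, h2, h3⟩
  · exact Or.inr ⟨h2, h1, h3⟩
  · exact Or.inl ⟨h2, h1, h3⟩

theorem rel_irrefl (p : Bool × ZMod 7) : ¬ rel p p := by
  rintro (⟨h1, h2, _⟩ | ⟨h1, h2, _⟩)
  · rw [h1] at h2; exact absurd h2 (by decide)
  · rw [h1] at h2; exact absurd h2 (by decide)

/-- `k` disjoint copies of the bipartite complement of the Heawood graph. -/
def F (k : ℕ) : SimpleGraph (W k) where
  Adj u v := u.1 = v.1 ∧ rel u.2 v.2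
  symm := ⟨fun _ _ h => ⟨h.1.symm, rel_symm h.2⟩⟩
  loopless := ⟨fun _ h => rel_irrefl _ h.2⟩

instance (k : ℕ) : DecidableRel (F k).Adj := fun u v => by
  unfold F; infer_instance

theorem card_W (k : ℕ) : Fintype.card (W k) = 14 * k := by
  simp [W, ZMod.card]; ring

/-- the neighbours inside a copy -/
def nb (p : Bool × ZMod 7) : Finset (Bool × ZMod 7) := Finset.univ.filter (fun q => rel p q)

theorem nb_card : ∀ p : Bool × ZMod 7, (nb p).card = 4 := by decide

theorem neighborSet_F (k : ℕ) (v : W k) :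
    (F k).neighborSet v = (fun q => (v.1, q)) '' (nb v.2 : Set (Bool × ZMod 7)) := by
  ext u
  simp only [SimpleGraph.mem_neighborSet, Set.mem_image, Finset.mem_coe, nb, Finset.mem_filter,
    Finset.mem_univ, true_and]
  constructor
  · rintro ⟨h1, h2⟩
    exact ⟨u.2, h2, by rw [h1]⟩
  · rintro ⟨q, hq, rfl⟩
    exact ⟨rfl, hq⟩

theorem deg_F (k : ℕ) (v : W k) : ((F k).neighborSet v).ncard = 4 := by
  rw [neighborSet_F, Set.ncard_image_of_injective _ (fun a b h => (Prod.mk.inj h).2),
    Set.ncard_coe_finset, nb_card]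

theorem deg_Fc (k : ℕ) (v : W k) : ((F k)ᶜ.neighborSet v).ncard = 14 * k - 5 := by
  classical
  have h1 : (F k)ᶜ.neighborSet v = ((F k).neighborSet v ∪ {v})ᶜ := by
    ext u
    simp only [SimpleGraph.mem_neighborSet, SimpleGraph.compl_adj, Set.mem_compl_iff,
      Set.mem_union, Set.mem_singleton_iff, not_or]
    constructor
    · rintro ⟨h, h'⟩; exact ⟨h', fun e => h e.symm⟩
    · rintro ⟨h, h'⟩; exact ⟨fun e => h' e.symm, h⟩
  have h2 : ((F k).neighborSet v ∪ {v}).ncard = 5 := by
    rw [Set.ncard_union_eq, deg_F, Set.ncard_singleton]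
    rw [Set.disjoint_singleton_right]
    exact fun h => (F k).loopless.irrefl v h
  rw [h1, Set.ncard_compl, h2, Nat.card_eq_fintype_card, card_W]

theorem minDeg_F (k : ℕ) (hk : 2 ≤ k) : minDeg (F k) = 4 := by
  have : Set.range (fun v : W k => ((F k).neighborSet v).ncard) = {4} := by
    ext x
    simp only [Set.mem_range, Set.mem_singleton_iff]
    constructor
    · rintro ⟨v, rfl⟩; exact deg_F k v
    · rintro rfl; exact ⟨(⟨0, by omega⟩, false, 0), deg_F k _⟩
  rw [minDeg, this, csInf_singleton]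

theorem minDeg_Fc (k : ℕ) (hk : 2 ≤ k) : minDeg (F k)ᶜ = 14 * k - 5 := by
  have : Set.range (fun v : W k => ((F k)ᶜ.neighborSet v).ncard) = {14 * k - 5} := by
    ext x
    simp only [Set.mem_range, Set.mem_singleton_iff]
    constructor
    · rintro ⟨v, rfl⟩; exact deg_Fc k v
    · rintro rfl; exact ⟨(⟨0, by omega⟩, false, 0), deg_Fc k _⟩
  rw [minDeg, this, csInf_singleton]

/-- two points do not meet all the blocks -/
theorem two_points : ∀ (b : Bool) (x y : ZMod 7), ∃ z : ZMod 7,
    ¬ rel (!b, z) (b, x) ∧ ¬ rel (!b, z) (b, y) := by decide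

/-- the points `0, 1, 2` meet all the blocks -/
theorem three_points : ∀ (b : Bool) (z : ZMod 7),
    rel (!b, z) (b, 0) ∨ rel (!b, z) (b, 1) ∨ rel (!b, z) (b, 2) := by decide

theorem exists_pair {α : Type} [DecidableEq α] (a : α) (T : Finset α) (h : T.card ≤ 2) :
    ∃ x y, ∀ t ∈ T, t = x ∨ t = y := by
  have h3 : T.card = 0 ∨ T.card = 1 ∨ T.card = 2 := by omega
  rcases h3 with h | h | h
  · rw [Finset.card_eq_zero] at h
    subst h
    exact ⟨a, a, by simp⟩
  · obtain ⟨x, rfl⟩ := Finset.card_eq_one.mp h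
    exact ⟨x, x, by simp⟩
  · obtain ⟨x, y, -, rfl⟩ := Finset.card_eq_two.mp h
    exact ⟨x, y, by simp⟩

theorem lower (k : ℕ) (S : Finset (W k)) (hS : IsTotalDominating (F k) S) : 6 * k ≤ S.card := by
  classical
  have h1 : ∀ p : Fin k × Bool, 3 ≤ (S.filter fun v => (v.1, v.2.1) = p).card := by
    rintro ⟨c, b⟩
    by_contra hcon
    push Not at hcon
    have hcard : ((S.filter fun v => (v.1, v.2.1) = (c, b)).image fun v => v.2.2).card ≤ 2 :=
      Finset.card_image_le.trans (by omega)
    obtain ⟨x, y, hxy⟩ := exists_pair 0 _ hcard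
    obtain ⟨z, hz1, hz2⟩ := two_points b x y
    obtain ⟨u, hu, hadj⟩ := hS (c, !b, z)
    have hc : u.1 = c := hadj.1.symm
    have hr : rel (!b, z) u.2 := hadj.2
    have hb : u.2.1 = b := by
      rcases hr with ⟨e1, e2, _⟩ | ⟨e1, e2, _⟩
      · rw [e2]; simpa using e1.symm
      · rw [e2]; simpa using e1.symm
    have hmem : u.2.2 ∈ (S.filter fun v => (v.1, v.2.1) = (c, b)).image fun v => v.2.2 := by
      refine Finset.mem_image.mpr ⟨u, Finset.mem_filter.mpr ⟨hu, ?_⟩, rfl⟩
      rw [hc, hb]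
    have hu2 : u.2 = (b, u.2.2) := Prod.ext hb rfl
    rcases hxy _ hmem with e | e
    · rw [hu2, e] at hr; exact hz1 hr
    · rw [hu2, e] at hr; exact hz2 hr
  have h2 : S.card = ∑ p : Fin k × Bool, (S.filter fun v => (v.1, v.2.1) = p).card :=
    Finset.card_eq_sum_card_fiberwise (fun _ _ => Finset.mem_univ _)
  rw [h2]
  calc 6 * k = ∑ _p : Fin k × Bool, 3 := by simp; ring
    _ ≤ _ := Finset.sum_le_sum fun p _ => h1 p

theorem gammaT_F (k : ℕ) : gammaT (F k) = 6 * k := by
  classical
  apply le_antisymm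
  · apply Nat.sInf_le
    refine ⟨(Finset.univ : Finset (Fin k)) ×ˢ ((Finset.univ : Finset Bool) ×ˢ {0, 1, 2}), ?_, ?_⟩
    · rintro ⟨c, b, z⟩
      have h := three_points (!b) z
      simp only [Bool.not_not] at h
      rcases h with h | h | h
      · exact ⟨(c, !b, 0), by simp, rfl, h⟩
      · exact ⟨(c, !b, 1), by simp, rfl, h⟩
      · exact ⟨(c, !b, 2), by simp, rfl, h⟩
    · rw [Finset.card_product, Finset.card_product]
      have : ({0, 1, 2} : Finset (ZMod 7)).card = 3 := by decide
      rw [this]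
      simp
      ring
  · refine le_csInf ?_ ?_
    · exact ⟨_, (Finset.univ : Finset (Fin k)) ×ˢ ((Finset.univ : Finset Bool) ×ˢ {0, 1, 2}), by
        rintro ⟨c, b, z⟩
        have h := three_points (!b) z
        simp only [Bool.not_not] at h
        rcases h with h | h | h
        · exact ⟨(c, !b, 0), by simp, rfl, h⟩
        · exact ⟨(c, !b, 1), by simp, rfl, h⟩
        · exact ⟨(c, !b, 2), by simp, rfl, h⟩, rfl⟩
    · rintro _ ⟨S, hS, rfl⟩
      exact lower k S hS

theorem adj_of_ne (k : ℕ) {u v : W k} (h : u.1 ≠ v.1) : (F k)ᶜ.Adj u v := by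
  rw [SimpleGraph.compl_adj]
  exact ⟨fun e => h (by rw [e]), fun e => h e.1⟩

theorem gammaT_Fc (k : ℕ) (hk : 2 ≤ k) : gammaT (F k)ᶜ = 2 := by
  classical
  set a : W k := (⟨0, by omega⟩, false, 0) with ha
  set b : W k := (⟨1, by omega⟩, false, 0) with hb
  have hab : a.1 ≠ b.1 := by
    intro h
    have := congrArg Fin.val h
    simp [ha, hb] at this
  have hdom : IsTotalDominating (F k)ᶜ {a, b} := by
    intro v
    by_cases h : v.1 = a.1
    · exact ⟨b, by simp, adj_of_ne k (by rw [h]; exact hab)⟩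
    · exact ⟨a, by simp, adj_of_ne k h⟩
  have hcard : ({a, b} : Finset (W k)).card = 2 := by
    rw [Finset.card_pair]
    intro h
    exact hab (by rw [h])
  apply le_antisymm
  · exact Nat.sInf_le ⟨{a, b}, hdom, hcard⟩
  · refine le_csInf ⟨2, {a, b}, hdom, hcard⟩ ?_
    rintro _ ⟨S, hS, rfl⟩
    obtain ⟨u, hu, -⟩ := hS a
    obtain ⟨w, hw, hadj⟩ := hS u
    have : u ≠ w := hadj.ne
    calc 2 = ({u, w} : Finset (W k)).card := (Finset.card_pair this).symm
      _ ≤ S.card := Finset.card_le_card (by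
        intro x hx
        rcases Finset.mem_insert.mp hx with rfl | hx
        · exact hu
        · rw [Finset.mem_singleton.mp hx]; exact hw)

theorem connected_Fc (k : ℕ) (hk : 2 ≤ k) : (F k)ᶜ.Connected := by
  have : Nonempty (W k) := ⟨(⟨0, by omega⟩, false, 0)⟩
  refine SimpleGraph.Connected.mk ?_
  intro u v
  by_cases h : u.1 = v.1
  · obtain ⟨c, hc⟩ : ∃ c : Fin k, c ≠ u.1 := by
      by_cases h0 : u.1 = ⟨0, by omega⟩
      · exact ⟨⟨1, by omega⟩, by rw [h0]; intro e; have := congrArg Fin.val e; simp at this⟩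
      · exact ⟨⟨0, by omega⟩, fun e => h0 e.symm⟩
    have h1 : (F k)ᶜ.Adj u (c, false, 0) := adj_of_ne k (fun e => hc e.symm)
    have h2 : (F k)ᶜ.Adj (c, false, 0) v := adj_of_ne k (fun e => hc (by rw [h]; exact e))
    exact h1.reachable.trans h2.reachable
  · exact (adj_of_ne k h).reachable

end Pool.Agent.Helper10K9.HeawoodTD
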