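import Mathlib

/-!
# Divisibility of traces of commuting real involutions
-/

set_option autoImplicit false

open Module Quaternion

namespace Pool.Agent.Helper10K9.Ig

section finrank

variable {V : Type*} [AddCommGroup V] [Module ℝ V] [FiniteDimensional ℝ V]

theorem even_of_complex (I : Module.End ℝ V) (hI : I * I = -1) : 2 ∣ finrank ℝ V := by
  have h1 : LinearMap.det (I * I) = (-1 : ℝ) ^ finrank ℝ V := by
    rw [hI]
    have : (-1 : Module.End ℝ V) = (-1 : ℝ) • (1 : Module.End ℝ V) := by simp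
    rw [this, LinearMap.det_smul, map_one, mul_one]
  rw [map_mul] at h1
  rcases Nat.even_or_odd (finrank ℝ V) with h | h
  · exact h.two_dvd
  · rw [h.neg_one_pow] at h1
    nlinarith [mul_self_nonneg (LinearMap.det I)]

theorem four_of_quaternion (I J : Module.End ℝ V) (hI : I * I = -1) (hJ : J * J = -1)
    (hIJ : I * J = -(J * I)) : 4 ∣ finrank ℝ V := by
  let B : QuaternionAlgebra.Basis (Module.End ℝ V) (-1 : ℝ) 0 (-1) :=
    { i := I
      j := J
      k := I * J
      i_mul_i := by rw [hI]; simp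
      j_mul_j := by rw [hJ]; simp
      i_mul_j := rfl
      j_mul_i := by rw [hIJ]; simp }
  let φ : ℍ[ℝ] →ₐ[ℝ] Module.End ℝ V := B.liftHom
  let inst : Module ℍ[ℝ] V := Module.compHom V φ.toRingHom
  have hst : IsScalarTower ℝ ℍ[ℝ] V := by
    constructor
    intro r x v
    change φ (r • x) v = r • φ x v
    rw [map_smul]
    rfl
  have : Module.Finite ℍ[ℝ] V := Module.Finite.of_restrictScalars_finite ℝ ℍ[ℝ] V
  have h := Module.finrank_mul_finrank ℝ ℍ[ℝ] V
  rw [Quaternion.finrank_eq_four] at h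
  exact ⟨_, h.symm⟩

end finrank

/-- The algebra commuting with the matrices of `S` contains a division algebra of dimension
`c = 1, 2, 4`. -/
def CommCase {a : Type*} [Fintype a] [DecidableEq a] (c : ℕ) (S : Set (Matrix a a ℝ)) : Prop :=
  c = 1 ∨ (c = 2 ∧ ∃ I : Matrix a a ℝ, I * I = -1 ∧ ∀ X ∈ S, I * X = X * I) ∨
    (c = 4 ∧ ∃ I J : Matrix a a ℝ, I * I = -1 ∧ J * J = -1 ∧ I * J = -(J * I) ∧
      ∀ X ∈ S, I * X = X * I ∧ J * X = X * J)

theorem range_restrict {V : Type*} [AddCommGroup V] [Module ℝ V] (Q I : Module.End ℝ V)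
    (h : I * Q = Q * I) : ∀ x ∈ LinearMap.range Q, I x ∈ LinearMap.range Q := by
  rintro _ ⟨y, rfl⟩
  refine ⟨I y, ?_⟩
  have := congrArg (fun T : Module.End ℝ V => T y) h
  simpa using this.symm

theorem dvd_range {a : Type*} [Fintype a] [DecidableEq a] {c : ℕ} {S : Set (Matrix a a ℝ)}
    (h : CommCase c S) (Q : Matrix a a ℝ) (hQ : Q ∈ S) :
    c ∣ finrank ℝ (LinearMap.range (Matrix.toLin' Q)) := by
  rcases h with rfl | ⟨rfl, I, hI, hc⟩ | ⟨rfl, I, J, hI, hJ, hIJ, hc⟩
  · exact one_dvd _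
  · have h1 : Matrix.toLin' I * Matrix.toLin' Q = Matrix.toLin' Q * Matrix.toLin' I := by
      rw [Module.End.mul_eq_comp, Module.End.mul_eq_comp, ← Matrix.toLin'_mul,
        ← Matrix.toLin'_mul, hc Q hQ]
    have h2 := range_restrict (Matrix.toLin' Q) (Matrix.toLin' I) h1
    refine even_of_complex ((Matrix.toLin' I).restrict h2) ?_
    ext ⟨x, hx⟩ : 1
    apply Subtype.ext
    have : (Matrix.toLin' I * Matrix.toLin' I) x = -x := by
      rw [Module.End.mul_eq_comp, ← Matrix.toLin'_mul, hI]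
      simp
    simpa using this
  · have h1 : Matrix.toLin' I * Matrix.toLin' Q = Matrix.toLin' Q * Matrix.toLin' I := by
      rw [Module.End.mul_eq_comp, Module.End.mul_eq_comp, ← Matrix.toLin'_mul,
        ← Matrix.toLin'_mul, (hc Q hQ).1]
    have h1' : Matrix.toLin' J * Matrix.toLin' Q = Matrix.toLin' Q * Matrix.toLin' J := by
      rw [Module.End.mul_eq_comp, Module.End.mul_eq_comp, ← Matrix.toLin'_mul,
        ← Matrix.toLin'_mul, (hc Q hQ).2]
    have h2 := range_restrict (Matrix.toLin' Q) (Matrix.toLin' I) h1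
    have h2' := range_restrict (Matrix.toLin' Q) (Matrix.toLin' J) h1'
    refine four_of_quaternion ((Matrix.toLin' I).restrict h2) ((Matrix.toLin' J).restrict h2')
      ?_ ?_ ?_
    · ext ⟨x, hx⟩ : 1
      apply Subtype.ext
      have : (Matrix.toLin' I * Matrix.toLin' I) x = -x := by
        rw [Module.End.mul_eq_comp, ← Matrix.toLin'_mul, hI]
        simp
      simpa using this
    · ext ⟨x, hx⟩ : 1
      apply Subtype.ext
      have : (Matrix.toLin' J * Matrix.toLin' J) x = -x := by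
        rw [Module.End.mul_eq_comp, ← Matrix.toLin'_mul, hJ]
        simp
      simpa using this
    · ext ⟨x, hx⟩ : 1
      apply Subtype.ext
      have : (Matrix.toLin' I * Matrix.toLin' J) x = -((Matrix.toLin' J * Matrix.toLin' I) x) := by
        rw [Module.End.mul_eq_comp, ← Matrix.toLin'_mul, hIJ, Module.End.mul_eq_comp,
          ← Matrix.toLin'_mul]
        simp
      simpa using this

theorem trace_idem {a : Type*} [Fintype a] [DecidableEq a] (Q : Matrix a a ℝ) (hQ : Q * Q = Q) :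
    Q.trace = (finrank ℝ (LinearMap.range (Matrix.toLin' Q)) : ℝ) := by
  have h1 : IsIdempotentElem (Matrix.toLin' Q) := by
    change Matrix.toLin' Q * Matrix.toLin' Q = Matrix.toLin' Q
    rw [Module.End.mul_eq_comp, ← Matrix.toLin'_mul, hQ]
  have h2 := (LinearMap.isProj_range_iff_isIdempotentElem (Matrix.toLin' Q)).2 h1
  rw [← h2.trace, Matrix.trace_toLin'_eq]

theorem trace_anti {a : Type*} [Fintype a] [DecidableEq a] (F ζ ζ' : Matrix a a ℝ)
    (h1 : ζ * ζ' = 1) (h2 : ζ * F = -(F * ζ)) : F.trace = 0 := by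
  have h3 : ζ' * ζ = 1 := mul_eq_one_comm.mp h1
  have h4 : F.trace = -F.trace := by
    calc F.trace = (ζ' * (ζ * F)).trace := by rw [← mul_assoc, h3, one_mul]
      _ = -(ζ' * (F * ζ)).trace := by rw [h2, mul_neg, Matrix.trace_neg]
      _ = -((F * ζ) * ζ').trace := by rw [Matrix.trace_mul_comm]
      _ = -F.trace := by rw [mul_assoc, h1, mul_one]
  linarith

/-- The trace of the product of two commuting involutions which anticommute with an invertible
matrix. -/
theorem trace_prod {a : Type*} [Fintype a] [DecidableEq a] {c : ℕ} {S : Set (Matrix a a ℝ)}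
    (hS : CommCase c S) (F g ζ ζ' : Matrix a a ℝ) (hF : F * F = 1) (hg : g * g = 1)
    (hFg : g * F = F * g) (h1 : ζ * ζ' = 1) (h2 : ζ * F = -(F * ζ)) (h3 : ζ * g = -(g * ζ))
    (hFS : F ∈ S) (hgS : g ∈ S) :
    ∃ k : ℕ, c ∣ k ∧ (g * F).trace = 4 * (k : ℝ) - Fintype.card a := by
  set Q : Matrix a a ℝ := (1 / 4 : ℝ) • ((1 + F) * (1 + g)) with hQdef
  have hFg' : (1 + F) * (1 + g) = 1 + F + g + g * F := by
    rw [add_mul, mul_add, mul_add, one_mul, one_mul, mul_one, hFg]; abel
  have e1 : (1 + F) * (1 + F) = (2 : ℝ) • (1 + F) := by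
    rw [add_mul, mul_add, mul_add, one_mul, one_mul, mul_one, hF, two_smul]; abel
  have e2 : (1 + g) * (1 + g) = (2 : ℝ) • (1 + g) := by
    rw [add_mul, mul_add, mul_add, one_mul, one_mul, mul_one, hg, two_smul]; abel
  have e3 : (1 + g) * (1 + F) = (1 + F) * (1 + g) := by
    rw [add_mul, mul_add, mul_add, one_mul, one_mul, mul_one, hFg, hFg']
    rw [hFg]; abel
  have hQ : Q * Q = Q := by
    rw [hQdef, smul_mul_smul_comm]
    have : (1 + F) * (1 + g) * ((1 + F) * (1 + g)) = (4 : ℝ) • ((1 + F) * (1 + g)) := by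
      calc (1 + F) * (1 + g) * ((1 + F) * (1 + g))
          = (1 + F) * ((1 + g) * (1 + F)) * (1 + g) := by simp only [mul_assoc]
        _ = (1 + F) * ((1 + F) * (1 + g)) * (1 + g) := by rw [e3]
        _ = ((1 + F) * (1 + F)) * ((1 + g) * (1 + g)) := by simp only [mul_assoc]
        _ = (4 : ℝ) • ((1 + F) * (1 + g)) := by
          rw [e1, e2, smul_mul_smul_comm]; norm_num
    rw [this, smul_smul]
    norm_num
  have hS' : CommCase c {Q} := by
    rcases hS with h | ⟨h, I, hI, hc⟩ | ⟨h, I, J, hI, hJ, hIJ, hc⟩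
    · exact Or.inl h
    · refine Or.inr (Or.inl ⟨h, I, hI, ?_⟩)
      rintro X rfl
      have c1 := hc F hFS
      have c2 := hc g hgS
      rw [hQdef, hFg', mul_smul_comm, smul_mul_assoc]
      congr 1
      simp only [mul_add, add_mul, mul_one, one_mul, c1, c2]
      rw [← mul_assoc I g F, c2, mul_assoc g I F, c1, mul_assoc]
    · refine Or.inr (Or.inr ⟨h, I, J, hI, hJ, hIJ, ?_⟩)
      rintro X rfl
      have c1 := hc F hFS
      have c2 := hc g hgS
      rw [hQdef, hFg', mul_smul_comm, smul_mul_assoc, mul_smul_comm, smul_mul_assoc]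
      constructor
      · congr 1
        simp only [mul_add, add_mul, mul_one, one_mul, c1.1, c2.1]
        rw [← mul_assoc I g F, c2.1, mul_assoc g I F, c1.1, mul_assoc]
      · congr 1
        simp only [mul_add, add_mul, mul_one, one_mul, c1.2, c2.2]
        rw [← mul_assoc J g F, c2.2, mul_assoc g J F, c1.2, mul_assoc]
  refine ⟨_, dvd_range hS' Q rfl, ?_⟩
  have ht := trace_idem Q hQ
  rw [← ht, hQdef, hFg', Matrix.trace_smul, Matrix.trace_add, Matrix.trace_add, Matrix.trace_add,
    trace_anti F ζ ζ' h1 h2, trace_anti g ζ ζ' h1 h3, Matrix.trace_one, smul_eq_mul]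
  ring

end Pool.Agent.Helper10K9.Ig
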