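import Mathlib

/-!
# The Newton-Schulz iteration for the sign of an element of an algebra
-/

set_option autoImplicit false

open Filter Topology

namespace Pool.Agent.Helper10K9.Nw

section alg

variable {A : Type*} [Ring A] [Algebra ℝ A]

/-- The Newton-Schulz iteration `F_{j+1} = F_j (3 - F_j²) / 2`, `F_0 = L`. -/
noncomputable def nw (L : A) : ℕ → A
  | 0 => L
  | j + 1 => (1 / 2 : ℝ) • (nw L j * (3 - nw L j * nw L j))

@[simp] theorem nw_zero (L : A) : nw L 0 = L := rfl

theorem nw_succ (L : A) (j : ℕ) :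
    nw L (j + 1) = (1 / 2 : ℝ) • (nw L j * (3 - nw L j * nw L j)) := rfl

theorem nw_map {B : Type*} [Ring B] [Algebra ℝ B] (f : A →+* B) (hf : ∀ (r : ℝ) x, f (r • x) = r • f x)
    (L : A) (j : ℕ) : f (nw L j) = nw (f L) j := by
  induction j with
  | zero => rfl
  | succ j ih => rw [nw_succ, nw_succ, hf, map_mul, map_sub, map_mul, ih, map_ofNat]

theorem nw_commute {g L : A} (h : g * L = L * g) (j : ℕ) : g * nw L j = nw L j * g := by
  induction j with
  | zero => exact h
  | succ j ih =>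
    rw [nw_succ, mul_smul_comm, smul_mul_assoc]
    congr 1
    have h3 : g * (3 : A) = 3 * g := by
      have : Commute g ((3 : ℕ) : A) := Nat.commute_cast g 3
      simpa using this.eq
    have h2 : g * (nw L j * nw L j) = (nw L j * nw L j) * g := by
      rw [← mul_assoc, ih, mul_assoc, ih, mul_assoc]
    rw [← mul_assoc, ih, mul_assoc, mul_sub, h3, h2, ← sub_mul, ← mul_assoc]

theorem nw_anti {g L : A} (h : g * L = -(L * g)) (j : ℕ) : g * nw L j = -(nw L j * g) := by
  induction j with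
  | zero => exact h
  | succ j ih =>
    rw [nw_succ, mul_smul_comm, smul_mul_assoc, ← smul_neg]
    congr 1
    have h3 : g * (3 : A) = 3 * g := by
      have : Commute g ((3 : ℕ) : A) := Nat.commute_cast g 3
      simpa using this.eq
    have h2 : g * (nw L j * nw L j) = (nw L j * nw L j) * g := by
      rw [← mul_assoc, ih, neg_mul, mul_assoc, ih, mul_neg, neg_neg, mul_assoc]
    rw [← mul_assoc, ih, neg_mul, mul_assoc, mul_sub, h3, h2, ← sub_mul, ← mul_assoc]

/-- The error. -/
noncomputable def er (L : A) (j : ℕ) : A := 1 - nw L j * nw L j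

theorem nw_succ' (L : A) (j : ℕ) : nw L (j + 1) = nw L j + (1 / 2 : ℝ) • (nw L j * er L j) := by
  have h : (3 : A) - nw L j * nw L j = 2 + er L j := by
    rw [er]
    have : (3 : A) = 2 + 1 := by norm_num
    rw [this]; abel
  rw [nw_succ, h, mul_add, smul_add]
  congr 1
  have h2 : nw L j * 2 = (2 : ℝ) • nw L j := by
    rw [mul_two, two_smul]
  rw [h2, smul_smul]
  norm_num

theorem er_succ (L : A) (j : ℕ) :
    er L (j + 1) = (1 / 4 : ℝ) • ((3 : ℝ) • (er L j * er L j) + er L j * (er L j * er L j)) := by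
  have hsq : nw L j * nw L j = 1 - er L j := by rw [er]; abel
  have hc : er L j * nw L j = nw L j * er L j := by
    rw [er, sub_mul, mul_sub, one_mul, mul_one, mul_assoc]
  have h1 : nw L (j + 1) * nw L (j + 1) =
      nw L j * nw L j + (nw L j * nw L j) * er L j +
        (1 / 4 : ℝ) • ((nw L j * nw L j) * (er L j * er L j)) := by
    rw [nw_succ']
    set F := nw L j
    set e := er L j
    have e1 : F * e * F = F * F * e := by rw [mul_assoc, hc, mul_assoc]
    have e2 : F * e * (F * e) = F * F * (e * e) := by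
      rw [← mul_assoc, e1, mul_assoc (F * F)]
    rw [add_mul, mul_add, mul_add, mul_smul_comm, smul_mul_assoc, smul_mul_assoc, mul_smul_comm,
      smul_smul, e1, e2, ← mul_assoc F F e]
    have : (1 / 2 : ℝ) • (F * F * e) + ((1 / 2 : ℝ) • (F * F * e)
        + (1 / 2 * (1 / 2) : ℝ) • (F * F * (e * e))) =
        F * F * e + (1 / 4 : ℝ) • (F * F * (e * e)) := by
      rw [← add_assoc, ← add_smul]
      norm_num
    rw [add_assoc, this, add_assoc]
  rw [er, h1, hsq]
  set e := er L j
  have e3 : (1 - e) * e = e - e * e := by rw [sub_mul, one_mul]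
  have e4 : (1 - e) * (e * e) = e * e - e * (e * e) := by rw [sub_mul, one_mul]
  rw [e3, e4, smul_add, smul_sub, smul_smul]
  have : (1 / 4 * 3 : ℝ) • (e * e) = e * e - (1 / 4 : ℝ) • (e * e) := by
    rw [eq_sub_iff_add_eq, ← add_smul]
    norm_num
  rw [this]
  abel

end alg

section norm

variable {A : Type*} [NormedRing A] [NormedAlgebra ℝ A]

theorem er_norm {L : A} {θ : ℝ} (hθ : θ ≤ 1) (h : ‖er L 0‖ ≤ θ) (j : ℕ) :
    ‖er L j‖ ≤ θ ^ (2 ^ j) := by
  induction j with
  | zero => simpa using h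
  | succ j ih =>
    have h0 : 0 ≤ θ := le_trans (norm_nonneg _) h
    have hp : θ ^ (2 ^ j) ≤ 1 := pow_le_one₀ h0 hθ
    have hp0 : 0 ≤ θ ^ (2 ^ j) := pow_nonneg h0 _
    have he1 : ‖er L j‖ ≤ 1 := ih.trans hp
    have h1 : ‖er L j * er L j‖ ≤ ‖er L j‖ * ‖er L j‖ := norm_mul_le _ _
    have h2 : ‖er L j * (er L j * er L j)‖ ≤ ‖er L j‖ * ‖er L j‖ := by
      calc ‖er L j * (er L j * er L j)‖ ≤ ‖er L j‖ * ‖er L j * er L j‖ := norm_mul_le _ _
        _ ≤ 1 * (‖er L j‖ * ‖er L j‖) := by
          apply mul_le_mul he1 h1 (norm_nonneg _) zero_le_one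
        _ = _ := one_mul _
    have h3 : ‖er L (j + 1)‖ ≤ ‖er L j‖ * ‖er L j‖ := by
      rw [er_succ, norm_smul]
      calc ‖(1 / 4 : ℝ)‖ * ‖(3 : ℝ) • (er L j * er L j) + er L j * (er L j * er L j)‖
          ≤ (1 / 4) * (3 * (‖er L j‖ * ‖er L j‖) + ‖er L j‖ * ‖er L j‖) := by
            rw [Real.norm_of_nonneg (by norm_num : (0 : ℝ) ≤ 1 / 4)]
            apply mul_le_mul_of_nonneg_left _ (by norm_num)
            refine (norm_add_le _ _).trans (add_le_add ?_ h2)
            rw [norm_smul, Real.norm_of_nonneg (by norm_num : (0 : ℝ) ≤ 3)]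
            exact mul_le_mul_of_nonneg_left h1 (by norm_num)
        _ = ‖er L j‖ * ‖er L j‖ := by ring
    calc ‖er L (j + 1)‖ ≤ ‖er L j‖ * ‖er L j‖ := h3
      _ ≤ θ ^ (2 ^ j) * θ ^ (2 ^ j) := mul_le_mul ih ih (norm_nonneg _) hp0
      _ = θ ^ (2 ^ (j + 1)) := by rw [← pow_add, pow_succ, mul_two]

theorem pow_two_pow_le {θ : ℝ} (h0 : 0 ≤ θ) (h1 : θ ≤ 1) (j : ℕ) : θ ^ (2 ^ j) ≤ θ ^ j :=
  pow_le_pow_of_le_one h0 h1 Nat.lt_two_pow_self.le

/-- If the iterates stay bounded, they converge to an involution. -/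
theorem nw_lim [CompleteSpace A] {L : A} {θ C : ℝ} (hθ : θ < 1) (h : ‖er L 0‖ ≤ θ)
    (hC : ∀ j, ‖nw L j‖ ≤ C) :
    ∃ F : A, Tendsto (nw L) atTop (𝓝 F) ∧ F * F = 1 := by
  have h0 : 0 ≤ θ := le_trans (norm_nonneg _) h
  have hC0 : 0 ≤ C := le_trans (norm_nonneg _) (hC 0)
  have hd : ∀ j, dist (nw L j) (nw L (j + 1)) ≤ C * θ ^ j := by
    intro j
    rw [dist_comm, dist_eq_norm, nw_succ', add_sub_cancel_left, norm_smul,
      Real.norm_of_nonneg (by norm_num : (0 : ℝ) ≤ 1 / 2)]
    calc 1 / 2 * ‖nw L j * er L j‖ ≤ 1 / 2 * (C * θ ^ j) := by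
          apply mul_le_mul_of_nonneg_left _ (by norm_num)
          refine (norm_mul_le _ _).trans ?_
          exact mul_le_mul (hC j) ((er_norm hθ.le h j).trans (pow_two_pow_le h0 hθ.le j))
            (norm_nonneg _) hC0
      _ ≤ C * θ ^ j := by
        have : 0 ≤ C * θ ^ j := by positivity
        linarith
  obtain ⟨F, hF⟩ := cauchySeq_tendsto_of_complete (cauchySeq_of_le_geometric θ C hθ hd)
  refine ⟨F, hF, ?_⟩
  have h1 : Tendsto (fun j => er L j) atTop (𝓝 (1 - F * F)) :=
    tendsto_const_nhds.sub (hF.mul hF)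
  have h2 : Tendsto (fun j => er L j) atTop (𝓝 0) := by
    rw [tendsto_zero_iff_norm_tendsto_zero]
    refine squeeze_zero (fun _ => norm_nonneg _)
      (fun j => (er_norm hθ.le h j).trans (pow_two_pow_le h0 hθ.le j)) ?_
    exact tendsto_pow_atTop_nhds_zero_of_lt_one h0 hθ
  have h3 := tendsto_nhds_unique h1 h2
  exact (sub_eq_zero.mp h3).symm

end norm

/-- The scalar iteration converges to the sign. -/
theorem nw_real_lim {a : ℝ} (h0 : a ≠ 0) (h1 : |a| ≤ 1) :
    Tendsto (nw a) atTop (𝓝 (SignType.sign a : ℝ)) := by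
  have hpos : ∀ j, 0 < nw a j * a ∧ |nw a j| ≤ 1 := by
    intro j
    induction j with
    | zero => exact ⟨by simpa using mul_self_pos.mpr h0, h1⟩
    | succ j ih =>
      obtain ⟨i1, i2⟩ := ih
      have i3 := abs_le.mp i2
      set x := nw a j with hx
      have hs : nw a (j + 1) = 1 / 2 * (x * (3 - x * x)) := by rw [nw_succ, smul_eq_mul]
      have hxx : x * x ≤ 1 := by nlinarith
      rw [hs]
      constructor
      · have : 1 / 2 * (x * (3 - x * x)) * a = (x * a) * ((3 - x * x) / 2) := by ring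
        rw [this]
        exact mul_pos i1 (by linarith)
      · rw [abs_le]
        constructor
        · nlinarith [mul_nonneg (sub_nonneg.mpr i3.2) (mul_self_nonneg (x + 1)),
            mul_nonneg (by linarith : (0 : ℝ) ≤ x + 1) (mul_self_nonneg (x - 1)),
            mul_nonneg (by linarith : (0 : ℝ) ≤ 2 - x) (mul_self_nonneg (x + 1))]
        · nlinarith [mul_nonneg (by linarith : (0 : ℝ) ≤ 2 + x) (mul_self_nonneg (x - 1))]
  have her : ‖er a 0‖ ≤ 1 - a * a := by
    rw [er, nw_zero, Real.norm_eq_abs, abs_of_nonneg]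
    have := abs_le.mp h1
    nlinarith
  have ha2 : 0 < a * a := mul_self_pos.mpr h0
  obtain ⟨F, hF, hFF⟩ := nw_lim (C := 1) (by linarith) her (fun j => by
    rw [Real.norm_eq_abs]; exact (hpos j).2)
  have hFa : 0 ≤ F * a := ge_of_tendsto' (hF.mul_const a) (fun j => (hpos j).1.le)
  have hF1 : F = 1 ∨ F = -1 := by
    have : (F - 1) * (F + 1) = 0 := by ring_nf; nlinarith
    rcases mul_eq_zero.mp this with h | h
    · left; linarith
    · right; linarith
  rcases lt_or_gt_of_ne h0 with hneg | hp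
  · have : F = -1 := by
      rcases hF1 with h | h
      · rw [h] at hFa; linarith
      · exact h
    rw [sign_neg hneg]
    simpa [this] using hF
  · have : F = 1 := by
      rcases hF1 with h | h
      · exact h
      · rw [h] at hFa; linarith
    rw [sign_pos hp]
    simpa [this] using hF

end Pool.Agent.Helper10K9.Nw
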