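import Mathlib
import Pool.Agent.Helper10K9.Box
import Pool.Agent.Helper10K9.Newton

/-!
# The trace formula for the reflection
-/

set_option autoImplicit false

open Matrix Pool.Agent.Helper10K9.FL Pool.Agent.Helper10K9.Bo Pool.Agent.Helper10K9.Nw

namespace Pool.Agent.Helper10K9.Tr

variable {q : ℕ} {e : Type} [Fintype e] [DecidableEq e] {R : ℕ}

/-- `T` agrees with the convolution by `k` in the core of the box. -/
structure Agree (ρ B : ℤ) (T : Matrix (Ix q R e) (Ix q R e) ℝ) (k : GA q e) : Prop where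
  band : ∀ x y, blk T x y ≠ 0 → Bd B (x.1 - y.1)
  kband : ∀ z, k.coeff z ≠ 0 → Bd B z
  core : ∀ x y : Bx q R, Bd ρ x.1 → blk T x y = k.coeff (x.1 - y.1)

theorem Agree.mono {ρ ρ' B B' : ℤ} {T : Matrix (Ix q R e) (Ix q R e) ℝ} {k : GA q e}
    (h : Agree ρ B T k) (h1 : ρ' ≤ ρ) (h2 : B ≤ B') : Agree ρ' B' T k :=
  ⟨fun x y hxy => (h.band x y hxy).mono h2, fun z hz => (h.kband z hz).mono h2,
    fun x y hx => h.core x y (hx.mono h1)⟩

theorem Agree.sub {ρ B : ℤ} {T U : Matrix (Ix q R e) (Ix q R e) ℝ} {k l : GA q e}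
    (h : Agree ρ B T k) (h' : Agree ρ B U l) : Agree ρ B (T - U) (k - l) := by
  refine ⟨fun x y hxy => ?_, fun z hz => ?_, fun x y hx => ?_⟩
  · rw [blk_sub] at hxy
    by_cases h1 : blk T x y = 0
    · apply h'.band
      intro h2
      apply hxy
      rw [h1, h2, sub_zero]
    · exact h.band x y h1
  · by_cases h1 : k.coeff z = 0
    · apply h'.kband
      intro h2
      apply hz
      rw [AddMonoidAlgebra.coeff_sub, Finsupp.sub_apply, h1, h2, sub_zero]
    · exact h.kband z h1
  · rw [blk_sub, AddMonoidAlgebra.coeff_sub, Finsupp.sub_apply, h.core x y hx, h'.core x y hx]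

theorem Agree.smul {ρ B : ℤ} {T : Matrix (Ix q R e) (Ix q R e) ℝ} {k : GA q e}
    (h : Agree ρ B T k) (r : ℝ) : Agree ρ B (r • T) (r • k) := by
  refine ⟨fun x y hxy => ?_, fun z hz => ?_, fun x y hx => ?_⟩
  · apply h.band
    intro h1
    apply hxy
    rw [blk_smul, h1, smul_zero]
  · apply h.kband
    intro h1
    apply hz
    rw [AddMonoidAlgebra.coeff_smul, Finsupp.smul_apply, h1, smul_zero]
  · rw [blk_smul, AddMonoidAlgebra.coeff_smul, Finsupp.smul_apply, h.core x y hx]

theorem Agree.one (ρ : ℤ) : Agree ρ 0 (1 : Matrix (Ix q R e) (Ix q R e) ℝ) (1 : GA q e) := by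
  refine ⟨fun x y hxy => ?_, fun z hz => ?_, fun x y _ => ?_⟩
  · rw [blk_one] at hxy
    have h : x = y := by
      by_contra hc
      apply hxy
      rw [if_neg hc]
    subst h
    intro i
    simp
  · rw [AddMonoidAlgebra.one_def, AddMonoidAlgebra.coeff_single, Finsupp.single_apply] at hz
    have h : 0 = z := by
      by_contra hc
      apply hz
      rw [if_neg hc]
    subst h
    intro i
    simp
  · rw [blk_one, AddMonoidAlgebra.one_def, AddMonoidAlgebra.coeff_single, Finsupp.single_apply]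
    by_cases h : x = y
    · subst h
      simp
    · rw [if_neg h, if_neg]
      intro h'
      apply h
      apply Subtype.ext
      exact (sub_eq_zero.mp h'.symm)

theorem Agree.mul {ρ ρ₁ ρ₂ B₁ B₂ : ℤ} {T U : Matrix (Ix q R e) (Ix q R e) ℝ} {k l : GA q e}
    (h : Agree ρ₁ B₁ T k) (h' : Agree ρ₂ B₂ U l) (h1 : ρ ≤ ρ₁) (h2 : ρ + B₁ ≤ ρ₂)
    (h3 : ρ + B₁ ≤ R) : Agree ρ (B₁ + B₂) (T * U) (k * l) := by
  classical
  refine ⟨fun x y hxy => ?_, fun z hz => ?_, fun x y hx => ?_⟩
  · rw [blk_mul] at hxy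
    obtain ⟨z, _, hz⟩ := Finset.exists_ne_zero_of_sum_ne_zero hxy
    have a1 := h.band x z (fun hc => hz (by rw [hc, zero_mul]))
    have a2 := h'.band z y (fun hc => hz (by rw [hc, mul_zero]))
    have a3 := a1.add a2
    rwa [sub_add_sub_cancel] at a3
  · rw [mul_coeff k l z subset_rfl] at hz
    obtain ⟨u, _, hu⟩ := Finset.exists_ne_zero_of_sum_ne_zero hz
    have a1 := h.kband u (fun hc => hu (by rw [hc, zero_mul]))
    have a2 := h'.kband (z - u) (fun hc => hu (by rw [hc, mul_zero]))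
    have a3 := a1.add a2
    rwa [add_sub_cancel] at a3
  · rw [blk_mul]
    have e1 : ∀ z : Bx q R, blk T x z * blk U z y =
        k.coeff (x.1 - z.1) * l.coeff (z.1 - y.1) := by
      intro z
      rw [h.core x z (hx.mono h1)]
      by_cases hk : k.coeff (x.1 - z.1) = 0
      · rw [hk, zero_mul, zero_mul]
      · rw [h'.core z y]
        have a1 := (hx.sub (h.kband _ hk)).mono h2
        rwa [sub_sub_cancel] at a1
    simp only [e1]
    have e2 : k.coeff.support ⊆ (Finset.Icc (fun _ : Fin q => -(R : ℤ)) (fun _ => (R : ℤ))).image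
        (fun z => x.1 - z) := by
      intro u hu
      rw [Finset.mem_image]
      refine ⟨x.1 - u, ?_, by abel⟩
      rw [mem_box]
      exact (hx.sub (h.kband u (Finsupp.mem_support_iff.mp hu))).mono h3
    rw [mul_coeff k l _ e2, Finset.sum_image (by intro a _ b _ hab; simpa using hab)]
    rw [← Finset.sum_coe_sort (Finset.Icc (fun _ : Fin q => -(R : ℤ)) (fun _ => (R : ℤ)))
      (fun z => k.coeff (x.1 - z) * l.coeff (x.1 - y.1 - (x.1 - z)))]
    refine Finset.sum_congr rfl fun z _ => ?_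
    have e3 : x.1 - y.1 - (x.1 - z.1) = z.1 - y.1 := by abel
    rw [e3]

theorem three_eq {A : Type*} [Ring A] [Algebra ℝ A] : (3 : A) = (3 : ℝ) • (1 : A) := by
  rw [Algebra.smul_def, mul_one, map_ofNat]

theorem agree_nw {R₀ β : ℤ} (hβ : 0 ≤ β) (hR : R₀ ≤ R) {L : Matrix (Ix q R e) (Ix q R e) ℝ}
    {K : GA q e} (h : Agree (R₀ - β) β L K) (j : ℕ) :
    Agree (R₀ - 3 ^ j * β) (3 ^ j * β) (nw L j) (nw K j) := by
  induction j with
  | zero => simpa using h
  | succ j ih =>
    rw [nw_succ, nw_succ, three_eq (A := Matrix (Ix q R e) (Ix q R e) ℝ),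
      three_eq (A := GA q e)]
    have hB : 0 ≤ 3 ^ j * β := by positivity
    have h1 : Agree (R₀ - 3 ^ j * β - 3 ^ j * β) (3 ^ j * β + 3 ^ j * β) (nw L j * nw L j)
        (nw K j * nw K j) := ih.mul ih (by linarith) (by linarith) (by linarith)
    have h2 : Agree (R₀ - 3 ^ j * β - 3 ^ j * β) (3 ^ j * β + 3 ^ j * β)
        ((3 : ℝ) • (1 : Matrix (Ix q R e) (Ix q R e) ℝ)) ((3 : ℝ) • (1 : GA q e)) :=
      ((Agree.one _).smul 3).mono le_rfl (by linarith)
    have h3 := ih.mul (ρ := R₀ - 3 ^ (j + 1) * β) (h2.sub h1) (by rw [pow_succ]; linarith)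
      (by rw [pow_succ]; linarith) (by rw [pow_succ]; linarith)
    refine (h3.smul (1 / 2)).mono le_rfl ?_
    rw [pow_succ]; linarith

/-- The real characters of the lattice. -/
noncomputable def chR (ε : Fin q → ℤˣ) : Multiplicative (Fin q → ℤ) →* ℝ where
  toFun z := ∏ i, (((ε i ^ (z.toAdd i) : ℤˣ) : ℤ) : ℝ)
  map_one' := by simp
  map_mul' a b := by
    rw [← Finset.prod_mul_distrib]
    refine Finset.prod_congr rfl fun i _ => ?_
    rw [toAdd_mul, Pi.add_apply, _root_.zpow_add]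
    push_cast; rfl

theorem chR_apply (ε : Fin q → ℤˣ) (z : Fin q → ℤ) :
    chR ε (Multiplicative.ofAdd z) = ∏ i, (((ε i ^ (z i) : ℤˣ) : ℤ) : ℝ) := rfl

theorem sum_chR (z : Fin q → ℤ) :
    ∑ ε, chR ε (Multiplicative.ofAdd z) = if ∀ i, Even (z i) then (2 : ℝ) ^ q else 0 := by
  classical
  simp only [chR_apply]
  have h := (Finset.prod_univ_sum (fun _ : Fin q => (Finset.univ : Finset ℤˣ))
    (fun i u => (((u ^ (z i) : ℤˣ) : ℤ) : ℝ))).symm
  rw [Fintype.piFinset_univ] at h
  rw [h]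
  have h1 : ∀ i, ∑ u : ℤˣ, (((u ^ (z i) : ℤˣ) : ℤ) : ℝ) = if Even (z i) then 2 else 0 := by
    intro i
    rw [UnitsInt.univ, Finset.sum_pair (by decide)]
    by_cases hz : Even (z i)
    · rw [if_pos hz, hz.neg_one_zpow, _root_.one_zpow]; norm_num
    · rw [if_neg hz, (Int.not_even_iff_odd.mp hz).neg_one_zpow, _root_.one_zpow]; norm_num
  simp only [h1]
  split_ifs with hz
  · rw [Finset.prod_congr rfl fun i _ => if_pos (hz i)]
    simp
  · push Not at hz
    obtain ⟨i, hi⟩ := hz
    exact Finset.prod_eq_zero (Finset.mem_univ i) (if_neg hi)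

theorem trace_ev (g0 : Matrix e e ℝ) (k : GA q e) :
    ∑ ε : Fin q → ℤˣ, (g0 * ev (chR ε) k).trace =
      2 ^ q * ∑ z ∈ k.coeff.support.filter (fun z => ∀ i, Even (z i)),
        (g0 * k.coeff z).trace := by
  classical
  have h1 : ∀ ε : Fin q → ℤˣ, (g0 * ev (chR ε) k).trace =
      ∑ z ∈ k.coeff.support, chR ε (Multiplicative.ofAdd z) * (g0 * k.coeff z).trace := by
    intro ε
    have h2 : ev (chR ε) k = ∑ z ∈ k.coeff.support,
        chR ε (Multiplicative.ofAdd z) • k.coeff z := by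
      ext i j
      rw [ev_apply, Matrix.sum_apply, Finsupp.sum]
      refine Finset.sum_congr rfl fun z _ => ?_
      rw [Matrix.smul_apply, smul_eq_mul, mul_comm]
      rfl
    rw [h2, Finset.mul_sum, Matrix.trace_sum]
    refine Finset.sum_congr rfl fun z _ => ?_
    rw [Matrix.mul_smul, Matrix.trace_smul, smul_eq_mul]
  simp only [h1]
  rw [Finset.sum_comm]
  simp only [← Finset.sum_mul, sum_chR]
  rw [Finset.mul_sum, Finset.sum_filter]
  refine Finset.sum_congr rfl fun z _ => ?_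
  split_ifs <;> simp

theorem trace_Rf (g0 : Matrix e e ℝ) {T : Matrix (Ix q R e) (Ix q R e) ℝ} {k : GA q e}
    {ρ B : ℤ} (h : Agree ρ B T k) (h1 : B ≤ 2 * ρ) (h2 : B ≤ 2 * R) :
    (Rf R q g0 * T).trace = (2 ^ q)⁻¹ * ∑ ε : Fin q → ℤˣ, (g0 * ev (chR ε) k).trace := by
  classical
  rw [trace_ev, ← mul_assoc, inv_mul_cancel₀ (by positivity), one_mul]
  have e1 : (Rf R q g0 * T).trace = ∑ x : Bx q R, (g0 * blk T (ng x) x).trace := by
    rw [Matrix.trace, Fintype.sum_prod_type]
    refine Finset.sum_congr rfl fun x _ => ?_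
    rw [← Rf_mul_blk, Matrix.trace]
    rfl
  have e2 : ∀ x : Bx q R, blk T (ng x) x = k.coeff (-x.1 - x.1) := by
    intro x
    by_cases hx : Bd ρ x.1
    · have := h.core (ng x) x (by rw [ng_val]; exact hx.neg)
      rwa [ng_val] at this
    · have hb : ¬ Bd B (-x.1 - x.1) := by
        intro hb
        apply hx
        intro i
        have := hb i
        have h3 : (-x.1 - x.1) i = -(2 * x.1 i) := by
          simp only [Pi.sub_apply, Pi.neg_apply]; ring
        rw [h3, abs_neg, abs_mul] at this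
        have h4 : |(2 : ℤ)| = 2 := rfl
        rw [h4] at this
        linarith
      have e3 : blk T (ng x) x = 0 := by
        by_contra hc
        exact hb (h.band _ _ hc)
      have e4 : k.coeff (-x.1 - x.1) = 0 := by
        by_contra hc
        exact hb (h.kband _ hc)
      rw [e3, e4]
  rw [e1]
  simp only [e2]
  rw [Finset.sum_coe_sort (Finset.Icc (fun _ : Fin q => -(R : ℤ)) (fun _ => (R : ℤ)))
      (fun x => (g0 * k.coeff (-x - x)).trace)]
  have hinj : Set.InjOn (fun x : Fin q → ℤ => -x - x)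
      (Finset.Icc (fun _ : Fin q => -(R : ℤ)) (fun _ => (R : ℤ)) : Finset (Fin q → ℤ)) := by
    intro a _ b _ hab
    funext i
    have := congrFun hab i
    simp only [Pi.sub_apply, Pi.neg_apply] at this
    linarith
  rw [← Finset.sum_image (f := fun z => (g0 * k.coeff z).trace) hinj]
  symm
  apply Finset.sum_subset
  · intro z hz
    rw [Finset.mem_filter, Finsupp.mem_support_iff] at hz
    obtain ⟨hz1, hz2⟩ := hz
    rw [Finset.mem_image]
    choose w hw using hz2
    refine ⟨-w, ?_, ?_⟩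
    · rw [mem_box]
      apply Bd.neg
      intro i
      have h3 := h.kband z hz1 i
      rw [hw i, ← two_mul, abs_mul] at h3
      have h4 : |(2 : ℤ)| = 2 := rfl
      rw [h4] at h3
      linarith
    · funext i
      simp only [Pi.sub_apply, Pi.neg_apply]
      rw [hw i]; ring
  · intro z hz hz'
    rw [Finset.mem_image] at hz
    obtain ⟨x, _, rfl⟩ := hz
    rw [Finset.mem_filter, not_and] at hz'
    have : k.coeff (-x - x) = 0 := by
      by_contra hc
      apply hz' (Finsupp.mem_support_iff.mpr hc)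
      intro i
      exact ⟨-x i, by simp only [Pi.sub_apply, Pi.neg_apply]; ring⟩
    rw [this]; simp

theorem nw_smul_invol {A : Type*} [Ring A] [Algebra ℝ A] {W : A} (hW : W * W = 1) (a : ℝ)
    (j : ℕ) : nw (a • W) j = (nw a j) • W := by
  induction j with
  | zero => rfl
  | succ j ih =>
    rw [nw_succ, ih, nw_succ, three_eq, smul_mul_smul_comm, hW, ← sub_smul, smul_mul_smul_comm,
      mul_one, smul_smul, smul_eq_mul]

theorem ev_nw (ε : Fin q → ℤˣ) (K : GA q e) (j : ℕ) :
    ev (chR ε) (nw K j) = nw (ev (chR ε) K) j := by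
  apply nw_map
  intro r x
  rw [ev_smul]; rfl

end Pool.Agent.Helper10K9.Tr
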