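import Mathlib
import Pool.Agent.Helper10K9.Trace

/-!
# Construction of the kernel
-/

set_option autoImplicit false

open scoped Kronecker ComplexConjugate
open Matrix UnitAddTorus Filter Topology Pool.Agent.Helper10K9.FL Pool.Agent.Helper10K9.Bo
  Pool.Agent.Helper10K9.Tr

namespace Pool.Agent.Helper10K9.Ke

variable {q N : ℕ} {e : Type} [Fintype e] [DecidableEq e]

section characters

theorem norm_mF (z : Fin q → ℤ) (t : UnitAddTorus (Fin q)) : ‖mFourier z t‖ = 1 := by
  have h1 : mFourier z t * conj (mFourier z t) = 1 := by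
    rw [← mFourier_neg, ← mFourier_add, add_neg_cancel, mFourier_zero]; rfl
  rw [Complex.mul_conj, Complex.normSq_eq_norm_sq] at h1
  have h2 : ‖mFourier z t‖ ^ 2 = 1 := by exact_mod_cast h1
  nlinarith [norm_nonneg (mFourier z t)]

theorem mF_neg (z : Fin q → ℤ) (t : UnitAddTorus (Fin q)) :
    mFourier z (-t) = conj (mFourier z t) := by
  rw [← mFourier_neg]
  simp only [mFourier, ContinuousMap.coe_mk, fourier_apply]
  refine Finset.prod_congr rfl fun i _ => ?_
  rw [Pi.neg_apply, Pi.neg_apply, smul_neg, neg_smul]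

/-- The cosine of a coordinate. -/
noncomputable def cs (t : UnitAddTorus (Fin q)) (j : Fin q) : ℝ := (mFourier (Pi.single j 1) t).re

/-- The sine of a coordinate. -/
noncomputable def sn (t : UnitAddTorus (Fin q)) (j : Fin q) : ℝ := (mFourier (Pi.single j 1) t).im

theorem cs_sn (t : UnitAddTorus (Fin q)) (j : Fin q) : cs t j ^ 2 + sn t j ^ 2 = 1 := by
  have h := norm_mF (Pi.single j 1) t
  have h2 : Complex.normSq (mFourier (Pi.single j 1) t) = 1 := by
    rw [Complex.normSq_eq_norm_sq, h]; norm_num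
  rw [Complex.normSq_apply] at h2
  rw [cs, sn]
  nlinarith

theorem sn_neg (t : UnitAddTorus (Fin q)) (j : Fin q) : sn (-t) j = -sn t j := by
  rw [sn, mF_neg, Complex.conj_im, sn]

theorem sn_cont (j : Fin q) : Continuous fun t : UnitAddTorus (Fin q) => sn t j :=
  Complex.continuous_im.comp (mFourier _).continuous

theorem cs_cont (j : Fin q) : Continuous fun t : UnitAddTorus (Fin q) => cs t j :=
  Complex.continuous_re.comp (mFourier _).continuous

/-- The value of the scalar part. -/
noncomputable def alT (t : UnitAddTorus (Fin q)) : ℝ := ∑ j, cs t j - ((q : ℝ) - 1)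

theorem sn_ne_of_alT {t : UnitAddTorus (Fin q)} (h : alT t = 0) : ∃ j, sn t j ≠ 0 := by
  by_contra hc
  push Not at hc
  have h1 : ∀ j, ∃ m : ℤ, cs t j = 2 * m + 1 := by
    intro j
    have h2 := cs_sn t j
    rw [hc j] at h2
    have h3 : (cs t j - 1) * (cs t j + 1) = 0 := by nlinarith
    rcases mul_eq_zero.mp h3 with h4 | h4
    · exact ⟨0, by push_cast; linarith⟩
    · exact ⟨-1, by push_cast; linarith⟩
  choose m hm using h1
  rw [alT] at h
  simp only [hm] at h
  rw [Finset.sum_add_distrib, ← Finset.mul_sum] at h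
  simp only [Finset.sum_const, Finset.card_univ, Fintype.card_fin, nsmul_eq_mul, mul_one] at h
  have h5 : (2 : ℝ) * ((∑ j, m j : ℤ) : ℝ) = ((-1 : ℤ) : ℝ) := by
    push_cast
    linarith
  have h6 : (2 : ℤ) * (∑ j, m j : ℤ) = -1 := by exact_mod_cast h5
  omega

end characters

section cone

/-- The homogeneous extension of a function on the sphere. -/
noncomputable def HH (A : EuclideanSpace ℝ (Fin q) → Matrix (Fin N) (Fin N) ℝ)
    (x : EuclideanSpace ℝ (Fin q)) : Matrix (Fin N) (Fin N) ℝ := ‖x‖ • A (‖x‖⁻¹ • x)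

theorem HH_cont {A : EuclideanSpace ℝ (Fin q) → Matrix (Fin N) (Fin N) ℝ}
    (hA : ContinuousOn A (Metric.sphere 0 1)) : Continuous (HH A) := by
  rw [continuous_iff_continuousAt]
  intro x
  by_cases hx : x = 0
  · subst hx
    have hb : ∀ i j, ∃ C, ∀ y ∈ Metric.sphere (0 : EuclideanSpace ℝ (Fin q)) 1, ‖A y i j‖ ≤ C := by
      intro i j
      apply (isCompact_sphere (0 : EuclideanSpace ℝ (Fin q)) 1).exists_bound_of_continuousOn
      exact (continuous_apply_apply i j).comp_continuousOn hA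
    have h0 : HH A 0 = 0 := by rw [HH, norm_zero, zero_smul]
    rw [ContinuousAt, h0]
    refine tendsto_pi_nhds.mpr fun i => tendsto_pi_nhds.mpr fun j => ?_
    obtain ⟨C, hC⟩ := hb i j
    have h1 : Tendsto (fun y : EuclideanSpace ℝ (Fin q) => ‖y‖ * C) (𝓝 0) (𝓝 0) := by
      have : Tendsto (fun y : EuclideanSpace ℝ (Fin q) => ‖y‖ * C) (𝓝 0) (𝓝 (‖(0 : EuclideanSpace ℝ (Fin q))‖ * C)) :=
        (continuous_norm.mul continuous_const).tendsto _
      rwa [norm_zero, zero_mul] at this
    refine squeeze_zero_norm (fun y => ?_) h1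
    rw [HH, Matrix.smul_apply, smul_eq_mul, norm_mul, norm_norm]
    by_cases hy : y = 0
    · rw [hy, norm_zero, zero_mul, zero_mul]
    · apply mul_le_mul_of_nonneg_left _ (norm_nonneg _)
      apply hC
      rw [mem_sphere_zero_iff_norm, norm_smul, norm_inv, norm_norm,
        inv_mul_cancel₀ (norm_ne_zero_iff.mpr hy)]
  · have h1 : ContinuousOn (fun y : EuclideanSpace ℝ (Fin q) => ‖y‖⁻¹ • y) {y | y ≠ 0} := by
      have h0 : ContinuousOn (fun y : EuclideanSpace ℝ (Fin q) => ‖y‖⁻¹) {y | y ≠ 0} :=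
        continuous_norm.continuousOn.inv₀ fun y hy => norm_ne_zero_iff.mpr hy
      exact h0.smul (continuousOn_id' _)
    have h2 : ContinuousOn (fun y => A (‖y‖⁻¹ • y)) {y | y ≠ 0} := by
      apply hA.comp h1
      intro y hy
      rw [mem_sphere_zero_iff_norm, norm_smul, norm_inv, norm_norm,
        inv_mul_cancel₀ (norm_ne_zero_iff.mpr hy)]
    have h3 : ContinuousOn (HH A) {y | y ≠ 0} := continuous_norm.continuousOn.smul h2
    exact h3.continuousAt (isOpen_ne.mem_nhds hx)

theorem HH_neg {A : EuclideanSpace ℝ (Fin q) → Matrix (Fin N) (Fin N) ℝ}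
    {w : Matrix (Fin N) (Fin N) ℝ} (hA : ∀ x ∈ Metric.sphere (0 : EuclideanSpace ℝ (Fin q)) 1,
      A (-x) = A x * w) (x : EuclideanSpace ℝ (Fin q)) : HH A (-x) = HH A x * w := by
  by_cases hx : x = 0
  · rw [hx, neg_zero, HH, norm_zero, zero_smul, zero_mul]
  · rw [HH, HH, norm_neg, smul_neg, hA, smul_mul_assoc]
    rw [mem_sphere_zero_iff_norm, norm_smul, norm_inv, norm_norm,
      inv_mul_cancel₀ (norm_ne_zero_iff.mpr hx)]

theorem HH_det {A : EuclideanSpace ℝ (Fin q) → Matrix (Fin N) (Fin N) ℝ}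
    (hA : ∀ x ∈ Metric.sphere (0 : EuclideanSpace ℝ (Fin q)) 1, (A x).det ≠ 0)
    {x : EuclideanSpace ℝ (Fin q)} (hx : x ≠ 0) : (HH A x).det ≠ 0 := by
  rw [HH, Matrix.det_smul]
  apply mul_ne_zero (pow_ne_zero _ (norm_ne_zero_iff.mpr hx))
  apply hA
  rw [mem_sphere_zero_iff_norm, norm_smul, norm_inv, norm_norm,
    inv_mul_cancel₀ (norm_ne_zero_iff.mpr hx)]

end cone

section kernels

/-- Reflection of kernels. -/
noncomputable def rf : GA q e →+* GA q e :=
  AddMonoidAlgebra.mapDomainRingHom (Matrix e e ℝ) (negAddMonoidHom : (Fin q → ℤ) →+ (Fin q → ℤ))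

theorem rf_single (z : Fin q → ℤ) (a : Matrix e e ℝ) :
    rf (AddMonoidAlgebra.single z a) = AddMonoidAlgebra.single (-z) a := by
  simp [rf]

theorem rf_coeff (f : GA q e) (z : Fin q → ℤ) : (rf f).coeff z = f.coeff (-z) := by
  have h : (rf f).coeff (-(-z)) = f.coeff (-z) := by
    have := Finsupp.mapDomain_apply (f := (negAddMonoidHom : (Fin q → ℤ) →+ (Fin q → ℤ)))
      neg_injective f.coeff (-z)
    exact this
  rwa [neg_neg] at h

theorem rf_rf (f : GA q e) : rf (rf f) = f := by
  apply AddMonoidAlgebra.ext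
  ext z : 1
  rw [rf_coeff, rf_coeff, neg_neg]

theorem ev_eq_sum {S : Type} [CommRing S] [Algebra ℝ S] (χ : Multiplicative (Fin q → ℤ) →* S)
    (f : GA q e) {s : Finset (Fin q → ℤ)} (hs : f.coeff.support ⊆ s) (i j : e) :
    ev χ f i j = ∑ z ∈ s, algebraMap ℝ S (f.coeff z i j) * χ (Multiplicative.ofAdd z) := by
  rw [ev_apply, Finsupp.sum_of_support_subset _ hs]
  intro z _
  simp

theorem evT_rf (t : UnitAddTorus (Fin q)) (f : GA q e) : evT t (rf f) = evT (-t) f := by
  have h : (evT t).comp rf = (evT (-t) : GA q e →+* Matrix e e ℂ) := by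
    apply AddMonoidAlgebra.ringHom_ext
    · intro r
      rw [RingHom.comp_apply, rf_single, evT, ev_single, ev_single, neg_zero]
      congr 1
      rw [ofAdd_zero, map_one, map_one]
    · intro z
      rw [RingHom.comp_apply, rf_single, evT, ev_single, ev_single]
      congr 1
      change mFourier (-z) t = mFourier z (-t)
      rw [mF_neg, mFourier_neg]
  exact congrArg (fun g : GA q e →+* Matrix e e ℂ => g f) h

theorem evR_rf (ε : Fin q → ℤˣ) (f : GA q e) : ev (chR ε) (rf f) = ev (chR ε) f := by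
  have h : (ev (chR ε)).comp rf = (ev (chR ε) : GA q e →+* Matrix e e ℝ) := by
    apply AddMonoidAlgebra.ringHom_ext
    · intro r
      rw [RingHom.comp_apply, rf_single, neg_zero]
    · intro z
      rw [RingHom.comp_apply, rf_single, ev_single, ev_single]
      congr 1
      rw [chR_apply, chR_apply]
      refine Finset.prod_congr rfl fun i _ => ?_
      rw [Pi.neg_apply, _root_.zpow_neg]
      congr 2
      rw [Int.units_inv_eq_self]
  exact congrArg (fun g : GA q e →+* Matrix e e ℝ => g f) h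

/-- The approximation of a symmetric matrix function by a symmetric kernel. -/
theorem appr {Bf : UnitAddTorus (Fin q) → Matrix (Fin N) (Fin N) ℂ} (hc : Continuous Bf)
    (hconj : ∀ t i j, conj (Bf (-t) i j) = Bf t i j) {w : Matrix (Fin N) (Fin N) ℝ}
    (hw : w * w = 1) (hBw : ∀ t, Bf (-t) * w.map (algebraMap ℝ ℂ) = Bf t) {η : ℝ} (hη : 0 < η) :
    ∃ b : GA q (Fin N), rf b = b * AddMonoidAlgebra.single 0 w ∧
      ∀ t i j, ‖evT t b i j - Bf t i j‖ < η := by
  classical
  set Cw : ℝ := ∑ k, ∑ j, |w k j| with hCw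
  have hCw0 : 0 ≤ Cw := Finset.sum_nonneg fun _ _ => Finset.sum_nonneg fun _ _ => abs_nonneg _
  set η' := η / (1 + Cw) with hη'
  have hη'0 : 0 < η' := by positivity
  have h1 : ∀ i j, ∃ c : (Fin q → ℤ) →₀ ℂ, ∀ t,
      ‖(c.sum fun z a => a * mFourier z t) - Bf t i j‖ < η' := by
    intro i j
    let F : C(UnitAddTorus (Fin q), ℂ) := ⟨fun t => Bf t i j, hc.matrix_elem i j⟩
    have hF : F ∈ (Submodule.span ℂ (Set.range (@mFourier (Fin q) _))).topologicalClosure := by
      rw [span_mFourier_closure_eq_top]; trivial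
    have hF' : F ∈ closure ((Submodule.span ℂ (Set.range (@mFourier (Fin q) _)) :
      Submodule ℂ C(UnitAddTorus (Fin q), ℂ)) : Set C(UnitAddTorus (Fin q), ℂ)) := hF
    rw [Metric.mem_closure_iff] at hF'
    obtain ⟨p, hp, hpF⟩ := hF' η' hη'0
    obtain ⟨c, hcp⟩ := Finsupp.mem_span_range_iff_exists_finsupp.mp hp
    refine ⟨c, fun t => ?_⟩
    have h2 : (c.sum fun z a => a * mFourier z t) = p t := by
      rw [← hcp, Finsupp.sum, Finsupp.sum, ContinuousMap.sum_apply]
      rfl
    rw [h2]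
    have h3 := ContinuousMap.dist_apply_le_dist (f := F) (g := p) t
    rw [dist_comm, dist_eq_norm] at h3
    exact lt_of_le_of_lt h3 hpF
  choose c hcB using h1
  set S : Finset (Fin q → ℤ) := Finset.univ.biUnion fun i => Finset.univ.biUnion fun j =>
    (c i j).support with hS
  have hcS : ∀ i j, (c i j).support ⊆ S := by
    intro i j z hz
    rw [hS, Finset.mem_biUnion]
    refine ⟨i, Finset.mem_univ _, ?_⟩
    rw [Finset.mem_biUnion]
    exact ⟨j, Finset.mem_univ _, hz⟩
  have hSz : ∀ z, (Matrix.of fun i j => (c i j z).re : Matrix (Fin N) (Fin N) ℝ) ≠ 0 → z ∈ S := by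
    intro z hz
    by_contra hcon
    apply hz
    ext i j
    have : c i j z = 0 := Finsupp.notMem_support_iff.mp fun h => hcon (hcS i j h)
    simp [this]
  let b₁ : GA q (Fin N) := AddMonoidAlgebra.ofCoeff (Finsupp.onFinset S
    (fun z => Matrix.of fun i j => (c i j z).re) hSz)
  have hb₁S : b₁.coeff.support ⊆ S := Finsupp.support_onFinset_subset (hf := hSz)
  have hb₁ : ∀ t i j, ‖evT t b₁ i j - Bf t i j‖ < η' := by
    intro t i j
    have e1 : evT t b₁ i j = (1 / 2 : ℂ) * ((c i j).sum (fun z a => a * mFourier z t) +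
        conj ((c i j).sum (fun z a => a * mFourier z (-t)))) := by
      rw [evT, ev_eq_sum _ _ hb₁S, Finsupp.sum_of_support_subset _ (hcS i j) _ (by simp),
        Finsupp.sum_of_support_subset _ (hcS i j) _ (by simp), map_sum, ← Finset.sum_add_distrib,
        Finset.mul_sum]
      refine Finset.sum_congr rfl fun z _ => ?_
      rw [map_mul, mF_neg, Complex.conj_conj, ← add_mul, ← mul_assoc]
      congr 1
      rw [Complex.add_conj]
      change (((c i j z).re : ℝ) : ℂ) = _
      push_cast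
      ring
    have e2 : evT t b₁ i j - Bf t i j = (1 / 2 : ℂ) *
        (((c i j).sum (fun z a => a * mFourier z t) - Bf t i j) +
        conj ((c i j).sum (fun z a => a * mFourier z (-t)) - Bf (-t) i j)) := by
      rw [e1, map_sub, hconj]; ring
    rw [e2, norm_mul]
    have h3 := hcB i j t
    have h4 := hcB i j (-t)
    have h5 := norm_add_le ((c i j).sum (fun z a => a * mFourier z t) - Bf t i j)
      (conj ((c i j).sum (fun z a => a * mFourier z (-t)) - Bf (-t) i j))
    rw [RCLike.norm_conj] at h5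
    have h6 : ‖(1 / 2 : ℂ)‖ = 1 / 2 := by norm_num
    rw [h6]
    linarith
  refine ⟨(1 / 2 : ℝ) • (b₁ + rf b₁ * AddMonoidAlgebra.single 0 w), ?_, ?_⟩
  · have hs : ∀ (r : ℝ) (f : GA q (Fin N)), rf (r • f) = r • rf f := by
      intro r f
      apply AddMonoidAlgebra.ext
      ext z : 1
      rw [rf_coeff, AddMonoidAlgebra.coeff_smul, AddMonoidAlgebra.coeff_smul, Finsupp.smul_apply,
        Finsupp.smul_apply, rf_coeff]
    rw [hs, map_add, map_mul, rf_rf, rf_single, neg_zero, smul_mul_assoc, add_mul, mul_assoc,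
      AddMonoidAlgebra.single_mul_single, hw, zero_add, ← AddMonoidAlgebra.one_def, mul_one,
      add_comm]
  · intro t i j
    rw [evT, ev_smul, map_add, map_mul, ← evT, evT_rf, evT, ev_single, Matrix.smul_apply,
      Matrix.add_apply]
    have e3 : (chT t) (Multiplicative.ofAdd (0 : Fin q → ℤ)) = 1 := by
      rw [ofAdd_zero, map_one]
    rw [e3, one_smul]
    have e4 : (algebraMap ℝ ℂ) (1 / 2) • ((ev (chT t)) b₁ i j +
        ((ev (chT (-t))) b₁ * w.map (algebraMap ℝ ℂ)) i j) - Bf t i j =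
        (1 / 2 : ℂ) * ((evT t b₁ i j - Bf t i j) +
          ∑ k, (evT (-t) b₁ i k - Bf (-t) i k) * (w k j : ℂ)) := by
      have e5 : Bf t i j = ∑ k, Bf (-t) i k * (w k j : ℂ) := by
        conv_lhs => rw [← hBw t]
        rw [Matrix.mul_apply]
        rfl
      have e6 : ((ev (chT (-t))) b₁ * w.map (algebraMap ℝ ℂ)) i j =
          ∑ k, evT (-t) b₁ i k * (w k j : ℂ) := by
        rw [Matrix.mul_apply]
        rfl
      rw [e6]
      simp only [sub_mul, Finset.sum_sub_distrib]
      rw [← e5, smul_eq_mul]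
      have e7 : (algebraMap ℝ ℂ) (1 / 2) = 1 / 2 := by simp
      rw [e7]
      ring
    rw [e4, norm_mul]
    have h6 : ‖(1 / 2 : ℂ)‖ = 1 / 2 := by norm_num
    rw [h6]
    have h7 : ‖∑ k, (evT (-t) b₁ i k - Bf (-t) i k) * (w k j : ℂ)‖ ≤ η' * Cw := by
      refine (norm_sum_le _ _).trans ?_
      calc ∑ k, ‖(evT (-t) b₁ i k - Bf (-t) i k) * (w k j : ℂ)‖ ≤ ∑ k, η' * |w k j| := by
            refine Finset.sum_le_sum fun k _ => ?_
            rw [norm_mul, Complex.norm_real, Real.norm_eq_abs]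
            exact mul_le_mul_of_nonneg_right (hb₁ (-t) i k).le (abs_nonneg _)
        _ = η' * ∑ k, |w k j| := by rw [Finset.mul_sum]
        _ ≤ η' * Cw := by
            apply mul_le_mul_of_nonneg_left _ hη'0.le
            refine Finset.sum_le_sum fun k _ => ?_
            exact Finset.single_le_sum (f := fun j => |w k j|) (fun _ _ => abs_nonneg _)
              (Finset.mem_univ j)
    have h8 := norm_add_le (evT t b₁ i j - Bf t i j)
      (∑ k, (evT (-t) b₁ i k - Bf (-t) i k) * (w k j : ℂ))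
    have h9 := hb₁ t i j
    have h10 : η' * (1 + Cw) = η := by
      rw [hη']; field_simp
    nlinarith

end kernels

end Pool.Agent.Helper10K9.Ke
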