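import Mathlib
import Pool.Agent.Helper10K9.Ker

/-!
# Construction of the kernel, second part
-/

set_option autoImplicit false

open scoped Kronecker ComplexConjugate
open Matrix UnitAddTorus Filter Topology Pool.Agent.Helper10K9.FL Pool.Agent.Helper10K9.Bo
  Pool.Agent.Helper10K9.Tr Pool.Agent.Helper10K9.Ke

namespace Pool.Agent.Helper10K9.Kb

variable {q N : ℕ} {e : Type} [Fintype e] [DecidableEq e]

theorem chR_even (ε : Fin q → ℤˣ) {z : Fin q → ℤ} (hz : ∀ i, Even (z i)) :
    chR ε (Multiplicative.ofAdd z) = 1 := by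
  rw [chR_apply]
  apply Finset.prod_eq_one
  intro i _
  obtain ⟨m, hm⟩ := hz i
  rw [hm, _root_.zpow_add, ← mul_zpow, Int.units_mul_self, _root_.one_zpow]
  simp

theorem chR_single (ε : Fin q → ℤˣ) (j : Fin q) :
    chR ε (Multiplicative.ofAdd (Pi.single j 1 : Fin q → ℤ)) = ((ε j : ℤ) : ℝ) := by
  rw [chR_apply, Finset.prod_eq_single j]
  · simp
  · intro i _ hi
    rw [Pi.single_eq_of_ne hi]
    simp
  · intro h; exact absurd (Finset.mem_univ _) h

theorem chR_neg (ε : Fin q → ℤˣ) (z : Fin q → ℤ) :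
    chR ε (Multiplicative.ofAdd (-z)) = chR ε (Multiplicative.ofAdd z) := by
  rw [chR_apply, chR_apply]
  refine Finset.prod_congr rfl fun i _ => ?_
  rw [Pi.neg_apply, _root_.zpow_neg, Int.units_inv_eq_self]

theorem ev_single_one {S : Type} [CommRing S] [Algebra ℝ S]
    (χ : Multiplicative (Fin q → ℤ) →* S) (z : Fin q → ℤ) :
    ev χ (AddMonoidAlgebra.single z (1 : Matrix e e ℝ)) = χ (Multiplicative.ofAdd z) • 1 := by
  rw [ev_single]
  congr 1
  exact Matrix.map_one _ (map_zero _) (map_one _)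

theorem rf_smul (r : ℝ) (f : GA q e) : rf (r • f) = r • rf f := by
  apply AddMonoidAlgebra.ext
  ext z : 1
  rw [rf_coeff, AddMonoidAlgebra.coeff_smul, AddMonoidAlgebra.coeff_smul, Finsupp.smul_apply,
    Finsupp.smul_apply, rf_coeff]

/-- The kernel of the sum of the squares of the sines. -/
noncomputable def s2 : GA q e := ∑ j : Fin q,
  ((1 / 2 : ℝ) • AddMonoidAlgebra.single 0 (1 : Matrix e e ℝ) -
    (1 / 4 : ℝ) • (AddMonoidAlgebra.single (Pi.single j 1 + Pi.single j 1) (1 : Matrix e e ℝ) +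
      AddMonoidAlgebra.single (-(Pi.single j 1 + Pi.single j 1)) (1 : Matrix e e ℝ)))

theorem rf_s2 : rf (s2 : GA q e) = s2 := by
  rw [s2, map_sum]
  refine Finset.sum_congr rfl fun j _ => ?_
  rw [map_sub, rf_smul, rf_smul, map_add, rf_single, rf_single, rf_single, neg_zero, neg_neg,
    add_comm (AddMonoidAlgebra.single (-(Pi.single j 1 + Pi.single j 1)) (1 : Matrix e e ℝ))]

theorem evR_s2 (ε : Fin q → ℤˣ) : ev (chR ε) (s2 : GA q e) = 0 := by
  rw [s2, map_sum]
  apply Finset.sum_eq_zero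
  intro j _
  have h1 : chR ε (Multiplicative.ofAdd (0 : Fin q → ℤ)) = 1 := by rw [ofAdd_zero, map_one]
  have h2 : chR ε (Multiplicative.ofAdd (Pi.single j 1 + Pi.single j 1 : Fin q → ℤ)) = 1 := by
    apply chR_even
    intro i
    exact ⟨_, rfl⟩
  rw [map_sub, ev_smul, ev_smul, map_add, ev_single_one, ev_single_one, ev_single_one, chR_neg,
    h1, h2, one_smul, ← two_smul ℝ (1 : Matrix e e ℝ), smul_smul, ← sub_smul]
  have : (algebraMap ℝ ℝ) (1 / 2) - (algebraMap ℝ ℝ) (1 / 4) * 2 = 0 := by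
    simp only [Algebra.algebraMap_self, RingHom.id_apply]; norm_num
  rw [this, zero_smul]

theorem evT_s2 (t : UnitAddTorus (Fin q)) :
    evT t (s2 : GA q e) = ((∑ j, sn t j ^ 2 : ℝ) : ℂ) • 1 := by
  rw [s2, map_sum]
  push_cast
  rw [Finset.sum_smul]
  refine Finset.sum_congr rfl fun j _ => ?_
  have h1 : chT t (Multiplicative.ofAdd (0 : Fin q → ℤ)) = 1 := by rw [ofAdd_zero, map_one]
  have h2 : chT t (Multiplicative.ofAdd (Pi.single j 1 + Pi.single j 1 : Fin q → ℤ)) =
      mFourier (Pi.single j 1) t * mFourier (Pi.single j 1) t := by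
    rw [ofAdd_add, map_mul]; rfl
  have h3 : chT t (Multiplicative.ofAdd (-(Pi.single j 1 + Pi.single j 1) : Fin q → ℤ)) =
      conj (mFourier (Pi.single j 1) t) * conj (mFourier (Pi.single j 1) t) := by
    change mFourier (-(Pi.single j 1 + Pi.single j 1)) t = _
    rw [mFourier_neg, mFourier_add, map_mul]
  rw [evT, map_sub, ev_smul, ev_smul, map_add, ev_single_one, ev_single_one, ev_single_one,
    h1, h2, h3, one_smul, ← add_smul, smul_smul]
  have h4 : (algebraMap ℝ ℂ) (1 / 2) • (1 : Matrix e e ℂ) = (1 / 2 : ℂ) • 1 := by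
    congr 1; simp
  rw [h4, ← sub_smul]
  congr 1
  have h5 : mFourier (Pi.single j 1) t = (cs t j : ℂ) + (sn t j : ℂ) * Complex.I := by
    rw [cs, sn, Complex.re_add_im]
  have h6 : ((cs t j : ℂ)) ^ 2 + (sn t j : ℂ) ^ 2 = 1 := by
    exact_mod_cast cs_sn t j
  have h7 : (algebraMap ℝ ℂ) (1 / 4) = 1 / 4 := by simp
  rw [h5, h7]
  simp only [map_add, map_mul, Complex.conj_ofReal, Complex.conj_I]
  have h8 : Complex.I ^ 2 = -1 := Complex.I_sq
  linear_combination (-(1 / 2 : ℂ)) * h6 - (1 / 2 : ℂ) * (sn t j : ℂ) ^ 2 * h8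

/-- The scalar kernel. -/
noncomputable def al : GA q e := ∑ j : Fin q,
  ((1 / 2 : ℝ) • (AddMonoidAlgebra.single (Pi.single j 1) (1 : Matrix e e ℝ) +
      AddMonoidAlgebra.single (-(Pi.single j 1)) (1 : Matrix e e ℝ))) -
    ((q : ℝ) - 1) • AddMonoidAlgebra.single 0 (1 : Matrix e e ℝ)

theorem rf_al : rf (al : GA q e) = al := by
  rw [al, map_sub, map_sum, rf_smul, rf_single, neg_zero]
  congr 1
  refine Finset.sum_congr rfl fun j _ => ?_
  rw [rf_smul, map_add, rf_single, rf_single, neg_neg,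
    add_comm (AddMonoidAlgebra.single (-(Pi.single j 1)) (1 : Matrix e e ℝ))]

/-- The values at the real characters. -/
noncomputable def alR (ε : Fin q → ℤˣ) : ℝ := ∑ j, ((ε j : ℤ) : ℝ) - ((q : ℝ) - 1)

theorem evR_al (ε : Fin q → ℤˣ) : ev (chR ε) (al : GA q e) = alR ε • 1 := by
  have h1 : chR ε (Multiplicative.ofAdd (0 : Fin q → ℤ)) = 1 := by rw [ofAdd_zero, map_one]
  rw [al, map_sub, map_sum, ev_smul, ev_single_one, h1, one_smul, alR, sub_smul, Finset.sum_smul]
  congr 1
  refine Finset.sum_congr rfl fun j _ => ?_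
  rw [ev_smul, map_add, ev_single_one, ev_single_one, chR_neg, chR_single, ← two_smul ℝ,
    smul_smul, smul_smul]
  congr 1
  simp only [Algebra.algebraMap_self, RingHom.id_apply]
  ring

theorem evT_al (t : UnitAddTorus (Fin q)) : evT t (al : GA q e) = (alT t : ℂ) • 1 := by
  have h1 : chT t (Multiplicative.ofAdd (0 : Fin q → ℤ)) = 1 := by rw [ofAdd_zero, map_one]
  rw [al, evT, map_sub, map_sum, ev_smul, ev_single_one, h1, one_smul, alT, Complex.ofReal_sub,
    sub_smul, Complex.ofReal_sum, Finset.sum_smul]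
  congr 1
  refine Finset.sum_congr rfl fun j _ => ?_
  have h3 : chT t (Multiplicative.ofAdd (-(Pi.single j 1) : Fin q → ℤ)) =
      conj (mFourier (Pi.single j 1) t) := by
    change mFourier (-(Pi.single j 1)) t = _
    rw [mFourier_neg]
  have h2 : chT t (Multiplicative.ofAdd (Pi.single j 1 : Fin q → ℤ)) =
      mFourier (Pi.single j 1) t := rfl
  rw [ev_smul, map_add, ev_single_one, ev_single_one, h2, h3, ← add_smul, smul_smul]
  congr 1
  rw [Complex.add_conj, cs]
  have h7 : (algebraMap ℝ ℂ) (1 / 2) = 1 / 2 := by simp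
  rw [h7]
  push_cast
  ring

/-- Scalar kernels. -/
def IsSc (f : GA q e) : Prop := ∀ z, ∃ x : ℝ, f.coeff z = x • 1

theorem IsSc.sub {f g : GA q e} (hf : IsSc f) (hg : IsSc g) : IsSc (f - g) := by
  intro z
  obtain ⟨x, hx⟩ := hf z
  obtain ⟨y, hy⟩ := hg z
  exact ⟨x - y, by rw [AddMonoidAlgebra.coeff_sub, Finsupp.sub_apply, hx, hy, sub_smul]⟩

theorem IsSc.add {f g : GA q e} (hf : IsSc f) (hg : IsSc g) : IsSc (f + g) := by
  intro z
  obtain ⟨x, hx⟩ := hf z
  obtain ⟨y, hy⟩ := hg z
  exact ⟨x + y, by rw [AddMonoidAlgebra.coeff_add, Finsupp.add_apply, hx, hy, add_smul]⟩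

theorem IsSc.smul {f : GA q e} (hf : IsSc f) (r : ℝ) : IsSc (r • f) := by
  intro z
  obtain ⟨x, hx⟩ := hf z
  exact ⟨r * x, by rw [AddMonoidAlgebra.coeff_smul, Finsupp.smul_apply, hx, smul_smul]⟩

theorem IsSc.single (z : Fin q → ℤ) : IsSc (AddMonoidAlgebra.single z (1 : Matrix e e ℝ)) := by
  intro u
  rw [AddMonoidAlgebra.coeff_single, Finsupp.single_apply]
  split_ifs
  · exact ⟨1, (one_smul _ _).symm⟩
  · exact ⟨0, (zero_smul _ _).symm⟩

theorem IsSc.sum {ι : Type} (s : Finset ι) {f : ι → GA q e} (hf : ∀ i, IsSc (f i)) :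
    IsSc (∑ i ∈ s, f i) := by
  classical
  induction s using Finset.induction_on with
  | empty => intro z; exact ⟨0, by simp⟩
  | insert a s ha ih => rw [Finset.sum_insert ha]; exact (hf a).add ih

theorem isSc_al : IsSc (al : GA q e) := by
  rw [al]
  exact (IsSc.sum _ fun j => ((IsSc.single _).add (IsSc.single _)).smul _).sub
    ((IsSc.single _).smul _)

theorem coeff_mul_single_zero (f : GA q e) (a : Matrix e e ℝ) (z : Fin q → ℤ) :
    (f * AddMonoidAlgebra.single 0 a).coeff z = f.coeff z * a := by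
  rw [mul_coeff f _ z subset_rfl]
  by_cases hz : z ∈ f.coeff.support
  · rw [Finset.sum_eq_single_of_mem z hz]
    · simp
    · intro u _ hu
      rw [AddMonoidAlgebra.coeff_single, Finsupp.single_apply, if_neg, mul_zero]
      intro h
      exact hu (sub_eq_zero.mp h.symm).symm
  · rw [Finsupp.notMem_support_iff.mp hz, zero_mul]
    apply Finset.sum_eq_zero
    intro u hu
    rw [AddMonoidAlgebra.coeff_single, Finsupp.single_apply, if_neg, mul_zero]
    intro h
    apply hz
    rw [(sub_eq_zero.mp h.symm)]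
    exact hu

/-- The existence of the off-diagonal part. -/
theorem exists_kernel {w : Matrix (Fin N) (Fin N) ℝ} (hw : w * w = 1)
    {A : EuclideanSpace ℝ (Fin q) → Matrix (Fin N) (Fin N) ℝ}
    (hA : ContinuousOn A (Metric.sphere 0 1))
    (hdet : ∀ x ∈ Metric.sphere (0 : EuclideanSpace ℝ (Fin q)) 1, (A x).det ≠ 0)
    (hneg : ∀ x ∈ Metric.sphere (0 : EuclideanSpace ℝ (Fin q)) 1, A (-x) = A x * w) :
    ∃ b : GA q (Fin N), (∀ z, b.coeff (-z) = b.coeff z * w) ∧
      (∀ ε : Fin q → ℤˣ, ev (chR ε) b = 0) ∧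
      ∀ t : UnitAddTorus (Fin q), alT t = 0 → (evT t b).det ≠ 0 := by
  classical
  set W : Matrix (Fin N) (Fin N) ℂ := w.map (algebraMap ℝ ℂ) with hW
  have hWW : W * W = 1 := by
    rw [hW, ← Matrix.map_mul, hw]
    exact Matrix.map_one _ (map_zero _) (map_one _)
  set E : Matrix (Fin N) (Fin N) ℂ := (1 / 2 : ℂ) • ((1 + W) + Complex.I • (1 - W)) with hE
  have hWE : W * E = (1 / 2 : ℂ) • ((1 + W) - Complex.I • (1 - W)) := by
    rw [hE, Matrix.mul_smul, Matrix.mul_add, Matrix.mul_smul, Matrix.mul_add, Matrix.mul_sub,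
      hWW, Matrix.mul_one]
    congr 1
    rw [add_comm W 1, sub_eq_add_neg (1 + W), ← smul_neg, neg_sub]
  have hEW : E * W = W * E := by
    rw [hWE, hE, Matrix.smul_mul, Matrix.add_mul, Matrix.smul_mul, Matrix.add_mul, Matrix.sub_mul,
      hWW, Matrix.one_mul]
    congr 1
    rw [add_comm W 1, sub_eq_add_neg (1 + W), ← smul_neg, neg_sub]
  have hWEW : W * E * W = E := by
    rw [mul_assoc, hEW, ← mul_assoc, hWW, one_mul]
  have hEE : E * (W * E) = 1 := by
    rw [hWE, hE, smul_mul_smul_comm]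
    have h1 : (1 + W) * (1 + W) = (2 : ℂ) • (1 + W) := by
      rw [add_mul, one_mul, mul_add, mul_one, hWW, two_smul]; abel
    have h2 : (1 - W) * (1 - W) = (2 : ℂ) • (1 - W) := by
      rw [sub_mul, one_mul, mul_sub, mul_one, hWW, two_smul]; abel
    have h3 : (1 + W) * (1 - W) = 0 := by
      rw [add_mul, one_mul, mul_sub, mul_one, hWW]; abel
    have h4 : (1 - W) * (1 + W) = 0 := by
      rw [sub_mul, one_mul, mul_add, mul_one, hWW]; abel
    have h5 : (1 + W + Complex.I • (1 - W)) * (1 + W - Complex.I • (1 - W)) =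
        (4 : ℂ) • 1 := by
      have gen : ∀ a b : Matrix (Fin N) (Fin N) ℂ, a * a = (2 : ℂ) • a → b * b = (2 : ℂ) • b →
          a * b = 0 → b * a = 0 → (a + Complex.I • b) * (a - Complex.I • b) =
            (2 : ℂ) • (a + b) := by
        intro a b g1 g2 g3 g4
        rw [mul_sub, add_mul, add_mul, mul_smul_comm, smul_mul_assoc, smul_mul_smul_comm, g1, g2,
          g3, g4, smul_zero, Complex.I_mul_I, neg_one_smul, add_zero, zero_add,
          sub_neg_eq_add, ← smul_add]
      rw [gen _ _ h1 h2 h3 h4]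
      have : (1 + W + (1 - W)) = (2 : ℂ) • (1 : Matrix (Fin N) (Fin N) ℂ) := by
        rw [two_smul]; abel
      rw [this, smul_smul]
      norm_num
    rw [h5, smul_smul]
    norm_num
  have hEdet : E.det ≠ 0 := by
    intro h
    have := congrArg Matrix.det hEE
    rw [Matrix.det_mul, h, zero_mul, Matrix.det_one] at this
    exact zero_ne_one this
  -- the vector of the sines
  set vv : UnitAddTorus (Fin q) → EuclideanSpace ℝ (Fin q) := fun t => WithLp.toLp 2 (sn t)
    with hvv
  have hvvc : Continuous vv := by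
    apply (PiLp.continuous_toLp 2 _).comp
    exact continuous_pi fun j => sn_cont j
  have hvneg : ∀ t, vv (-t) = -vv t := by
    intro t
    rw [hvv]
    simp only
    rw [← WithLp.toLp_neg]
    congr 1
    funext j
    exact sn_neg t j
  set Bf : UnitAddTorus (Fin q) → Matrix (Fin N) (Fin N) ℂ :=
    fun t => (HH A (vv t)).map (algebraMap ℝ ℂ) * E with hBf
  have hBfc : Continuous Bf := by
    have h1 : Continuous fun t => (HH A (vv t)).map (algebraMap ℝ ℂ) :=
      ((HH_cont hA).comp hvvc).matrix_map (by exact Complex.continuous_ofReal)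
    exact h1.matrix_mul continuous_const
  have hBneg : ∀ t, Bf (-t) = (HH A (vv t)).map (algebraMap ℝ ℂ) * (W * E) := by
    intro t
    rw [hBf]
    simp only
    rw [hvneg, HH_neg hneg, Matrix.map_mul, mul_assoc]
  have hconj : ∀ t i j, conj (Bf (-t) i j) = Bf t i j := by
    intro t i j
    rw [hBneg, Matrix.mul_apply, map_sum]
    simp only [hBf]
    rw [Matrix.mul_apply]
    refine Finset.sum_congr rfl fun k _ => ?_
    rw [map_mul]
    have h1 : conj ((HH A (vv t)).map (algebraMap ℝ ℂ) i k) =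
        (HH A (vv t)).map (algebraMap ℝ ℂ) i k := by
      rw [Matrix.map_apply]
      exact Complex.conj_ofReal _
    have h2 : conj ((W * E) k j) = E k j := by
      rw [hWE, hE]
      simp only [Matrix.smul_apply, Matrix.sub_apply, Matrix.add_apply, smul_eq_mul, map_mul,
        map_sub, map_add]
      have h3 : conj (W k j) = W k j := by
        rw [hW, Matrix.map_apply]
        exact Complex.conj_ofReal _
      have h4 : conj ((1 : Matrix (Fin N) (Fin N) ℂ) k j) = (1 : Matrix (Fin N) (Fin N) ℂ) k j := by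
        rw [Matrix.one_apply]
        split_ifs <;> simp
      have h5 : conj (1 / 2 : ℂ) = 1 / 2 := by
        rw [map_div₀, map_one, map_ofNat]
      rw [h3, h4, h5, Complex.conj_I]
      ring
    rw [h1, h2]
  have hBw : ∀ t, Bf (-t) * w.map (algebraMap ℝ ℂ) = Bf t := by
    intro t
    rw [hBneg, ← hW, mul_assoc, hWEW]
  -- compactness
  have hZc : IsCompact {t : UnitAddTorus (Fin q) | alT t = 0} := by
    apply IsClosed.isCompact
    apply isClosed_eq _ continuous_const
    exact (continuous_finsetSum _ fun j _ => cs_cont j).sub continuous_const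
  let Bg : UnitAddTorus (Fin q) → (Fin N → Fin N → ℂ) := fun t i j => Bf t i j
  have hBgc : Continuous Bg := hBfc
  have hop : IsOpen {M : Fin N → Fin N → ℂ | (Matrix.of M).det ≠ 0} := by
    apply isOpen_ne_fun _ continuous_const
    exact Continuous.matrix_det (A := fun M : Fin N → Fin N → ℂ => Matrix.of M) continuous_id
  have hsub : Bg '' {t : UnitAddTorus (Fin q) | alT t = 0} ⊆
      {M : Fin N → Fin N → ℂ | (Matrix.of M).det ≠ 0} := by
    rintro _ ⟨t, ht, rfl⟩
    have h1 : (Bf t).det ≠ 0 := by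
      rw [hBf]
      simp only
      rw [Matrix.det_mul]
      apply mul_ne_zero _ hEdet
      have h2 : ((HH A (vv t)).map (algebraMap ℝ ℂ)).det = algebraMap ℝ ℂ ((HH A (vv t)).det) := by
        rw [RingHom.map_det]; rfl
      rw [h2]
      have h3 : vv t ≠ 0 := by
        intro h4
        obtain ⟨j, hj⟩ := sn_ne_of_alT ht
        apply hj
        have := congrArg (fun v : EuclideanSpace ℝ (Fin q) => v j) h4
        exact this
      intro h5
      have h6 : ((HH A (vv t)).det : ℂ) = 0 := h5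
      exact HH_det hdet h3 (by exact_mod_cast h6)
    exact h1
  obtain ⟨δ, hδ, hthick⟩ := (hZc.image hBgc).exists_thickening_subset_open hop hsub
  obtain ⟨b₂, hb₂, hap⟩ := appr hBfc hconj hw hBw hδ
  refine ⟨s2 * b₂, ?_, ?_, ?_⟩
  · intro z
    rw [← rf_coeff, ← coeff_mul_single_zero, map_mul, rf_s2, hb₂, mul_assoc]
  · intro ε
    rw [map_mul, evR_s2, zero_mul]
  · intro t ht
    rw [map_mul, evT_s2, Matrix.smul_mul, Matrix.one_mul, Matrix.det_smul]
    apply mul_ne_zero
    · apply pow_ne_zero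
      obtain ⟨j, hj⟩ := sn_ne_of_alT ht
      have h1 : 0 < ∑ j, sn t j ^ 2 := by
        apply Finset.sum_pos' (fun _ _ => sq_nonneg _)
        exact ⟨j, Finset.mem_univ _, by positivity⟩
      exact_mod_cast h1.ne'
    · have h1 : (fun i j => evT t b₂ i j) ∈ Metric.thickening δ
          (Bg '' {t : UnitAddTorus (Fin q) | alT t = 0}) := by
        rw [Metric.mem_thickening_iff]
        refine ⟨Bg t, ⟨t, ht, rfl⟩, ?_⟩
        rw [dist_pi_lt_iff hδ]
        intro i
        rw [dist_pi_lt_iff hδ]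
        intro j
        rw [dist_eq_norm]
        exact hap t i j
      exact hthick h1

end Pool.Agent.Helper10K9.Kb
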