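import Mathlib
import Pool.Agent.Helper10K9.Trace

/-!
# The localizer
-/

set_option autoImplicit false

open scoped Matrix.Norms.L2Operator
open Matrix Pool.Agent.Helper10K9.FL Pool.Agent.Helper10K9.Bo Pool.Agent.Helper10K9.Nw
  Pool.Agent.Helper10K9.Tr Pool.Agent.Helper10K9.Sc

namespace Pool.Agent.Helper10K9.Lo

section cut

/-- clamp to `[-1, 1]` -/
noncomputable def cl (s : ℝ) : ℝ := max (-1) (min 1 s)

theorem cl_neg (s : ℝ) : cl (-s) = -cl s := by
  simp only [cl, max_def, min_def]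
  split_ifs <;> linarith

theorem cl_abs (s : ℝ) : |cl s| ≤ 1 := by
  rw [abs_le]
  simp only [cl, max_def, min_def]
  constructor <;> split_ifs <;> linarith

theorem cl_lip (s s' : ℝ) : |cl s - cl s'| ≤ |s - s'| := by
  have h1 : |max (-1) (min 1 s) - max (-1) (min 1 s')| ≤ |min 1 s - min 1 s'| := by
    have := abs_max_sub_max_le_max (-1) (min 1 s) (-1) (min 1 s')
    simpa using this
  have h2 : |min 1 s - min 1 s'| ≤ |s - s'| := by
    have := abs_min_sub_min_le_max 1 s 1 s'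
    simpa using this
  exact h1.trans h2

theorem cl_lt {s : ℝ} (h : |cl s| < 1) : |s| < 1 := by
  rw [abs_lt] at h ⊢
  simp only [cl, max_def, min_def] at h
  split_ifs at h <;> constructor <;> linarith

theorem cl_zero : cl 0 = 0 := by
  simp only [cl, max_def, min_def]
  split_ifs <;> linarith

/-- the signed distance to `[-r, r]` -/
def tau (r u : ℤ) : ℤ := u - max (-r) (min u r)

theorem tau_neg (r u : ℤ) (hr : 0 ≤ r) : tau r (-u) = -tau r u := by
  simp only [tau, max_def, min_def]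
  split_ifs <;> omega

theorem tau_zero (r u : ℤ) (h : |u| ≤ r) : tau r u = 0 := by
  have := abs_le.mp h
  simp only [tau, max_def, min_def]
  split_ifs <;> omega

theorem tau_lip (r u v : ℤ) (hr : 0 ≤ r) : |tau r u - tau r v| ≤ |u - v| := by
  simp only [tau, max_def, min_def, abs_le]
  rcases abs_cases (u - v) with ⟨h, _⟩ | ⟨h, _⟩ <;> rw [h] <;>
  split_ifs <;> constructor <;> omega

theorem tau_lt {r u : ℤ} {κ : ℤ} (hr : 0 ≤ r) (h : |tau r u| < κ) : |u| < r + κ := by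
  rw [abs_lt] at h ⊢
  simp only [tau, max_def, min_def] at h
  split_ifs at h <;> constructor <;> omega

/-- the cut position function -/
noncomputable def ph (r κ : ℕ) (t : ℝ) (u : ℤ) : ℝ := t * cl ((tau r u : ℝ) / κ)

variable {r κ : ℕ} {t : ℝ}

theorem ph_neg (u : ℤ) : ph r κ t (-u) = -ph r κ t u := by
  rw [ph, ph, tau_neg _ _ (Int.natCast_nonneg r), Int.cast_neg, neg_div, cl_neg, mul_neg]

theorem ph_abs (ht : 0 ≤ t) (u : ℤ) : |ph r κ t u| ≤ t := by
  rw [ph, abs_mul, abs_of_nonneg ht]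
  calc t * |cl ((tau r u : ℝ) / κ)| ≤ t * 1 := mul_le_mul_of_nonneg_left (cl_abs _) ht
    _ = t := mul_one t

theorem ph_zero {u : ℤ} (h : |u| ≤ r) : ph r κ t u = 0 := by
  rw [ph, tau_zero _ _ h, Int.cast_zero, zero_div, cl_zero, mul_zero]

theorem ph_lip (ht : 0 ≤ t) (u v : ℤ) : |ph r κ t u - ph r κ t v| ≤ t / κ * |((u - v : ℤ) : ℝ)| := by
  rw [ph, ph, ← mul_sub, abs_mul, abs_of_nonneg ht, div_mul_eq_mul_div, mul_div_assoc]
  apply mul_le_mul_of_nonneg_left _ ht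
  refine (cl_lip _ _).trans ?_
  rw [← sub_div, abs_div, Nat.abs_cast]
  apply div_le_div_of_nonneg_right _ (Nat.cast_nonneg κ)
  have := tau_lip r u v (Int.natCast_nonneg r)
  rw [← Int.cast_sub, ← Int.cast_abs, ← Int.cast_abs]
  exact_mod_cast this

theorem ph_lt (hκ : 0 < κ) (ht : 0 < t) {u : ℤ} (h : |ph r κ t u| < t) : |u| < r + κ := by
  rw [ph, abs_mul, abs_of_pos ht] at h
  have h1 : |cl ((tau r u : ℝ) / κ)| < 1 := by
    by_contra hc
    push Not at hc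
    nlinarith
  have h2 := cl_lt h1
  rw [abs_div, Nat.abs_cast, div_lt_one (by exact_mod_cast hκ)] at h2
  apply tau_lt (Int.natCast_nonneg r)
  rw [← Int.cast_abs] at h2
  exact_mod_cast h2

/-- the cut-off -/
noncomputable def gc (s : ℝ) : ℝ := max 0 (min 1 (2 - 2 * s))

theorem gc_nonneg (s : ℝ) : 0 ≤ gc s := le_max_left _ _

theorem gc_le (s : ℝ) : gc s ≤ 1 := by
  simp only [gc, max_def, min_def]
  split_ifs <;> linarith

theorem gc_lip (s s' : ℝ) : |gc s - gc s'| ≤ 2 * |s - s'| := by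
  have h1 : |max 0 (min 1 (2 - 2 * s)) - max 0 (min 1 (2 - 2 * s'))| ≤
      |min 1 (2 - 2 * s) - min 1 (2 - 2 * s')| := by
    have := abs_max_sub_max_le_max 0 (min 1 (2 - 2 * s)) 0 (min 1 (2 - 2 * s'))
    simpa using this
  have h2 : |min 1 (2 - 2 * s) - min 1 (2 - 2 * s')| ≤ |(2 - 2 * s) - (2 - 2 * s')| := by
    have := abs_min_sub_min_le_max 1 (2 - 2 * s) 1 (2 - 2 * s')
    simpa using this
  refine (h1.trans h2).trans ?_
  have : (2 - 2 * s) - (2 - 2 * s') = 2 * (s' - s) := by ring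
  rw [this, abs_mul, abs_sub_comm, abs_of_pos (by norm_num : (0 : ℝ) < 2)]

theorem gc_one {s : ℝ} (h : s ≤ 1 / 2) : gc s = 1 := by
  simp only [gc, max_def, min_def]
  split_ifs <;> linarith

theorem gc_ne {s : ℝ} (h : gc s ≠ 0) : s < 1 := by
  by_contra hc
  apply h
  simp only [gc, max_def, min_def]
  split_ifs <;> linarith

variable {q : ℕ}

/-- the position functions -/
noncomputable def P (r κ : ℕ) (t : ℝ) (l : Fin q) (x : Fin q → ℤ) : ℝ := ph r κ t (x l)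

/-- the cut-off function -/
noncomputable def G (r κ : ℕ) (t : ℝ) (x : Fin q → ℤ) : ℝ := gc (∑ l, |P r κ t l x| / t)

theorem P_neg (l : Fin q) (x : Fin q → ℤ) : P r κ t l (-x) = -P r κ t l x := ph_neg _

theorem G_neg (x : Fin q → ℤ) : G r κ t (-x) = G r κ t x := by
  simp only [G, P_neg, abs_neg]

theorem P_lip (ht : 0 ≤ t) {β : ℕ} (l : Fin q) {x y : Fin q → ℤ} (h : Bd β (x - y)) :
    |P r κ t l x - P r κ t l y| ≤ t / κ * β := by
  refine (ph_lip ht _ _).trans ?_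
  apply mul_le_mul_of_nonneg_left _ (by positivity)
  rw [← Int.cast_abs]
  have := h l
  rw [Pi.sub_apply] at this
  exact_mod_cast this

theorem G_lip (ht : 0 < t) {β : ℕ} {x y : Fin q → ℤ} (h : Bd β (x - y)) :
    |G r κ t x - G r κ t y| ≤ 2 * (q * (β / κ)) := by
  refine (gc_lip _ _).trans ?_
  apply mul_le_mul_of_nonneg_left _ (by norm_num)
  rw [← Finset.sum_sub_distrib]
  refine (Finset.abs_sum_le_sum_abs _ _).trans ?_
  calc ∑ l, |(|P r κ t l x| / t - |P r κ t l y| / t)| ≤ ∑ _l : Fin q, ((β : ℝ) / κ) := by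
        refine Finset.sum_le_sum fun l _ => ?_
        rw [← sub_div, abs_div, abs_of_pos ht, div_le_iff₀ ht]
        refine (abs_abs_sub_abs_le_abs_sub _ _).trans ?_
        refine (P_lip ht.le l h).trans (le_of_eq ?_)
        ring
    _ = q * (β / κ) := by simp

theorem G_bd (hκ : 0 < κ) (ht : 0 < t) {x : Fin q → ℤ} (h : G r κ t x ≠ 0) :
    Bd ((r + κ : ℕ) : ℤ) x := by
  have h1 := gc_ne h
  intro l
  have h2 : |P r κ t l x| / t ≤ ∑ l, |P r κ t l x| / t :=
    Finset.single_le_sum (f := fun l => |P r κ t l x| / t) (fun l _ => by positivity)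
      (Finset.mem_univ l)
  have h3 : |P r κ t l x| / t < 1 := lt_of_le_of_lt h2 h1
  rw [div_lt_one ht] at h3
  have h4 := ph_lt hκ ht h3
  push_cast
  exact h4.le

theorem P_zero {l : Fin q} {x : Fin q → ℤ} (h : Bd r x) : P r κ t l x = 0 := ph_zero (h l)

theorem G_one {x : Fin q → ℤ} (h : Bd r x) : G r κ t x = 1 := by
  rw [G]
  apply gc_one
  simp only [P_zero h, abs_zero, zero_div, Finset.sum_const_zero]
  norm_num

theorem G_nonneg (x : Fin q → ℤ) : 0 ≤ G r κ t x := gc_nonneg _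

theorem G_le (x : Fin q → ℤ) : G r κ t x ≤ 1 := gc_le _

theorem P_abs (ht : 0 ≤ t) (l : Fin q) (x : Fin q → ℤ) : |P r κ t l x| ≤ t := ph_abs ht _

/-- The pointwise lower bound. -/
theorem PG_lower (hq : 0 < q) (ht : 0 < t) {c : ℝ} (x : Fin q → ℤ) :
    min (t ^ 2 / (4 * q)) (c / 2) ≤ ∑ l, (P r κ t l x) ^ 2 + c / 2 * (G r κ t x) ^ 4 ∨ c < 0 := by
  by_cases hc : c < 0
  · exact Or.inr hc
  left
  push Not at hc
  have hq' : (0 : ℝ) < q := by exact_mod_cast hq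
  by_cases h : ∑ l, |P r κ t l x| / t ≤ 1 / 2
  · have h1 : G r κ t x = 1 := gc_one h
    rw [h1]
    have h2 : 0 ≤ ∑ l, (P r κ t l x) ^ 2 := Finset.sum_nonneg fun _ _ => sq_nonneg _
    have h3 := min_le_right (t ^ 2 / (4 * q)) (c / 2)
    linarith
  · push Not at h
    have h1 : t / 2 < ∑ l, |P r κ t l x| := by
      rw [← Finset.sum_div, lt_div_iff₀ ht] at h
      linarith
    have h2 : (∑ l, |P r κ t l x|) ^ 2 ≤ q * ∑ l, (P r κ t l x) ^ 2 := by
      have := sq_sum_le_card_mul_sum_sq (s := (Finset.univ : Finset (Fin q)))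
        (f := fun l => |P r κ t l x|)
      simpa using this
    have h3 : t ^ 2 / 4 ≤ q * ∑ l, (P r κ t l x) ^ 2 := by nlinarith
    have h4 : t ^ 2 / (4 * q) ≤ ∑ l, (P r κ t l x) ^ 2 := by
      rw [div_le_iff₀ (by positivity)]
      linarith
    have h5 := min_le_left (t ^ 2 / (4 * q)) (c / 2)
    have h6 : 0 ≤ c / 2 * (G r κ t x) ^ 4 := by positivity
    linarith

end cut

/-- The data of a localizer. -/
structure Dat (q : ℕ) (e : Type) [Fintype e] [DecidableEq e] where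
  /-- the Clifford matrices -/
  Sg : Fin q → Matrix e e ℝ
  /-- the kernel -/
  K : GA q e
  /-- the band -/
  β : ℕ
  /-- the fibre part of the reflection -/
  g0 : Matrix e e ℝ
  Sg_symm : ∀ l, (Sg l)ᵀ = Sg l
  Sg_sq : ∀ l, Sg l * Sg l = 1
  Sg_anti : ∀ l l', l ≠ l' → Sg l * Sg l' = -(Sg l' * Sg l)
  K_symm : ∀ z, K.coeff (-z) = (K.coeff z)ᵀ
  K_anti : ∀ l z, Sg l * K.coeff z = -(K.coeff z * Sg l)
  K_band : ∀ z, K.coeff z ≠ 0 → Bd β z
  K_sum : KS (1 / 2) K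
  K_low : ∃ c > 0, ∀ f : GA q e, c * fsq f ≤ fsq (K * f)
  g0_sq : g0 * g0 = 1
  g0_Sg : ∀ l, g0 * Sg l = -(Sg l * g0)
  g0_K : ∀ z, g0 * K.coeff z = K.coeff (-z) * g0

variable {q : ℕ} {e : Type} [Fintype e] [DecidableEq e] (d : Dat q e)

/-- the scale -/
noncomputable def sc (q : ℕ) : ℝ := 1 / (2 * (q + 1))

theorem sc_pos (q : ℕ) : 0 < sc q := by rw [sc]; positivity

/-- the Dirac part -/
noncomputable def DD (R r κ : ℕ) : Matrix (Ix q R e) (Ix q R e) ℝ :=
  ∑ l, Dg R e (P r κ (sc q) l) * Sl R q (d.Sg l)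

/-- the potential part -/
noncomputable def XX (R r κ : ℕ) : Matrix (Ix q R e) (Ix q R e) ℝ :=
  Dg R e (G r κ (sc q)) * Tp R d.K * Dg R e (G r κ (sc q))

/-- the localizer -/
noncomputable def LL (R r κ : ℕ) : Matrix (Ix q R e) (Ix q R e) ℝ := DD d R r κ + XX d R r κ

theorem DD_symm (R r κ : ℕ) : (DD d R r κ)ᵀ = DD d R r κ := by
  rw [DD, Matrix.transpose_sum]
  refine Finset.sum_congr rfl fun l _ => ?_
  rw [Matrix.transpose_mul, Sl_transpose, Dg_transpose, d.Sg_symm, Dg_Sl]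

theorem XX_symm (R r κ : ℕ) : (XX d R r κ)ᵀ = XX d R r κ := by
  rw [XX, Matrix.transpose_mul, Matrix.transpose_mul, Dg_transpose, Tp_transpose d.K_symm,
    Matrix.mul_assoc]

theorem LL_symm (R r κ : ℕ) : (LL d R r κ)ᵀ = LL d R r κ := by
  rw [LL, Matrix.transpose_add, DD_symm, XX_symm]

theorem DD_sq (R r κ : ℕ) : DD d R r κ * DD d R r κ =
    Dg R e (fun x => ∑ l, (P r κ (sc q) l x) ^ 2) := by
  set p : Fin q → Matrix (Ix q R e) (Ix q R e) ℝ := fun l => Dg R e (P r κ (sc q) l) with hp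
  set s : Fin q → Matrix (Ix q R e) (Ix q R e) ℝ := fun l => Sl R q (d.Sg l) with hs
  have h1 : ∀ l l', p l * s l * (p l' * s l') = (p l * p l') * (s l * s l') := by
    intro l l'
    have : s l * p l' = p l' * s l := (Dg_Sl _ _).symm
    calc p l * s l * (p l' * s l') = p l * (s l * p l') * s l' := by simp only [mul_assoc]
      _ = p l * (p l' * s l) * s l' := by rw [this]
      _ = _ := by simp only [mul_assoc]
  have hpc : ∀ l l', p l * p l' = p l' * p l := by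
    intro l l'
    simp only [hp]
    rw [Dg_mul, Dg_mul]
    congr 1
    funext x
    ring
  have hD : DD d R r κ * DD d R r κ = ∑ l, ∑ l', (p l * p l') * (s l * s l') := by
    rw [DD, Finset.sum_mul]
    refine Finset.sum_congr rfl fun l _ => ?_
    rw [Finset.mul_sum]
    exact Finset.sum_congr rfl fun l' _ => h1 l l'
  have hD' : DD d R r κ * DD d R r κ = ∑ l, ∑ l', (p l * p l') * (s l' * s l) := by
    rw [hD, Finset.sum_comm]
    refine Finset.sum_congr rfl fun l _ => Finset.sum_congr rfl fun l' _ => ?_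
    rw [hpc]
  have h2 : (2 : ℝ) • (DD d R r κ * DD d R r κ) = ∑ l, (2 : ℝ) • (p l * p l) := by
    rw [two_smul]
    nth_rewrite 2 [hD']
    rw [hD, ← Finset.sum_add_distrib]
    refine Finset.sum_congr rfl fun l _ => ?_
    rw [← Finset.sum_add_distrib, Finset.sum_eq_single l]
    · simp only [hs]
      rw [Sl_mul, d.Sg_sq, Sl_one, mul_one, two_smul]
    · intro l' _ hl
      rw [← mul_add]
      simp only [hs]
      rw [Sl_mul, Sl_mul, d.Sg_anti l l' (Ne.symm hl), Sl_neg, neg_add_cancel, mul_zero]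
    · intro h; exact absurd (Finset.mem_univ _) h
  have h3 : DD d R r κ * DD d R r κ = ∑ l, p l * p l := by
    rw [← Finset.smul_sum] at h2
    exact smul_right_injective _ (two_ne_zero) h2
  rw [h3]
  simp only [hp, Dg_mul]
  ext i j
  rw [Matrix.sum_apply]
  simp only [Dg, Matrix.diagonal_apply]
  split_ifs
  · exact Finset.sum_congr rfl fun l _ => (pow_two _).symm
  · simp

theorem DX (R r κ : ℕ) : DD d R r κ * XX d R r κ + XX d R r κ * DD d R r κ =
    ∑ l, -(Dg R e (G r κ (sc q)) * (Dg R e (P r κ (sc q) l) * Tp R d.K -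
      Tp R d.K * Dg R e (P r κ (sc q) l)) * Dg R e (G r κ (sc q))) * Sl R q (d.Sg l) := by
  rw [DD, Finset.sum_mul, Finset.mul_sum, ← Finset.sum_add_distrib]
  refine Finset.sum_congr rfl fun l _ => ?_
  rw [XX]
  set g := Dg R e (G r κ (sc q))
  set p := Dg R e (P r κ (sc q) l)
  set M := Tp R d.K
  set s := Sl R q (d.Sg l)
  have e1 : s * g = g * s := (Dg_Sl _ _).symm
  have e2 : s * M = -(M * s) := Sl_Tp_anti (d.K_anti l)
  have e3 : p * g = g * p := by
    simp only [p, g]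
    rw [Dg_mul, Dg_mul]
    congr 1
    funext x
    ring
  have e4 : s * p = p * s := (Dg_Sl _ _).symm
  have a1 : p * s * (g * M * g) = -(p * g * M * g * s) := by
    calc p * s * (g * M * g) = p * (s * g) * M * g := by simp only [mul_assoc]
      _ = p * g * (s * M) * g := by rw [e1]; simp only [mul_assoc]
      _ = -(p * g * M * (s * g)) := by rw [e2]; simp only [mul_neg, neg_mul, mul_assoc]
      _ = -(p * g * M * g * s) := by rw [e1]; simp only [mul_assoc]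
  have a2 : g * M * g * (p * s) = g * M * p * g * s := by
    calc g * M * g * (p * s) = g * M * (g * p) * s := by simp only [mul_assoc]
      _ = g * M * (p * g) * s := by rw [e3]
      _ = _ := by simp only [mul_assoc]
  rw [a1, a2, e3]
  simp only [mul_sub, sub_mul, neg_sub, mul_assoc, neg_mul]
  abel

variable {r κ : ℕ}

theorem norm_le_one_mul {ι : Type*} [Fintype ι] [DecidableEq ι] {A B C : Matrix ι ι ℝ} (hA : ‖A‖ ≤ 1)
    (hC : ‖C‖ ≤ 1) : ‖A * B * C‖ ≤ ‖B‖ := by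
  calc ‖A * B * C‖ ≤ ‖A * B‖ * ‖C‖ := norm_mul_le _ _
    _ ≤ ‖A * B‖ * 1 := mul_le_mul_of_nonneg_left hC (norm_nonneg _)
    _ = ‖A * B‖ := mul_one _
    _ ≤ ‖A‖ * ‖B‖ := norm_mul_le _ _
    _ ≤ 1 * ‖B‖ := mul_le_mul_of_nonneg_right hA (norm_nonneg _)
    _ = ‖B‖ := one_mul _

theorem norm_Dg_G (R : ℕ) : ‖Dg R e (G r κ (sc q) : (Fin q → ℤ) → ℝ)‖ ≤ 1 :=
  norm_Dg_le zero_le_one fun x => by
    rw [abs_of_nonneg (G_nonneg x)]; exact G_le x

theorem norm_Sg (R : ℕ) (l : Fin q) : ‖Sl R q (d.Sg l)‖ ≤ 1 := by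
  apply norm_invol
  · rw [Sl_transpose, d.Sg_symm]
  · rw [Sl_mul, d.Sg_sq, Sl_one]

theorem norm_LL_le (R : ℕ) : ‖LL d R r κ‖ ≤ 1 := by
  have h1 : ‖DD d R r κ‖ ≤ 1 / 2 := by
    rw [DD]
    refine (norm_sum_le _ _).trans ?_
    calc ∑ l, ‖Dg R e (P r κ (sc q) l) * Sl R q (d.Sg l)‖ ≤ ∑ _l : Fin q, sc q := by
          refine Finset.sum_le_sum fun l _ => ?_
          calc ‖Dg R e (P r κ (sc q) l) * Sl R q (d.Sg l)‖
              ≤ ‖Dg R e (P r κ (sc q) l)‖ * ‖Sl R q (d.Sg l)‖ := norm_mul_le _ _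
            _ ≤ sc q * 1 := mul_le_mul
                (norm_Dg_le (sc_pos q).le fun x => P_abs (sc_pos q).le l x)
                (norm_Sg d R l) (norm_nonneg _) (sc_pos q).le
            _ = sc q := mul_one _
      _ = q * (1 / (2 * (q + 1))) := by simp [sc]
      _ ≤ 1 / 2 := by
          rw [mul_one_div, div_le_div_iff₀ (by positivity) (by norm_num)]
          linarith
  have h2 : ‖XX d R r κ‖ ≤ 1 / 2 := by
    rw [XX]
    exact (norm_le_one_mul (norm_Dg_G R) (norm_Dg_G R)).trans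
      (norm_Tp_le (by norm_num) d.K_sum)
  rw [LL]
  calc ‖DD d R r κ + XX d R r κ‖ ≤ ‖DD d R r κ‖ + ‖XX d R r κ‖ := norm_add_le _ _
    _ ≤ 1 := by linarith

theorem norm_DX_le (R : ℕ) : ‖DD d R r κ * XX d R r κ + XX d R r κ * DD d R r κ‖ ≤
    q * (sc q / κ * d.β * (1 / 2)) := by
  rw [DX]
  refine (norm_sum_le _ _).trans ?_
  calc ∑ l, ‖-(Dg R e (G r κ (sc q)) * (Dg R e (P r κ (sc q) l) * Tp R d.K -
      Tp R d.K * Dg R e (P r κ (sc q) l)) * Dg R e (G r κ (sc q))) * Sl R q (d.Sg l)‖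
      ≤ ∑ _l : Fin q, (sc q / κ * d.β * (1 / 2)) := by
        refine Finset.sum_le_sum fun l _ => ?_
        refine (norm_mul_le _ _).trans ?_
        rw [norm_neg]
        have h1 : ‖Dg R e (G r κ (sc q)) * (Dg R e (P r κ (sc q) l) * Tp R d.K -
            Tp R d.K * Dg R e (P r κ (sc q) l)) * Dg R e (G r κ (sc q))‖ ≤
            sc q / κ * d.β * (1 / 2) := by
          refine (norm_le_one_mul (norm_Dg_G R) (norm_Dg_G R)).trans ?_
          refine norm_comm_le (by norm_num) d.K_sum ?_ ?_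
          · have := sc_pos q
            positivity
          · intro x y hxy
            exact P_lip (sc_pos q).le l (d.K_band _ hxy)
        have h0 : 0 ≤ sc q / κ * d.β * (1 / 2) := by
          have := sc_pos q
          positivity
        calc _ ≤ (sc q / κ * d.β * (1 / 2)) * 1 :=
              mul_le_mul h1 (norm_Sg d R l) (norm_nonneg _) h0
          _ = _ := mul_one _
    _ = q * (sc q / κ * d.β * (1 / 2)) := by simp

theorem dot_Dg (R : ℕ) (f : (Fin q → ℤ) → ℝ) (v : Ix q R e → ℝ) :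
    v ⬝ᵥ (Dg R e f *ᵥ v) = ∑ p, f p.1.1 * (v p) ^ 2 := by
  rw [dotProduct]
  refine Finset.sum_congr rfl fun p _ => ?_
  rw [Dg, Matrix.mulVec_diagonal]
  ring

theorem abs_dot_le {ι : Type*} [Fintype ι] [DecidableEq ι] (T : Matrix ι ι ℝ) {δ : ℝ} (hδ : 0 < δ)
    (h : ‖T‖ ≤ δ) (v : ι → ℝ) : -(δ * (v ⬝ᵥ v)) ≤ v ⬝ᵥ (T *ᵥ v) := by
  have h1 := mulVec_sq_le T v
  have h0 := dot_nonneg v
  have h2 : (T *ᵥ v) ⬝ᵥ (T *ᵥ v) ≤ δ ^ 2 * (v ⬝ᵥ v) := by
    have : ‖T‖ ^ 2 ≤ δ ^ 2 := pow_le_pow_left₀ (norm_nonneg _) h 2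
    nlinarith
  have h3 := dot_nonneg (δ • v + T *ᵥ v)
  simp only [add_dotProduct, dotProduct_add, smul_dotProduct, dotProduct_smul, smul_eq_mul] at h3
  rw [dotProduct_comm (T *ᵥ v) v] at h3
  have h4 : 0 ≤ 2 * δ * (δ * (v ⬝ᵥ v) + v ⬝ᵥ (T *ᵥ v)) := by nlinarith
  have h5 : 0 ≤ δ * (v ⬝ᵥ v) + v ⬝ᵥ (T *ᵥ v) := by
    by_contra hc
    push Not at hc
    nlinarith
  linarith

/-- The lower bound for the localizer. -/
theorem LL_lower [Nonempty e] {c : ℝ} (hc0 : 0 ≤ c) (hc : ∀ f : GA q e, c * fsq f ≤ fsq (d.K * f))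
    (hκ : 0 < κ) {R : ℕ} (hR : r + κ + d.β ≤ R) (hq : 0 < q) {δ : ℝ} (hδ : 0 < δ)
    (h1 : q * (sc q / κ * d.β * (1 / 2)) ≤ δ) (h2 : 2 * (q * ((d.β : ℝ) / κ)) * (1 / 2) ≤ δ)
    (v : Ix q R e → ℝ) :
    (min ((sc q) ^ 2 / (4 * q)) (c / 2) - (δ + δ ^ 2)) * (v ⬝ᵥ v) ≤
      (LL d R r κ *ᵥ v) ⬝ᵥ (LL d R r κ *ᵥ v) := by
  set g := Dg R e (G r κ (sc q) : (Fin q → ℤ) → ℝ) with hg
  set M := Tp R d.K with hM
  set μ := min ((sc q) ^ 2 / (4 * q)) (c / 2) with hμ
  have hv0 := dot_nonneg v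
  -- expand the square
  have e1 : (LL d R r κ *ᵥ v) ⬝ᵥ (LL d R r κ *ᵥ v) =
      v ⬝ᵥ ((DD d R r κ * DD d R r κ) *ᵥ v) + (XX d R r κ *ᵥ v) ⬝ᵥ (XX d R r κ *ᵥ v) +
        v ⬝ᵥ ((DD d R r κ * XX d R r κ + XX d R r κ * DD d R r κ) *ᵥ v) := by
    rw [← dot_mulVec_symm (LL_symm d R r κ) v, ← dot_mulVec_symm (XX_symm d R r κ) v,
      mulVec_mulVec, mulVec_mulVec, ← dotProduct_add, ← dotProduct_add, ← add_mulVec,
      ← add_mulVec, LL]
    congr 2
    noncomm_ring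
  have e2 := abs_dot_le _ hδ ((norm_DX_le d R (r := r) (κ := κ)).trans h1) v
  have e3 : v ⬝ᵥ ((DD d R r κ * DD d R r κ) *ᵥ v) =
      ∑ p, (∑ l, (P r κ (sc q) l p.1.1) ^ 2) * (v p) ^ 2 := by
    rw [DD_sq, dot_Dg]
  -- the potential part
  set w := (g * g) *ᵥ v with hw
  set u := ((g * M - M * g) * g) *ᵥ v with hu
  have e4 : XX d R r κ *ᵥ v = M *ᵥ w + u := by
    rw [hw, hu, mulVec_mulVec, ← add_mulVec, XX]
    congr 1
    noncomm_ring
  have e5 : u ⬝ᵥ u ≤ δ ^ 2 * (v ⬝ᵥ v) := by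
    refine (mulVec_sq_le _ v).trans ?_
    apply mul_le_mul_of_nonneg_right _ hv0
    apply pow_le_pow_left₀ (norm_nonneg _)
    calc ‖(g * M - M * g) * g‖ ≤ ‖g * M - M * g‖ * ‖g‖ := norm_mul_le _ _
      _ ≤ ‖g * M - M * g‖ * 1 := mul_le_mul_of_nonneg_left (norm_Dg_G R) (norm_nonneg _)
      _ = ‖g * M - M * g‖ := mul_one _
      _ ≤ 2 * (q * ((d.β : ℝ) / κ)) * (1 / 2) := by
          refine norm_comm_le (by norm_num) d.K_sum (by positivity) ?_
          intro x y hxy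
          exact G_lip (sc_pos q) (d.K_band _ hxy)
      _ ≤ δ := h2
  have e6 : 1 / 2 * ((M *ᵥ w) ⬝ᵥ (M *ᵥ w)) - u ⬝ᵥ u ≤ (XX d R r κ *ᵥ v) ⬝ᵥ (XX d R r κ *ᵥ v) := by
    rw [e4]
    have h3 := dot_nonneg (M *ᵥ w + (2 : ℝ) • u)
    simp only [add_dotProduct, dotProduct_add, smul_dotProduct, dotProduct_smul, smul_eq_mul]
      at h3 ⊢
    rw [dotProduct_comm u (M *ᵥ w)] at h3 ⊢
    nlinarith
  have e7 : c * (w ⬝ᵥ w) ≤ (M *ᵥ w) ⬝ᵥ (M *ᵥ w) := by
    apply Tp_lower d.K_band hc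
    rintro x ⟨i, hi⟩
    have h3 : G r κ (sc q) x.1 ≠ 0 := by
      intro h4
      apply hi
      rw [hw, hg, Dg_mul, Dg, Matrix.mulVec_diagonal]
      simp only
      rw [h4]; ring
    refine (G_bd hκ (sc_pos q) h3).mono ?_
    have : ((r + κ : ℕ) : ℤ) + d.β ≤ R := by exact_mod_cast hR
    linarith
  have e8 : w ⬝ᵥ w = ∑ p : Ix q R e, (G r κ (sc q) p.1.1) ^ 4 * (v p) ^ 2 := by
    rw [dotProduct]
    refine Finset.sum_congr rfl fun p _ => ?_
    rw [hw, hg, Dg_mul, Dg, Matrix.mulVec_diagonal]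
    ring
  have e9 : μ * (v ⬝ᵥ v) ≤ ∑ p, (∑ l, (P r κ (sc q) l p.1.1) ^ 2) * (v p) ^ 2 +
      c / 2 * (w ⬝ᵥ w) := by
    rw [e8, dotProduct, Finset.mul_sum, Finset.mul_sum, ← Finset.sum_add_distrib]
    refine Finset.sum_le_sum fun p _ => ?_
    have h3 := (PG_lower (r := r) (κ := κ) hq (sc_pos q) (c := c) p.1.1).resolve_right
      (not_lt.mpr hc0)
    have h4 : 0 ≤ (v p) ^ 2 := sq_nonneg _
    have h5 := mul_le_mul_of_nonneg_right h3 h4
    calc μ * (v p * v p) = μ * (v p) ^ 2 := by ring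
      _ ≤ _ := h5
      _ = _ := by ring
  rw [e1, e3]
  nlinarith

theorem exists_scale {q β : ℕ} (_hq : 0 < q) {δ : ℝ} (hδ : 0 < δ) : ∃ κ : ℕ, 0 < κ ∧
    (q : ℝ) * (sc q / κ * β * (1 / 2)) ≤ δ ∧ 2 * ((q : ℝ) * ((β : ℝ) / κ)) * (1 / 2) ≤ δ := by
  obtain ⟨κ, hκ⟩ := exists_nat_gt (((q : ℝ) * β) / δ + 1)
  have h0 : (0 : ℝ) ≤ ((q : ℝ) * β) / δ := by positivity
  have hκ0 : (0 : ℝ) < κ := by linarith
  have h1 : (q : ℝ) * β ≤ δ * κ := by
    have : ((q : ℝ) * β) / δ ≤ κ := by linarith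
    rw [div_le_iff₀ hδ] at this
    linarith
  refine ⟨κ, by exact_mod_cast hκ0, ?_, ?_⟩
  · have h2 : sc q ≤ 1 := by
      rw [sc, div_le_one (by positivity)]
      have : (0 : ℝ) ≤ q := Nat.cast_nonneg q
      linarith
    have h3 : (q : ℝ) * (sc q / κ * β * (1 / 2)) = (sc q * (q * β) / 2) / κ := by
      field_simp
    rw [h3, div_le_iff₀ hκ0]
    have h4 := sc_pos q
    have h5 : (0 : ℝ) ≤ q * β := by positivity
    nlinarith
  · have h3 : 2 * ((q : ℝ) * ((β : ℝ) / κ)) * (1 / 2) = (q * β) / κ := by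
      field_simp
    rw [h3, div_le_iff₀ hκ0]
    exact h1

/-- The localizer is almost an involution, uniformly in the size of the core. -/
theorem exists_gap [Nonempty e] (hq : 0 < q) : ∃ θ : ℝ, 0 ≤ θ ∧ θ < 1 ∧ ∃ κ : ℕ, ∀ r : ℕ,
    ‖1 - LL d (r + κ + d.β) r κ * LL d (r + κ + d.β) r κ‖ ≤ θ := by
  obtain ⟨c, hc0, hc⟩ := d.K_low
  set μ := min ((sc q) ^ 2 / (4 * q)) (c / 2) with hμ
  have hsc := sc_pos q
  have hq' : (0 : ℝ) < q := by exact_mod_cast hq
  have hμ0 : 0 < μ := lt_min (by positivity) (by positivity)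
  have hμ1 : μ ≤ 1 := by
    refine (min_le_left _ _).trans ?_
    rw [div_le_one (by positivity), sc, div_pow, one_pow, div_le_iff₀ (by positivity)]
    have : (1 : ℝ) ≤ q := by exact_mod_cast hq
    nlinarith
  set δ := μ / 4 with hδ
  have hδ0 : 0 < δ := by positivity
  obtain ⟨κ, hκ, h1, h2⟩ := exists_scale (β := d.β) hq hδ0
  refine ⟨1 - μ / 2, by linarith, by linarith, κ, fun r => ?_⟩
  apply one_sub_sq (LL_symm d _ _ _) (norm_LL_le d _) (by linarith)
  intro v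
  refine le_trans ?_ (LL_lower d hc0.le hc hκ le_rfl hq hδ0 h1 h2 v)
  apply mul_le_mul_of_nonneg_right _ (dot_nonneg v)
  have : δ ^ 2 ≤ δ := by
    have : δ ≤ 1 := by linarith
    nlinarith
  linarith

theorem Sl_LL_comm {A : Matrix e e ℝ} (h1 : ∀ l, A * d.Sg l = d.Sg l * A)
    (h2 : ∀ z, A * d.K.coeff z = d.K.coeff z * A) (R : ℕ) :
    Sl R q A * LL d R r κ = LL d R r κ * Sl R q A := by
  rw [LL, mul_add, add_mul]
  congr 1
  · rw [DD, Finset.sum_mul, Finset.mul_sum]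
    refine Finset.sum_congr rfl fun l _ => ?_
    rw [← mul_assoc, ← Dg_Sl, mul_assoc, mul_assoc, Sl_mul, Sl_mul, h1]
  · rw [XX]
    calc Sl R q A * (Dg R e (G r κ (sc q)) * Tp R d.K * Dg R e (G r κ (sc q)))
        = (Sl R q A * Dg R e (G r κ (sc q))) * Tp R d.K * Dg R e (G r κ (sc q)) := by
          simp only [mul_assoc]
      _ = Dg R e (G r κ (sc q)) * (Sl R q A * Tp R d.K) * Dg R e (G r κ (sc q)) := by
          rw [← Dg_Sl]; simp only [mul_assoc]
      _ = Dg R e (G r κ (sc q)) * Tp R d.K * (Sl R q A * Dg R e (G r κ (sc q))) := by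
          rw [Sl_Tp_comm h2]; simp only [mul_assoc]
      _ = _ := by rw [← Dg_Sl]; simp only [mul_assoc]

theorem Sl_LL_anti {A : Matrix e e ℝ} (h1 : ∀ l, A * d.Sg l = -(d.Sg l * A))
    (h2 : ∀ z, A * d.K.coeff z = -(d.K.coeff z * A)) (R : ℕ) :
    Sl R q A * LL d R r κ = -(LL d R r κ * Sl R q A) := by
  rw [LL, mul_add, add_mul, neg_add]
  congr 1
  · rw [DD, Finset.sum_mul, Finset.mul_sum, ← Finset.sum_neg_distrib]
    refine Finset.sum_congr rfl fun l _ => ?_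
    rw [← mul_assoc, ← Dg_Sl, mul_assoc, mul_assoc, Sl_mul, Sl_mul, h1, Sl_neg, mul_neg]
  · rw [XX]
    calc Sl R q A * (Dg R e (G r κ (sc q)) * Tp R d.K * Dg R e (G r κ (sc q)))
        = (Sl R q A * Dg R e (G r κ (sc q))) * Tp R d.K * Dg R e (G r κ (sc q)) := by
          simp only [mul_assoc]
      _ = Dg R e (G r κ (sc q)) * (Sl R q A * Tp R d.K) * Dg R e (G r κ (sc q)) := by
          rw [← Dg_Sl]; simp only [mul_assoc]
      _ = -(Dg R e (G r κ (sc q)) * Tp R d.K * (Sl R q A * Dg R e (G r κ (sc q)))) := by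
          rw [Sl_Tp_anti h2]; simp only [mul_assoc, mul_neg, neg_mul]
      _ = _ := by rw [← Dg_Sl]; simp only [mul_assoc]

theorem Rf_LL_comm (R : ℕ) : Rf R q d.g0 * LL d R r κ = LL d R r κ * Rf R q d.g0 := by
  apply blk_ext
  intro x y
  rw [Rf_mul_blk, mul_Rf_blk, LL, blk_add, blk_add, mul_add, add_mul]
  congr 1
  · have hD : ∀ x y : Bx q R, blk (DD d R r κ) x y =
        ∑ l, P r κ (sc q) l x.1 • (if x = y then d.Sg l else 0) := by
      intro x y
      have h0 : ∀ (s : Finset (Fin q)) (F : Fin q → Matrix (Ix q R e) (Ix q R e) ℝ),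
          blk (∑ l ∈ s, F l) x y = ∑ l ∈ s, blk (F l) x y := by
        intro s F
        ext i j
        simp only [blk, Matrix.of_apply, Matrix.sum_apply]
      rw [DD, h0]
      refine Finset.sum_congr rfl fun l _ => ?_
      rw [blk_Dg_mul, blk_Sl]
    rw [hD, hD, Finset.mul_sum, Finset.sum_mul]
    refine Finset.sum_congr rfl fun l _ => ?_
    rw [ng_val, P_neg]
    by_cases h : ng x = y
    · have h' : x = ng y := by rw [← h, ng_ng]
      rw [if_pos h, if_pos h', mul_smul_comm, smul_mul_assoc, d.g0_Sg, smul_neg, neg_smul, neg_neg]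
    · have h' : ¬ x = ng y := by
        intro h'
        apply h
        rw [h', ng_ng]
      rw [if_neg h, if_neg h', smul_zero, smul_zero, mul_zero, zero_mul]
  · rw [XX, blk_mul_Dg, blk_Dg_mul, blk_mul_Dg, blk_Dg_mul, blk_Tp, blk_Tp, ng_val, ng_val, G_neg,
      G_neg, mul_smul_comm, mul_smul_comm, smul_mul_assoc, smul_mul_assoc, d.g0_K]
    congr 4
    abel

theorem agree_LL (R : ℕ) (hR : r + κ + d.β ≤ R) :
    Agree ((r : ℤ) - d.β) d.β (LL d R r κ) d.K := by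
  have hD : ∀ x y : Bx q R, blk (DD d R r κ) x y =
      ∑ l, P r κ (sc q) l x.1 • (if x = y then d.Sg l else 0) := by
    intro x y
    have h0 : ∀ (s : Finset (Fin q)) (F : Fin q → Matrix (Ix q R e) (Ix q R e) ℝ),
        blk (∑ l ∈ s, F l) x y = ∑ l ∈ s, blk (F l) x y := by
      intro s F
      ext i j
      simp only [blk, Matrix.of_apply, Matrix.sum_apply]
    rw [DD, h0]
    refine Finset.sum_congr rfl fun l _ => ?_
    rw [blk_Dg_mul, blk_Sl]
  have hX : ∀ x y : Bx q R, blk (XX d R r κ) x y =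
      G r κ (sc q) y.1 • G r κ (sc q) x.1 • d.K.coeff (x.1 - y.1) := by
    intro x y
    rw [XX, blk_mul_Dg, blk_Dg_mul, blk_Tp]
  refine ⟨fun x y hxy => ?_, d.K_band, fun x y hx => ?_⟩
  · rw [LL, blk_add, hD, hX] at hxy
    by_cases h : x = y
    · subst h
      intro i
      simp
    · apply d.K_band
      intro hc
      apply hxy
      rw [hc, smul_zero, smul_zero, add_zero]
      apply Finset.sum_eq_zero
      intro l _
      rw [if_neg h, smul_zero]
  · rw [LL, blk_add, hD, hX]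
    have hx' : Bd r x.1 := hx.mono (by
      have : (0 : ℤ) ≤ d.β := Int.natCast_nonneg _
      linarith)
    have h1 : ∑ l, P r κ (sc q) l x.1 • (if x = y then d.Sg l else 0) = 0 := by
      apply Finset.sum_eq_zero
      intro l _
      rw [P_zero hx', zero_smul]
    rw [h1, zero_add, G_one hx', one_smul]
    by_cases hk : d.K.coeff (x.1 - y.1) = 0
    · rw [hk, smul_zero]
    · have h2 : Bd r y.1 := by
        have h3 := (hx.sub (d.K_band _ hk)).mono (s := r) (by linarith)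
        rwa [sub_sub_cancel] at h3
      rw [G_one h2, one_smul]

end Pool.Agent.Helper10K9.Lo
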