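import Mathlib
import Pool.Agent.Helper10K9.Loc
import Pool.Agent.Helper10K9.Integr

/-!
# The index theorem for the localizer
-/

set_option autoImplicit false

open scoped Matrix.Norms.L2Operator
open Matrix Filter Topology Pool.Agent.Helper10K9.FL Pool.Agent.Helper10K9.Bo
  Pool.Agent.Helper10K9.Nw Pool.Agent.Helper10K9.Tr Pool.Agent.Helper10K9.Sc
  Pool.Agent.Helper10K9.Lo Pool.Agent.Helper10K9.Ig

namespace Pool.Agent.Helper10K9.Mn

theorem nw_symm {ι : Type*} [Fintype ι] [DecidableEq ι] {L : Matrix ι ι ℝ} (hL : Lᵀ = L) (j : ℕ) :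
    (nw L j)ᵀ = nw L j := by
  induction j with
  | zero => exact hL
  | succ j ih =>
    rw [nw_succ, Matrix.transpose_smul, Matrix.transpose_mul, Matrix.transpose_sub,
      Matrix.transpose_mul, ih, three_eq, Matrix.transpose_smul, Matrix.transpose_one]
    congr 1
    rw [sub_mul, mul_sub, smul_mul_assoc, mul_smul_comm, one_mul, mul_one, mul_assoc]

section lim

variable {ι : Type*} [Fintype ι] [DecidableEq ι] {L : Matrix ι ι ℝ} {θ : ℝ}

theorem nw_norm (hL : Lᵀ = L) (hθ : θ < 1) (h : ‖1 - L * L‖ ≤ θ) (j : ℕ) : ‖nw L j‖ ≤ 2 := by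
  apply norm_le_two (nw_symm hL j)
  have h1 := er_norm (L := L) hθ.le h j
  refine h1.trans (pow_le_one₀ ((norm_nonneg _).trans h) hθ.le)

/-- The limit of the iteration, and the speed of convergence. -/
theorem nw_limit (hL : Lᵀ = L) (hθ : θ < 1) (h : ‖1 - L * L‖ ≤ θ) :
    ∃ F : Matrix ι ι ℝ, Tendsto (nw L) atTop (𝓝 F) ∧ F * F = 1 ∧
      ∀ J, ‖F - nw L J‖ ≤ θ ^ (2 ^ J) / (1 - θ) := by
  have h0 : 0 ≤ θ := (norm_nonneg _).trans h
  obtain ⟨F, hF, hFF⟩ := nw_lim hθ h (nw_norm hL hθ h)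
  refine ⟨F, hF, hFF, fun J => ?_⟩
  have hF' : Tendsto (fun i => nw L (i + J)) atTop (𝓝 F) := (tendsto_add_atTop_iff_nat J).mpr hF
  have hd : ∀ i, dist (nw L (i + J)) (nw L (i + 1 + J)) ≤ θ ^ (2 ^ J) * θ ^ i := by
    intro i
    rw [show i + 1 + J = (i + J) + 1 by ring, dist_comm, dist_eq_norm, nw_succ',
      add_sub_cancel_left, norm_smul, Real.norm_of_nonneg (by norm_num : (0 : ℝ) ≤ 1 / 2)]
    have h1 : ‖nw L (i + J) * er L (i + J)‖ ≤ 2 * θ ^ (2 ^ (i + J)) :=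
      (norm_mul_le _ _).trans (mul_le_mul (nw_norm hL hθ h _) (er_norm hθ.le h _) (norm_nonneg _)
        (by norm_num))
    have h2 : θ ^ (2 ^ (i + J)) ≤ θ ^ (2 ^ J) * θ ^ i := by
      rw [← pow_add]
      apply pow_le_pow_of_le_one h0 hθ.le
      have h3 : i + 1 ≤ 2 ^ i := Nat.lt_two_pow_self
      have h4 : 1 ≤ 2 ^ J := Nat.one_le_two_pow
      rw [pow_add]
      nlinarith
    linarith
  have h1 := dist_le_of_le_geometric_of_tendsto₀ θ (θ ^ (2 ^ J)) hθ hd hF'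
  rw [zero_add, dist_comm, dist_eq_norm] at h1
  exact h1

end lim

variable {q : ℕ} {e : Type} [Fintype e] [DecidableEq e]

theorem Rf_sq {R : ℕ} {A : Matrix e e ℝ} (hA : A * A = 1) : Rf R q A * Rf R q A = 1 := by
  apply blk_ext
  intro x y
  rw [Rf_mul_blk, blk_Rf, ng_ng, blk_one]
  split_ifs
  · exact hA
  · exact mul_zero _

theorem Rf_symm {R : ℕ} {A : Matrix e e ℝ} (hA : Aᵀ = A) : (Rf R q A)ᵀ = Rf R q A := by
  ext ⟨x, i⟩ ⟨y, j⟩
  rw [Matrix.transpose_apply, Rf, Matrix.of_apply, Matrix.of_apply]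
  simp only
  have h : ng y = x ↔ ng x = y := by
    constructor
    · rintro rfl; exact ng_ng _
    · rintro rfl; exact ng_ng _
  by_cases h' : ng x = y
  · rw [if_pos h', if_pos (h.mpr h')]
    exact congrFun (congrFun hA i) j
  · rw [if_neg h', if_neg (fun hc => h' (h.mp hc))]

theorem Sl_Rf_comm {R : ℕ} {A B : Matrix e e ℝ} (h : A * B = B * A) :
    Sl R q A * Rf R q B = Rf R q B * Sl R q A := by
  apply blk_ext
  intro x y
  rw [Rf_mul_blk, mul_Rf_blk, blk_Sl, blk_Sl]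
  by_cases h1 : ng x = y
  · rw [if_pos h1, if_pos (by rw [← h1, ng_ng]), h]
  · rw [if_neg h1, if_neg (fun hc => h1 (by rw [hc, ng_ng])), mul_zero, zero_mul]

theorem Sl_Rf_anti {R : ℕ} {A B : Matrix e e ℝ} (h : A * B = -(B * A)) :
    Sl R q A * Rf R q B = -(Rf R q B * Sl R q A) := by
  apply blk_ext
  intro x y
  have h0 : blk (-(Rf R q B * Sl R q A)) x y = -blk (Rf R q B * Sl R q A) x y := rfl
  rw [h0, Rf_mul_blk, mul_Rf_blk, blk_Sl, blk_Sl]
  by_cases h1 : ng x = y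
  · rw [if_pos h1, if_pos (by rw [← h1, ng_ng]), h]
  · rw [if_neg h1, if_neg (fun hc => h1 (by rw [hc, ng_ng])), mul_zero, zero_mul, neg_zero]

theorem lim_comm {ι : Type*} [Fintype ι] [DecidableEq ι] {L F g : Matrix ι ι ℝ}
    (hF : Tendsto (nw L) atTop (𝓝 F)) (h : g * L = L * g) : g * F = F * g := by
  have h1 : Tendsto (fun j => g * nw L j) atTop (𝓝 (g * F)) := hF.const_mul g
  have h2 : Tendsto (fun j => nw L j * g) atTop (𝓝 (F * g)) := hF.mul_const g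
  have h3 : (fun j => g * nw L j) = fun j => nw L j * g := funext fun j => nw_commute h j
  rw [h3] at h1
  exact tendsto_nhds_unique h1 h2

theorem lim_anti {ι : Type*} [Fintype ι] [DecidableEq ι] {L F g : Matrix ι ι ℝ}
    (hF : Tendsto (nw L) atTop (𝓝 F)) (h : g * L = -(L * g)) : g * F = -(F * g) := by
  have h1 : Tendsto (fun j => g * nw L j) atTop (𝓝 (g * F)) := hF.const_mul g
  have h2 : Tendsto (fun j => -(nw L j * g)) atTop (𝓝 (-(F * g))) := (hF.mul_const g).neg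
  have h3 : (fun j => g * nw L j) = fun j => -(nw L j * g) := funext fun j => nw_anti h j
  rw [h3] at h1
  exact tendsto_nhds_unique h1 h2

/-- the matrices of the data -/
def DS (d : Dat q e) : Set (Matrix e e ℝ) :=
  {X | (∃ l, X = d.Sg l) ∨ (∃ z, X = d.K.coeff z) ∨ X = d.g0}

theorem card_box (R : ℕ) : Fintype.card (Bx q R) = (2 * R + 1) ^ q := by
  rw [Fintype.card_coe, Pi.card_Icc]
  simp only [Int.card_Icc, sub_neg_eq_add, Finset.prod_const, Finset.card_univ, Fintype.card_fin]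
  congr 1
  omega

theorem trace_abs_le {ι : Type*} [Fintype ι] [DecidableEq ι] (T : Matrix ι ι ℝ) :
    |T.trace| ≤ Fintype.card ι * ‖T‖ := by
  rw [Matrix.trace]
  refine (Finset.abs_sum_le_sum_abs _ _).trans ?_
  calc ∑ i, |T.diag i| ≤ ∑ _i : ι, ‖T‖ := Finset.sum_le_sum fun i _ => abs_entry_le T i i
    _ = _ := by simp

theorem decay (q : ℕ) {θ : ℝ} (h0 : 0 ≤ θ) (h1 : θ < 1) :
    Tendsto (fun J : ℕ => ((3 : ℝ) ^ q) ^ J * θ ^ (2 ^ J)) atTop (𝓝 0) := by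
  have h2 : Tendsto (fun n : ℕ => (n : ℝ) ^ (2 * q) * θ ^ n) atTop (𝓝 0) :=
    tendsto_pow_const_mul_const_pow_of_abs_lt_one (2 * q) (by rwa [abs_of_nonneg h0])
  have h3 : Tendsto (fun J : ℕ => 2 ^ J) atTop atTop :=
    tendsto_pow_atTop_atTop_of_one_lt (by norm_num : (1 : ℕ) < 2)
  have h4 := h2.comp h3
  refine squeeze_zero (fun J => by positivity) (fun J => ?_) h4
  simp only [Function.comp_apply]
  apply mul_le_mul_of_nonneg_right _ (by positivity)
  push_cast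
  calc ((3 : ℝ) ^ q) ^ J ≤ ((4 : ℝ) ^ q) ^ J := by gcongr; norm_num
    _ = ((2 : ℝ) ^ J) ^ (2 * q) := by
      rw [show (4 : ℝ) = 2 ^ 2 by norm_num, ← pow_mul, ← pow_mul, ← pow_mul]
      congr 1
      ring

/-- The index theorem: the limit trace is a multiple of `4c`. -/
theorem main [Nonempty e] (d : Dat q e) (hg0 : d.g0ᵀ = d.g0) (hq : 0 < q) {c : ℕ}
    (hc : CommCase c (DS d)) {ζ ζ' : Matrix e e ℝ} (hζ : ζ * ζ' = 1)
    (hζS : ∀ l, ζ * d.Sg l = -(d.Sg l * ζ)) (hζK : ∀ z, ζ * d.K.coeff z = -(d.K.coeff z * ζ))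
    (hζg : ζ * d.g0 = -(d.g0 * ζ)) (hdim : 4 * c ∣ Fintype.card e) {ρ : ℝ}
    (hρ : Tendsto (fun j => ((2 : ℝ) ^ q)⁻¹ * ∑ ε : Fin q → ℤˣ,
      (d.g0 * nw (ev (chR ε) d.K) j).trace) atTop (𝓝 ρ)) :
    ∃ k : ℤ, ρ = 4 * (c : ℝ) * k := by
  classical
  have hcpos : 0 < c := by
    rcases hc with h | ⟨h, _⟩ | ⟨h, _⟩ <;> omega
  obtain ⟨θ, hθ0, hθ1, κ, hgap⟩ := exists_gap d hq
  -- the trace of the limit
  have key : ∀ J : ℕ, ∃ a : ℤ, |4 * (c : ℝ) * a - ((2 : ℝ) ^ q)⁻¹ * ∑ ε : Fin q → ℤˣ,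
      (d.g0 * nw (ev (chR ε) d.K) J).trace| ≤
      (Fintype.card e * (2 * (2 * d.β + κ + d.β) + 1) ^ q / (1 - θ)) *
        (((3 : ℝ) ^ q) ^ J * θ ^ (2 ^ J)) := by
    intro J
    set r : ℕ := 2 * (3 ^ J * d.β) with hr
    set R : ℕ := r + κ + d.β with hR
    set L := LL d R r κ with hL
    have hLs : Lᵀ = L := LL_symm d R r κ
    obtain ⟨F, hF, hFF, hFJ⟩ := nw_limit hLs hθ1 (hgap r)
    set g := Rf R q d.g0 with hg
    have hgg : g * g = 1 := Rf_sq d.g0_sq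
    have hgs : gᵀ = g := Rf_symm hg0
    have hgL : g * L = L * g := Rf_LL_comm d R
    have hgF : g * F = F * g := lim_comm hF hgL
    have hζζ : Sl R q ζ * Sl R q ζ' = 1 := by rw [Sl_mul, hζ, Sl_one]
    have hζL : Sl R q ζ * L = -(L * Sl R q ζ) := Sl_LL_anti d hζS hζK R
    have hζF : Sl R q ζ * F = -(F * Sl R q ζ) := lim_anti hF hζL
    have hζg' : Sl R q ζ * g = -(g * Sl R q ζ) := Sl_Rf_anti hζg
    -- the commutant
    have hcomm : ∀ A : Matrix e e ℝ, (∀ X ∈ DS d, A * X = X * A) →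
        ∀ X ∈ ({F, g} : Set (Matrix (Ix q R e) (Ix q R e) ℝ)),
          Sl R q A * X = X * Sl R q A := by
      intro A hA X hX
      rcases hX with rfl | hX
      · exact lim_comm hF (Sl_LL_comm d (fun l => hA _ (Or.inl ⟨l, rfl⟩))
          (fun z => hA _ (Or.inr (Or.inl ⟨z, rfl⟩))) R)
      · rw [Set.mem_singleton_iff] at hX
        rw [hX]
        exact Sl_Rf_comm (hA _ (Or.inr (Or.inr rfl)))
    have hS : CommCase c ({F, g} : Set (Matrix (Ix q R e) (Ix q R e) ℝ)) := by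
      rcases hc with h | ⟨h, I, hI, hA⟩ | ⟨h, I, I', hI, hI', hII, hA⟩
      · exact Or.inl h
      · refine Or.inr (Or.inl ⟨h, Sl R q I, ?_, hcomm I hA⟩)
        rw [Sl_mul, hI, Sl_neg, Sl_one]
      · refine Or.inr (Or.inr ⟨h, Sl R q I, Sl R q I', ?_, ?_, ?_, fun X hX =>
          ⟨hcomm I (fun Y hY => (hA Y hY).1) X hX, hcomm I' (fun Y hY => (hA Y hY).2) X hX⟩⟩)
        · rw [Sl_mul, hI, Sl_neg, Sl_one]
        · rw [Sl_mul, hI', Sl_neg, Sl_one]
        · rw [Sl_mul, hII, Sl_neg, Sl_mul]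
    obtain ⟨k, hck, hk⟩ := trace_prod hS F g (Sl R q ζ) (Sl R q ζ') hFF hgg hgF hζζ hζF hζg'
      (Set.mem_insert _ _) (Set.mem_insert_of_mem _ rfl)
    obtain ⟨k', rfl⟩ := hck
    obtain ⟨m, hm⟩ := hdim
    refine ⟨(k' : ℤ) - (2 * R + 1) ^ q * m, ?_⟩
    have hcard : Fintype.card (Ix q R e) = (2 * R + 1) ^ q * (4 * c * m) := by
      rw [Fintype.card_prod, card_box, hm]
    have e1 : 4 * (c : ℝ) * (((k' : ℤ) - (2 * R + 1) ^ q * m : ℤ) : ℝ) = (g * F).trace := by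
      rw [hk, hcard]
      push_cast
      ring
    -- the trace formula at the finite stage
    have e2 : (g * nw L J).trace = ((2 : ℝ) ^ q)⁻¹ * ∑ ε : Fin q → ℤˣ,
        (d.g0 * nw (ev (chR ε) d.K) J).trace := by
      have h1 := agree_nw (R₀ := (r : ℤ)) (Int.natCast_nonneg d.β)
        (by rw [hR]; push_cast; linarith [Int.natCast_nonneg κ, Int.natCast_nonneg d.β])
        (agree_LL d (r := r) (κ := κ) R le_rfl) J
      have h2 : (r : ℤ) = 2 * (3 ^ J * d.β) := by rw [hr]; push_cast; ring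
      have h3 : (0 : ℤ) ≤ 3 ^ J * d.β := by positivity
      rw [hg, trace_Rf d.g0 h1 (by rw [h2]; linarith) (by
        rw [hR]; push_cast; rw [h2]
        linarith [Int.natCast_nonneg κ, Int.natCast_nonneg d.β])]
      congr 1
      refine Finset.sum_congr rfl fun ε _ => ?_
      rw [ev_nw]
    rw [e1, ← e2, ← Matrix.trace_sub, ← mul_sub]
    have e3 : ‖g * (F - nw L J)‖ ≤ θ ^ (2 ^ J) / (1 - θ) := by
      calc ‖g * (F - nw L J)‖ ≤ ‖g‖ * ‖F - nw L J‖ := norm_mul_le _ _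
        _ ≤ 1 * ‖F - nw L J‖ :=
          mul_le_mul_of_nonneg_right (norm_invol hgs hgg) (norm_nonneg _)
        _ = ‖F - nw L J‖ := one_mul _
        _ ≤ _ := hFJ J
    have e4 : (Fintype.card (Ix q R e) : ℝ) ≤
        Fintype.card e * (2 * (2 * d.β + κ + d.β) + 1) ^ q * ((3 : ℝ) ^ q) ^ J := by
      rw [Fintype.card_prod, card_box]
      push_cast
      have h1 : (2 * (R : ℝ) + 1) ≤ (2 * (2 * d.β + κ + d.β) + 1) * 3 ^ J := by
        have h3 : (1 : ℝ) ≤ 3 ^ J := one_le_pow₀ (by norm_num)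
        rw [hR, hr]
        push_cast
        have h4 : (0 : ℝ) ≤ κ := Nat.cast_nonneg _
        have h5 : (0 : ℝ) ≤ d.β := Nat.cast_nonneg _
        nlinarith
      calc (2 * (R : ℝ) + 1) ^ q * (Fintype.card e : ℝ)
          ≤ ((2 * (2 * d.β + κ + d.β) + 1) * 3 ^ J) ^ q * (Fintype.card e : ℝ) := by
            apply mul_le_mul_of_nonneg_right _ (Nat.cast_nonneg _)
            exact pow_le_pow_left₀ (by positivity) h1 q
        _ = _ := by
            rw [mul_pow, ← pow_mul, ← pow_mul, mul_comm J q]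
            ring
    refine (trace_abs_le _).trans ?_
    calc (Fintype.card (Ix q R e) : ℝ) * ‖g * (F - nw L J)‖
        ≤ (Fintype.card e * (2 * (2 * d.β + κ + d.β) + 1) ^ q * ((3 : ℝ) ^ q) ^ J) *
          (θ ^ (2 ^ J) / (1 - θ)) :=
          mul_le_mul e4 e3 (norm_nonneg _) (by positivity)
      _ = _ := by ring
  choose a ha using key
  have hlim : Tendsto (fun J => 4 * (c : ℝ) * a J) atTop (𝓝 ρ) := by
    have h1 : Tendsto (fun J => 4 * (c : ℝ) * a J - ((2 : ℝ) ^ q)⁻¹ * ∑ ε : Fin q → ℤˣ,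
        (d.g0 * nw (ev (chR ε) d.K) J).trace) atTop (𝓝 0) := by
      rw [tendsto_zero_iff_abs_tendsto_zero]
      have h2 := (decay q hθ0 hθ1).const_mul
        (Fintype.card e * (2 * (2 * d.β + κ + d.β) + 1) ^ q / (1 - θ))
      rw [mul_zero] at h2
      exact squeeze_zero (fun _ => abs_nonneg _) ha h2
    have h3 := h1.add hρ
    simpa using h3
  have hc' : (4 * (c : ℝ)) ≠ 0 := by positivity
  have hlim2 : Tendsto (fun J => ((a J : ℤ) : ℝ)) atTop (𝓝 (ρ / (4 * c))) := by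
    have h1 := hlim.div_const (4 * (c : ℝ))
    refine h1.congr fun J => ?_
    field_simp
  have hmem : ρ / (4 * (c : ℝ)) ∈ Set.range (fun k : ℤ => (k : ℝ)) :=
    Int.isClosedEmbedding_coe_real.isClosed_range.mem_of_tendsto hlim2
      (Eventually.of_forall fun J => ⟨a J, rfl⟩)
  obtain ⟨k, hk⟩ := hmem
  refine ⟨k, ?_⟩
  simp only at hk
  rw [hk]
  field_simp

end Pool.Agent.Helper10K9.Mn
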