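import Mathlib
import Pool.Agent.Helper10K9.KerB
import Pool.Agent.Helper10K9.MainT

/-!
# The data of the localizer
-/

set_option autoImplicit false

open scoped Kronecker ComplexConjugate
open Matrix UnitAddTorus Filter Topology Pool.Agent.Helper10K9.FL Pool.Agent.Helper10K9.Bo
  Pool.Agent.Helper10K9.Tr Pool.Agent.Helper10K9.Ke Pool.Agent.Helper10K9.Kb
  Pool.Agent.Helper10K9.Lo Pool.Agent.Helper10K9.Mn Pool.Agent.Helper10K9.Ig
  Pool.Agent.Helper10K9.Nw

namespace Pool.Agent.Helper10K9.Kc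

/-- Clifford data: anticommuting symmetric involutions with a large commutant. -/
structure Clf (q c : ℕ) (a : Type) [Fintype a] [DecidableEq a] where
  /-- generators -/
  σ : Fin q → Matrix a a ℝ
  /-- last symmetric generator -/
  Γ : Matrix a a ℝ
  /-- an invertible element anticommuting with all generators -/
  ζ : Matrix a a ℝ
  /-- its inverse -/
  ζ' : Matrix a a ℝ
  σ_symm : ∀ l, (σ l)ᵀ = σ l
  σ_sq : ∀ l, σ l * σ l = 1
  σ_anti : ∀ l l', l ≠ l' → σ l * σ l' = -(σ l' * σ l)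
  Γ_symm : Γᵀ = Γ
  Γ_sq : Γ * Γ = 1
  Γ_anti : ∀ l, Γ * σ l = -(σ l * Γ)
  ζ_inv : ζ * ζ' = 1
  ζ_σ : ∀ l, ζ * σ l = -(σ l * ζ)
  ζ_Γ : ζ * Γ = -(Γ * ζ)
  comm : CommCase c ({X | (∃ l, X = σ l) ∨ X = Γ} : Set (Matrix a a ℝ))

variable {q c N : ℕ} {a : Type} [Fintype a] [DecidableEq a] {e : Type} [Fintype e] [DecidableEq e]

/-- The transposed kernel. -/
noncomputable def tk (f : GA q e) : GA q e :=
  AddMonoidAlgebra.ofCoeff (f.coeff.mapRange Matrix.transpose Matrix.transpose_zero)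

theorem tk_coeff (f : GA q e) (z : Fin q → ℤ) : (tk f).coeff z = (f.coeff z)ᵀ := rfl

theorem tk_supp (f : GA q e) : (tk f).coeff.support ⊆ f.coeff.support := by
  intro z hz
  rw [Finsupp.mem_support_iff, tk_coeff] at hz
  rw [Finsupp.mem_support_iff]
  intro h
  apply hz
  rw [h, Matrix.transpose_zero]

theorem ev_tk {S : Type} [CommRing S] [Algebra ℝ S] (χ : Multiplicative (Fin q → ℤ) →* S)
    (f : GA q e) : ev χ (tk f) = (ev χ f)ᵀ := by
  ext i j
  rw [Matrix.transpose_apply, ev_eq_sum χ (tk f) (tk_supp f), ev_eq_sum χ f subset_rfl]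
  rfl

/-- The support set of a block kernel. -/
noncomputable def bS (f11 f12 f21 f22 : GA q (Fin N)) : Finset (Fin q → ℤ) :=
  (f11.coeff.support ∪ f12.coeff.support) ∪ (f21.coeff.support ∪ f22.coeff.support)

/-- Block kernels. -/
noncomputable def blk4 (Γ : Matrix a a ℝ) (f11 f12 f21 f22 : GA q (Fin N)) :
    GA q (a × (Fin N ⊕ Fin N)) :=
  AddMonoidAlgebra.ofCoeff (Finsupp.onFinset (bS f11 f12 f21 f22)
    (fun z => Γ ⊗ₖ Matrix.fromBlocks (f11.coeff z) (f12.coeff z) (f21.coeff z) (f22.coeff z))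
    (by
      intro z hz
      by_contra hcon
      simp only [bS, Finset.mem_union, Finsupp.mem_support_iff, not_or, not_not] at hcon
      apply hz
      rw [hcon.1.1, hcon.1.2, hcon.2.1, hcon.2.2, Matrix.fromBlocks_zero, Matrix.kronecker_zero]))

theorem blk4_coeff (Γ : Matrix a a ℝ) (f11 f12 f21 f22 : GA q (Fin N)) (z : Fin q → ℤ) :
    (blk4 Γ f11 f12 f21 f22).coeff z =
      Γ ⊗ₖ Matrix.fromBlocks (f11.coeff z) (f12.coeff z) (f21.coeff z) (f22.coeff z) := rfl

theorem blk4_supp (Γ : Matrix a a ℝ) (f11 f12 f21 f22 : GA q (Fin N)) :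
    (blk4 Γ f11 f12 f21 f22).coeff.support ⊆ bS f11 f12 f21 f22 := by
  intro z hz
  rw [Finsupp.mem_support_iff, blk4_coeff] at hz
  by_contra hcon
  simp only [bS, Finset.mem_union, Finsupp.mem_support_iff, not_or, not_not] at hcon
  apply hz
  rw [hcon.1.1, hcon.1.2, hcon.2.1, hcon.2.2, Matrix.fromBlocks_zero, Matrix.kronecker_zero]

theorem ev_blk4 {S : Type} [CommRing S] [Algebra ℝ S] (χ : Multiplicative (Fin q → ℤ) →* S)
    (Γ : Matrix a a ℝ) (f11 f12 f21 f22 : GA q (Fin N)) :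
    ev χ (blk4 Γ f11 f12 f21 f22) = (Γ.map (algebraMap ℝ S)) ⊗ₖ
      Matrix.fromBlocks (ev χ f11) (ev χ f12) (ev χ f21) (ev χ f22) := by
  have s1 : f11.coeff.support ⊆ bS f11 f12 f21 f22 := by
    intro z hz; simp only [bS, Finset.mem_union]; tauto
  have s2 : f12.coeff.support ⊆ bS f11 f12 f21 f22 := by
    intro z hz; simp only [bS, Finset.mem_union]; tauto
  have s3 : f21.coeff.support ⊆ bS f11 f12 f21 f22 := by
    intro z hz; simp only [bS, Finset.mem_union]; tauto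
  have s4 : f22.coeff.support ⊆ bS f11 f12 f21 f22 := by
    intro z hz; simp only [bS, Finset.mem_union]; tauto
  ext ⟨x, i⟩ ⟨y, j⟩
  rw [ev_eq_sum _ _ (blk4_supp _ _ _ _ _), Matrix.kroneckerMap_apply, Matrix.map_apply]
  rcases i with i | i <;> rcases j with j | j
  · rw [Matrix.fromBlocks_apply₁₁, ev_eq_sum _ _ s1, Finset.mul_sum]
    refine Finset.sum_congr rfl fun z _ => ?_
    rw [blk4_coeff, Matrix.kroneckerMap_apply, Matrix.fromBlocks_apply₁₁, map_mul, mul_assoc]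
  · rw [Matrix.fromBlocks_apply₁₂, ev_eq_sum _ _ s2, Finset.mul_sum]
    refine Finset.sum_congr rfl fun z _ => ?_
    rw [blk4_coeff, Matrix.kroneckerMap_apply, Matrix.fromBlocks_apply₁₂, map_mul, mul_assoc]
  · rw [Matrix.fromBlocks_apply₂₁, ev_eq_sum _ _ s3, Finset.mul_sum]
    refine Finset.sum_congr rfl fun z _ => ?_
    rw [blk4_coeff, Matrix.kroneckerMap_apply, Matrix.fromBlocks_apply₂₁, map_mul, mul_assoc]
  · rw [Matrix.fromBlocks_apply₂₂, ev_eq_sum _ _ s4, Finset.mul_sum]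
    refine Finset.sum_congr rfl fun z _ => ?_
    rw [blk4_coeff, Matrix.kroneckerMap_apply, Matrix.fromBlocks_apply₂₂, map_mul, mul_assoc]

theorem evT_conj (t : UnitAddTorus (Fin q)) (f : GA q e) (i j : e) :
    evT (-t) f i j = conj (evT t f i j) := by
  rw [evT_apply, evT_apply, Finsupp.sum, Finsupp.sum, map_sum]
  refine Finset.sum_congr rfl fun z _ => ?_
  rw [map_mul, Complex.conj_ofReal, mF_neg]

/-- The block matrix is invertible. -/
theorem det_blk {α : ℝ} {B : Matrix (Fin N) (Fin N) ℂ} (h : α = 0 → B.det ≠ 0) :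
    (Matrix.fromBlocks ((α : ℂ) • (1 : Matrix (Fin N) (Fin N) ℂ)) Bᴴ B
      (-((α : ℂ) • (1 : Matrix (Fin N) (Fin N) ℂ)))).det ≠ 0 := by
  intro hdet
  obtain ⟨v, hv0, hv⟩ := Matrix.exists_mulVec_eq_zero_iff.mpr hdet
  rw [Matrix.fromBlocks_mulVec] at hv
  set v₁ := v ∘ Sum.inl with hv₁
  set v₂ := v ∘ Sum.inr with hv₂
  have e1 : (α : ℂ) • v₁ + Bᴴ *ᵥ v₂ = 0 := by
    funext i
    have := congrFun hv (Sum.inl i)
    simpa [Matrix.smul_mulVec] using this
  have e2 : B *ᵥ v₁ - (α : ℂ) • v₂ = 0 := by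
    funext i
    have := congrFun hv (Sum.inr i)
    simp only [Sum.elim_inr, Matrix.neg_mulVec, Matrix.smul_mulVec, Matrix.one_mulVec] at this
    rw [sub_eq_add_neg]
    simpa using this
  have e2' : B *ᵥ v₁ = (α : ℂ) • v₂ := sub_eq_zero.mp e2
  have e1' : Bᴴ *ᵥ v₂ = -((α : ℂ) • v₁) := by
    rw [eq_neg_iff_add_eq_zero, add_comm]; exact e1
  -- the squared length of B v₁
  have e3 : star (B *ᵥ v₁) ⬝ᵥ (B *ᵥ v₁) = -(((α ^ 2 : ℝ) : ℂ) * (star v₁ ⬝ᵥ v₁)) := by
    rw [Matrix.star_mulVec, ← Matrix.dotProduct_mulVec, e2', Matrix.mulVec_smul, e1', smul_neg,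
      smul_smul, dotProduct_neg, dotProduct_smul, smul_eq_mul]
    push_cast; ring
  have p1 : ∀ u : Fin N → ℂ, star u ⬝ᵥ u = ((∑ i, ‖u i‖ ^ 2 : ℝ) : ℂ) := by
    intro u
    rw [dotProduct]
    push_cast
    refine Finset.sum_congr rfl fun i _ => ?_
    rw [Pi.star_apply, mul_comm]
    have := Complex.mul_conj (u i)
    rw [Complex.normSq_eq_norm_sq] at this
    push_cast at this
    exact this
  rw [p1, p1, ← Complex.ofReal_mul, ← Complex.ofReal_neg] at e3
  have e4 : (∑ i, ‖(B *ᵥ v₁) i‖ ^ 2 : ℝ) = -(α ^ 2 * ∑ i, ‖v₁ i‖ ^ 2) :=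
    Complex.ofReal_injective e3
  have n1 : 0 ≤ ∑ i, ‖(B *ᵥ v₁) i‖ ^ 2 := Finset.sum_nonneg fun _ _ => by positivity
  have n2 : 0 ≤ ∑ i, ‖v₁ i‖ ^ 2 := Finset.sum_nonneg fun _ _ => by positivity
  have z1 : ∀ u : Fin N → ℂ, (∑ i, ‖u i‖ ^ 2 : ℝ) = 0 → u = 0 := by
    intro u hu
    rw [Finset.sum_eq_zero_iff_of_nonneg (fun _ _ => by positivity)] at hu
    funext i
    have := hu i (Finset.mem_univ _)
    simpa using this
  have e5 : B *ᵥ v₁ = 0 := by
    apply z1
    nlinarith [sq_nonneg α, mul_nonneg (sq_nonneg α) n2]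
  have key : v₁ = 0 ∧ v₂ = 0 := by
    by_cases hα : α = 0
    · have hB := h hα
      have h1 : v₁ = 0 := Matrix.eq_zero_of_mulVec_eq_zero hB e5
      have h2 : Bᴴ *ᵥ v₂ = 0 := by rw [e1', hα]; simp
      have h3 : (Bᴴ).det ≠ 0 := by
        rw [Matrix.det_conjTranspose]
        exact star_ne_zero.mpr hB
      exact ⟨h1, Matrix.eq_zero_of_mulVec_eq_zero h3 h2⟩
    · have hα' : (α : ℂ) ≠ 0 := by exact_mod_cast hα
      have h2 : v₂ = 0 := by
        have : (α : ℂ) • v₂ = 0 := by rw [← e2', e5]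
        exact (smul_eq_zero.mp this).resolve_left hα'
      have h1 : v₁ = 0 := by
        have : (α : ℂ) • v₁ = 0 := by
          have h3 := e1'
          rw [h2, Matrix.mulVec_zero] at h3
          rw [← neg_eq_zero]; exact h3.symm
        exact (smul_eq_zero.mp this).resolve_left hα'
      exact ⟨h1, h2⟩
  apply hv0
  funext x
  rcases x with i | i
  · exact congrFun key.1 i
  · exact congrFun key.2 i

theorem exists_small (K : GA q e) {M : ℝ} (hM : 0 < M) : ∃ c₀ : ℝ, 0 < c₀ ∧ c₀ * M ≤ 1 ∧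
    KS (1 / 2) (c₀ • K) := by
  classical
  set T : ℝ := ∑ z ∈ K.coeff.support, ∑ i, ∑ j, |K.coeff z i j| with hT
  have hT0 : 0 ≤ T := Finset.sum_nonneg fun _ _ => Finset.sum_nonneg fun _ _ =>
    Finset.sum_nonneg fun _ _ => abs_nonneg _
  set c₀ : ℝ := 1 / (2 * (T + M)) with hc₀
  have hc0 : 0 < c₀ := by positivity
  have hcT : c₀ * T ≤ 1 / 2 := by
    rw [hc₀, one_div, inv_mul_le_iff₀ (by positivity)]
    linarith
  have hsupp : (c₀ • K).coeff.support ⊆ K.coeff.support := by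
    intro z hz
    rw [Finsupp.mem_support_iff] at hz ⊢
    intro h
    apply hz
    rw [AddMonoidAlgebra.coeff_smul, Finsupp.smul_apply, h, smul_zero]
  have hent : ∀ z i j, |(c₀ • K).coeff z i j| = c₀ * |K.coeff z i j| := by
    intro z i j
    rw [AddMonoidAlgebra.coeff_smul, Finsupp.smul_apply, Matrix.smul_apply, smul_eq_mul, abs_mul,
      abs_of_pos hc0]
  refine ⟨c₀, hc0, ?_, ?_, ?_⟩
  · rw [hc₀, one_div, inv_mul_le_iff₀ (by positivity)]
    linarith
  · intro i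
    calc ∑ z ∈ (c₀ • K).coeff.support, ∑ j, |(c₀ • K).coeff z i j|
        ≤ ∑ z ∈ K.coeff.support, ∑ j, |(c₀ • K).coeff z i j| :=
          Finset.sum_le_sum_of_subset_of_nonneg hsupp fun _ _ _ =>
            Finset.sum_nonneg fun _ _ => abs_nonneg _
      _ = c₀ * ∑ z ∈ K.coeff.support, ∑ j, |K.coeff z i j| := by
          simp only [hent, Finset.mul_sum]
      _ ≤ c₀ * T := by
          apply mul_le_mul_of_nonneg_left _ hc0.le
          refine Finset.sum_le_sum fun z _ => ?_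
          exact Finset.single_le_sum (f := fun i => ∑ j, |K.coeff z i j|)
            (fun _ _ => Finset.sum_nonneg fun _ _ => abs_nonneg _) (Finset.mem_univ i)
      _ ≤ 1 / 2 := hcT
  · intro j
    calc ∑ z ∈ (c₀ • K).coeff.support, ∑ i, |(c₀ • K).coeff z i j|
        ≤ ∑ z ∈ K.coeff.support, ∑ i, |(c₀ • K).coeff z i j| :=
          Finset.sum_le_sum_of_subset_of_nonneg hsupp fun _ _ _ =>
            Finset.sum_nonneg fun _ _ => abs_nonneg _
      _ = c₀ * ∑ z ∈ K.coeff.support, ∑ i, |K.coeff z i j| := by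
          simp only [hent, Finset.mul_sum]
      _ ≤ c₀ * T := by
          apply mul_le_mul_of_nonneg_left _ hc0.le
          refine Finset.sum_le_sum fun z _ => ?_
          refine Finset.sum_le_sum fun i _ => ?_
          exact Finset.single_le_sum (f := fun j => |K.coeff z i j|)
            (fun _ _ => abs_nonneg _) (Finset.mem_univ j)
      _ ≤ 1 / 2 := hcT

theorem exists_band (K : GA q e) : ∃ β : ℕ, ∀ z, K.coeff z ≠ 0 → Bd β z := by
  classical
  refine ⟨∑ z ∈ K.coeff.support, ∑ i, (z i).natAbs, fun z hz i => ?_⟩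
  have h1 : (z i).natAbs ≤ ∑ i, (z i).natAbs :=
    Finset.single_le_sum (f := fun i => (z i).natAbs) (fun _ _ => Nat.zero_le _) (Finset.mem_univ i)
  have h2 : ∑ i, (z i).natAbs ≤ ∑ z ∈ K.coeff.support, ∑ i, (z i).natAbs :=
    Finset.single_le_sum (f := fun z : Fin q → ℤ => ∑ i, (z i).natAbs) (fun _ _ => Nat.zero_le _)
      (Finsupp.mem_support_iff.mpr hz)
  have h3 := h1.trans h2
  rw [Int.abs_eq_natAbs]
  exact_mod_cast h3

/-- The sum of the signs. -/
theorem sum_sign : ∑ ε : Fin q → ℤˣ, ((SignType.sign (alR ε) : SignType) : ℝ) = 2 - 2 ^ q := by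
  classical
  have hne : ∀ ε : Fin q → ℤˣ, ε ≠ 1 → ((SignType.sign (alR ε) : SignType) : ℝ) = -1 := by
    intro ε hε
    have h1 : ∃ j, ε j ≠ 1 := by
      by_contra hc
      push Not at hc
      exact hε (funext hc)
    obtain ⟨j, hj⟩ := h1
    have hj' : ε j = -1 := (Int.units_eq_one_or (ε j)).resolve_left hj
    have h2 : ∑ i, ((ε i : ℤ) : ℝ) ≤ (q : ℝ) - 2 := by
      have h3 : ∑ i, ((ε i : ℤ) : ℝ) ≤ ∑ i : Fin q, (1 - if i = j then 2 else 0 : ℝ) := by
        refine Finset.sum_le_sum fun i _ => ?_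
        by_cases h : i = j
        · rw [if_pos h, h, hj']; norm_num
        · rw [if_neg h]
          rcases Int.units_eq_one_or (ε i) with h' | h' <;> rw [h'] <;> norm_num
      refine h3.trans (le_of_eq ?_)
      rw [Finset.sum_sub_distrib]
      simp
    rw [sign_neg]
    · rfl
    · rw [alR]; linarith
  have h1 : ((SignType.sign (alR (1 : Fin q → ℤˣ)) : SignType) : ℝ) = 1 := by
    rw [sign_pos]
    · rfl
    · rw [alR]; simp
  rw [← Finset.add_sum_erase _ _ (Finset.mem_univ (1 : Fin q → ℤˣ)), h1,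
    Finset.sum_congr rfl (fun ε hε => hne ε (Finset.ne_of_mem_erase hε)), Finset.sum_const,
    Finset.card_erase_of_mem (Finset.mem_univ _), Finset.card_univ, Fintype.card_pi]
  have h2 : Fintype.card ℤˣ = 2 := Fintype.card_units_int
  simp only [h2, Finset.prod_const, Finset.card_univ, Fintype.card_fin]
  rw [nsmul_eq_mul, Nat.cast_sub Nat.one_le_two_pow]
  push_cast
  ring

theorem alR_abs (ε : Fin q → ℤˣ) : |alR ε| ≤ 2 * q + 1 := by
  have h1 : |∑ i, ((ε i : ℤ) : ℝ)| ≤ q := by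
    refine (Finset.abs_sum_le_sum_abs _ _).trans ?_
    calc ∑ i, |((ε i : ℤ) : ℝ)| ≤ ∑ _i : Fin q, (1 : ℝ) := by
          refine Finset.sum_le_sum fun i _ => ?_
          rcases Int.units_eq_one_or (ε i) with h' | h' <;> rw [h'] <;> simp
      _ = q := by simp
  rw [alR]
  have h2 := abs_le.mp h1
  rw [abs_le]
  constructor <;> linarith [Nat.cast_nonneg (α := ℝ) q]

theorem alR_ne (ε : Fin q → ℤˣ) : alR ε ≠ 0 := by
  intro h
  have h1 : ∀ i, ∃ m : ℤ, ((ε i : ℤ) : ℤ) = 2 * m + 1 := by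
    intro i
    rcases Int.units_eq_one_or (ε i) with h' | h' <;> rw [h']
    · exact ⟨0, by simp⟩
    · exact ⟨-1, by simp⟩
  choose m hm using h1
  rw [alR] at h
  have h2 : (∑ i, (ε i : ℤ) : ℤ) = (q : ℤ) - 1 := by
    have : ((∑ i, (ε i : ℤ) : ℤ) : ℝ) = (((q : ℤ) - 1 : ℤ) : ℝ) := by
      push_cast
      linarith
    exact_mod_cast this
  simp only [hm] at h2
  rw [Finset.sum_add_distrib, ← Finset.mul_sum] at h2
  simp only [Finset.sum_const, Finset.card_univ, Fintype.card_fin, nsmul_eq_mul, mul_one] at h2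
  omega

end Pool.Agent.Helper10K9.Kc
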