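import Mathlib
import Pool.Agent.Helper10K9.KerC

/-!
# The divisibility theorem
-/

set_option autoImplicit false

open scoped Kronecker ComplexConjugate
open Matrix UnitAddTorus Filter Topology Pool.Agent.Helper10K9.FL Pool.Agent.Helper10K9.Bo
  Pool.Agent.Helper10K9.Tr Pool.Agent.Helper10K9.Ke Pool.Agent.Helper10K9.Kb
  Pool.Agent.Helper10K9.Lo Pool.Agent.Helper10K9.Mn Pool.Agent.Helper10K9.Ig
  Pool.Agent.Helper10K9.Nw Pool.Agent.Helper10K9.Kc

namespace Pool.Agent.Helper10K9.Kd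

variable {q c N : ℕ} {a : Type} [Fintype a] [DecidableEq a]

theorem neg_kron {b : Type} [Fintype b] (A : Matrix a a ℝ) (B : Matrix b b ℝ) :
    (-A) ⊗ₖ B = -(A ⊗ₖ B) := by
  ext ⟨x, i⟩ ⟨y, j⟩
  simp [Matrix.kroneckerMap_apply]

theorem core (C : Clf q c a) (hq : 0 < q) [Nonempty a] {w : Matrix (Fin N) (Fin N) ℝ}
    (hwT : wᵀ = w) (hw : w * w = 1) {A : EuclideanSpace ℝ (Fin q) → Matrix (Fin N) (Fin N) ℝ}
    (hA : ContinuousOn A (Metric.sphere 0 1))
    (hdet : ∀ x ∈ Metric.sphere (0 : EuclideanSpace ℝ (Fin q)) 1, (A x).det ≠ 0)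
    (hneg : ∀ x ∈ Metric.sphere (0 : EuclideanSpace ℝ (Fin q)) 1, A (-x) = A x * w)
    (h4 : 4 * c ∣ 2 * Fintype.card a) :
    ∃ k : ℤ, ((2 : ℝ) ^ q)⁻¹ * ((Fintype.card a * (w.trace - N)) * (2 - 2 ^ q)) =
      4 * (c : ℝ) * k := by
  classical
  rcases Nat.eq_zero_or_pos N with hN | hN
  · subst hN
    refine ⟨0, ?_⟩
    have : w.trace = 0 := by simp [Matrix.trace]
    rw [this]; simp
  have : Nonempty (Fin N) := ⟨⟨0, hN⟩⟩
  obtain ⟨b, hb1, hb2, hb3⟩ := exists_kernel hw hA hdet hneg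
  set K₀ : GA q (a × (Fin N ⊕ Fin N)) := blk4 C.Γ al (tk (rf b)) b (-al) with hK₀
  obtain ⟨c₀, hc0, hc1, hKS⟩ := exists_small K₀ (M := 2 * (q : ℝ) + 1) (by positivity)
  obtain ⟨β, hβ⟩ := exists_band (c₀ • K₀)
  have hKc : ∀ z, (c₀ • K₀).coeff z = c₀ • (C.Γ ⊗ₖ Matrix.fromBlocks (al.coeff z)
      ((b.coeff (-z))ᵀ) (b.coeff z) (-(al.coeff z))) := by
    intro z
    rw [AddMonoidAlgebra.coeff_smul, Finsupp.smul_apply, hK₀, blk4_coeff, tk_coeff, rf_coeff,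
      AddMonoidAlgebra.coeff_neg, Finsupp.neg_apply]
  have hal1 : ∀ z, (al : GA q (Fin N)).coeff (-z) = (al : GA q (Fin N)).coeff z := by
    intro z
    rw [← rf_coeff, rf_al]
  have hal2 : ∀ z, ((al : GA q (Fin N)).coeff z)ᵀ = (al : GA q (Fin N)).coeff z := by
    intro z
    obtain ⟨x, hx⟩ := isSc_al (e := Fin N) (q := q) z
    rw [hx, Matrix.transpose_smul, Matrix.transpose_one]
  have hal3 : ∀ z, w * (al : GA q (Fin N)).coeff z = (al : GA q (Fin N)).coeff z * w := by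
    intro z
    obtain ⟨x, hx⟩ := isSc_al (e := Fin N) (q := q) z
    rw [hx, Matrix.mul_smul, Matrix.smul_mul, Matrix.mul_one, Matrix.one_mul]
  have hb1' : ∀ z, w * (b.coeff (-z))ᵀ = (b.coeff z)ᵀ := by
    intro z
    rw [hb1, Matrix.transpose_mul, hwT, ← mul_assoc, hw, one_mul]
  have hdetT : ∀ t : UnitAddTorus (Fin q), (evT t (c₀ • K₀)).det ≠ 0 := by
    intro t
    rw [evT, ev_smul, Matrix.det_smul]
    apply mul_ne_zero
    · apply pow_ne_zero
      have : (c₀ : ℂ) ≠ 0 := by exact_mod_cast hc0.ne'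
      exact this
    · rw [hK₀, ev_blk4, Matrix.det_kronecker]
      apply mul_ne_zero
      · apply pow_ne_zero
        intro h
        have h1 : (C.Γ.map (algebraMap ℝ ℂ)) * (C.Γ.map (algebraMap ℝ ℂ)) = 1 := by
          rw [← Matrix.map_mul, C.Γ_sq]
          exact Matrix.map_one _ (map_zero _) (map_one _)
        have h2 := congrArg Matrix.det h1
        rw [Matrix.det_mul, h, zero_mul, Matrix.det_one] at h2
        exact zero_ne_one h2
      · apply pow_ne_zero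
        have e1 : ev (chT t) (al : GA q (Fin N)) = ((alT t : ℝ) : ℂ) • 1 := evT_al t
        have e2 : ev (chT t) (tk (rf b)) = (evT t b)ᴴ := by
          rw [ev_tk]
          ext i j
          rw [Matrix.transpose_apply, Matrix.conjTranspose_apply]
          have := evT_rf t b
          rw [evT] at this
          rw [this]
          exact evT_conj t b j i
        rw [e1, e2, map_neg, e1]
        exact det_blk (hb3 t)
  let d : Dat q (a × (Fin N ⊕ Fin N)) :=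
    { Sg := fun l => C.σ l ⊗ₖ (1 : Matrix (Fin N ⊕ Fin N) (Fin N ⊕ Fin N) ℝ)
      K := c₀ • K₀
      β := β
      g0 := C.Γ ⊗ₖ Matrix.fromBlocks w 0 0 1
      Sg_symm := fun l => by
        rw [← Matrix.kroneckerMap_transpose, C.σ_symm, Matrix.transpose_one]
      Sg_sq := fun l => by
        rw [← Matrix.mul_kronecker_mul, C.σ_sq, one_mul, Matrix.one_kronecker_one]
      Sg_anti := fun l l' h => by
        rw [← Matrix.mul_kronecker_mul, ← Matrix.mul_kronecker_mul, C.σ_anti l l' h, neg_kron]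
      K_symm := fun z => by
        rw [hKc, hKc, Matrix.transpose_smul, ← Matrix.kroneckerMap_transpose,
          Matrix.fromBlocks_transpose, C.Γ_symm, neg_neg, Matrix.transpose_transpose, hal1,
          Matrix.transpose_neg, hal2]
      K_anti := fun l z => by
        rw [hKc, Matrix.mul_smul, Matrix.smul_mul, ← Matrix.mul_kronecker_mul,
          ← Matrix.mul_kronecker_mul, C.Γ_anti, neg_kron, smul_neg, neg_neg, one_mul, mul_one]
      K_band := hβ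
      K_sum := hKS
      K_low := lower hdetT
      g0_sq := by
        rw [← Matrix.mul_kronecker_mul, C.Γ_sq, Matrix.fromBlocks_multiply]
        simp only [mul_zero, zero_mul, add_zero, zero_add, mul_one, hw, Matrix.fromBlocks_one,
          Matrix.one_kronecker_one]
      g0_Sg := fun l => by
        rw [← Matrix.mul_kronecker_mul, ← Matrix.mul_kronecker_mul, C.Γ_anti, neg_kron, one_mul,
          mul_one]
      g0_K := fun z => by
        rw [hKc, hKc, Matrix.mul_smul, Matrix.smul_mul, ← Matrix.mul_kronecker_mul,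
          ← Matrix.mul_kronecker_mul, Matrix.fromBlocks_multiply, Matrix.fromBlocks_multiply]
        simp only [zero_mul, mul_zero, add_zero, zero_add, one_mul, mul_one]
        rw [hb1', hal3, hal1, neg_neg, hb1, mul_assoc, hw, mul_one] }
  have hg0 : d.g0ᵀ = d.g0 := by
    change (C.Γ ⊗ₖ Matrix.fromBlocks w 0 0 1)ᵀ = C.Γ ⊗ₖ Matrix.fromBlocks w 0 0 1
    rw [← Matrix.kroneckerMap_transpose, C.Γ_symm, Matrix.fromBlocks_transpose, hwT,
      Matrix.transpose_zero, Matrix.transpose_one]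
  -- the commutant
  have hlift : ∀ I : Matrix a a ℝ,
      (∀ X ∈ ({X | (∃ l, X = C.σ l) ∨ X = C.Γ} : Set (Matrix a a ℝ)), I * X = X * I) →
      ∀ X ∈ DS d, (I ⊗ₖ (1 : Matrix (Fin N ⊕ Fin N) (Fin N ⊕ Fin N) ℝ)) * X =
        X * (I ⊗ₖ (1 : Matrix (Fin N ⊕ Fin N) (Fin N ⊕ Fin N) ℝ)) := by
    intro I hI X hX
    rcases hX with ⟨l, rfl⟩ | ⟨z, rfl⟩ | rfl
    · change (I ⊗ₖ (1 : Matrix (Fin N ⊕ Fin N) (Fin N ⊕ Fin N) ℝ)) * (C.σ l ⊗ₖ 1) =
        (C.σ l ⊗ₖ 1) * (I ⊗ₖ 1)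
      rw [← Matrix.mul_kronecker_mul, ← Matrix.mul_kronecker_mul, hI _ (Or.inl ⟨l, rfl⟩)]
    · change (I ⊗ₖ (1 : Matrix (Fin N ⊕ Fin N) (Fin N ⊕ Fin N) ℝ)) * (c₀ • K₀).coeff z =
        (c₀ • K₀).coeff z * (I ⊗ₖ 1)
      rw [hKc, Matrix.mul_smul, Matrix.smul_mul, ← Matrix.mul_kronecker_mul,
        ← Matrix.mul_kronecker_mul, hI _ (Or.inr rfl), one_mul, mul_one]
    · change (I ⊗ₖ (1 : Matrix (Fin N ⊕ Fin N) (Fin N ⊕ Fin N) ℝ)) *
        (C.Γ ⊗ₖ Matrix.fromBlocks w 0 0 1) = (C.Γ ⊗ₖ Matrix.fromBlocks w 0 0 1) * (I ⊗ₖ 1)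
      rw [← Matrix.mul_kronecker_mul, ← Matrix.mul_kronecker_mul, hI _ (Or.inr rfl), one_mul,
        mul_one]
  have hcc : CommCase c (DS d) := by
    rcases C.comm with h | ⟨h, I, hI, hA⟩ | ⟨h, I, J, hI, hJ, hIJ, hA⟩
    · exact Or.inl h
    · refine Or.inr (Or.inl ⟨h, I ⊗ₖ 1, ?_, hlift I hA⟩)
      rw [← Matrix.mul_kronecker_mul, hI, mul_one, neg_kron, Matrix.one_kronecker_one]
    · refine Or.inr (Or.inr ⟨h, I ⊗ₖ 1, J ⊗ₖ 1, ?_, ?_, ?_, fun X hX =>
        ⟨hlift I (fun Y hY => (hA Y hY).1) X hX, hlift J (fun Y hY => (hA Y hY).2) X hX⟩⟩)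
      · rw [← Matrix.mul_kronecker_mul, hI, mul_one, neg_kron, Matrix.one_kronecker_one]
      · rw [← Matrix.mul_kronecker_mul, hJ, mul_one, neg_kron, Matrix.one_kronecker_one]
      · rw [← Matrix.mul_kronecker_mul, ← Matrix.mul_kronecker_mul, hIJ, neg_kron]
  have hζ : (C.ζ ⊗ₖ (1 : Matrix (Fin N ⊕ Fin N) (Fin N ⊕ Fin N) ℝ)) * (C.ζ' ⊗ₖ 1) = 1 := by
    rw [← Matrix.mul_kronecker_mul, C.ζ_inv, one_mul, Matrix.one_kronecker_one]
  have hdim : 4 * c ∣ Fintype.card (a × (Fin N ⊕ Fin N)) := by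
    rw [Fintype.card_prod, Fintype.card_sum, Fintype.card_fin]
    obtain ⟨m, hm⟩ := h4
    exact ⟨m * N, by rw [← mul_assoc, ← hm]; ring⟩
  -- the evaluation at the real characters
  set Θ : Matrix (Fin N ⊕ Fin N) (Fin N ⊕ Fin N) ℝ := Matrix.fromBlocks 1 0 0 (-1) with hΘ
  set W : Matrix (a × (Fin N ⊕ Fin N)) (a × (Fin N ⊕ Fin N)) ℝ := C.Γ ⊗ₖ Θ with hW
  have hWW : W * W = 1 := by
    rw [hW, ← Matrix.mul_kronecker_mul, C.Γ_sq, hΘ, Matrix.fromBlocks_multiply]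
    simp only [mul_zero, zero_mul, add_zero, zero_add, mul_one, neg_mul_neg, one_mul,
      Matrix.fromBlocks_one, Matrix.one_kronecker_one]
  have hev : ∀ ε : Fin q → ℤˣ, ev (chR ε) d.K = (c₀ * alR ε) • W := by
    intro ε
    change ev (chR ε) (c₀ • K₀) = _
    rw [ev_smul, hK₀, ev_blk4, ev_tk, evR_rf, hb2, map_neg, evR_al, Matrix.transpose_zero, mul_smul]
    simp only [Algebra.algebraMap_self, RingHom.id_apply]
    congr 1
    rw [hW, hΘ]
    ext ⟨x, i⟩ ⟨y, j⟩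
    rw [Matrix.smul_apply, Matrix.kroneckerMap_apply, Matrix.kroneckerMap_apply, Matrix.map_apply]
    rcases i with i | i <;> rcases j with j | j <;>
      simp [Matrix.smul_apply] <;> ring
  have htr : (d.g0 * W).trace = Fintype.card a * (w.trace - N) := by
    change ((C.Γ ⊗ₖ Matrix.fromBlocks w 0 0 1) * W).trace = _
    rw [hW, ← Matrix.mul_kronecker_mul, C.Γ_sq, hΘ, Matrix.fromBlocks_multiply,
      Matrix.trace_kronecker, Matrix.trace_one]
    simp only [mul_zero, zero_mul, add_zero, zero_add, mul_one, mul_neg, neg_zero]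
    have e1 : (Matrix.fromBlocks w 0 0 (-1) : Matrix (Fin N ⊕ Fin N) (Fin N ⊕ Fin N) ℝ).trace =
        w.trace + (-1 : Matrix (Fin N) (Fin N) ℝ).trace := by
      simp [Matrix.trace, Fintype.sum_sum_type]
    rw [e1, Matrix.trace_neg, Matrix.trace_one, Fintype.card_fin, sub_eq_add_neg]
  have hρ : Tendsto (fun j => ((2 : ℝ) ^ q)⁻¹ * ∑ ε : Fin q → ℤˣ,
      (d.g0 * nw (ev (chR ε) d.K) j).trace) atTop
      (𝓝 (((2 : ℝ) ^ q)⁻¹ * ((Fintype.card a * (w.trace - N)) * (2 - 2 ^ q)))) := by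
    apply Tendsto.const_mul
    have h1 : ∀ j, ∑ ε : Fin q → ℤˣ, (d.g0 * nw (ev (chR ε) d.K) j).trace =
        (Fintype.card a * (w.trace - N)) * ∑ ε : Fin q → ℤˣ, nw (c₀ * alR ε) j := by
      intro j
      rw [Finset.mul_sum]
      refine Finset.sum_congr rfl fun ε _ => ?_
      rw [hev, nw_smul_invol hWW, Matrix.mul_smul, Matrix.trace_smul, htr, smul_eq_mul, mul_comm]
    simp only [h1]
    apply Tendsto.const_mul
    rw [← sum_sign (q := q)]
    apply tendsto_finsetSum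
    intro ε _
    have h2 : c₀ * alR ε ≠ 0 := mul_ne_zero hc0.ne' (alR_ne ε)
    have h3 : |c₀ * alR ε| ≤ 1 := by
      rw [abs_mul, abs_of_pos hc0]
      exact (mul_le_mul_of_nonneg_left (alR_abs ε) hc0.le).trans hc1
    have h4 := nw_real_lim h2 h3
    rw [sign_mul, sign_pos hc0, one_mul] at h4
    exact h4
  exact main d hg0 hq hcc hζ
    (fun l => by
      change (C.ζ ⊗ₖ (1 : Matrix (Fin N ⊕ Fin N) (Fin N ⊕ Fin N) ℝ)) * (C.σ l ⊗ₖ 1) =
        -((C.σ l ⊗ₖ 1) * (C.ζ ⊗ₖ 1))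
      rw [← Matrix.mul_kronecker_mul, ← Matrix.mul_kronecker_mul, C.ζ_σ, neg_kron])
    (fun z => by
      change (C.ζ ⊗ₖ (1 : Matrix (Fin N ⊕ Fin N) (Fin N ⊕ Fin N) ℝ)) * (c₀ • K₀).coeff z =
        -((c₀ • K₀).coeff z * (C.ζ ⊗ₖ 1))
      rw [hKc, Matrix.mul_smul, Matrix.smul_mul, ← Matrix.mul_kronecker_mul,
        ← Matrix.mul_kronecker_mul, C.ζ_Γ, neg_kron, smul_neg, one_mul, mul_one])
    (by
      change (C.ζ ⊗ₖ (1 : Matrix (Fin N ⊕ Fin N) (Fin N ⊕ Fin N) ℝ)) *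
        (C.Γ ⊗ₖ Matrix.fromBlocks w 0 0 1) = -((C.Γ ⊗ₖ Matrix.fromBlocks w 0 0 1) * (C.ζ ⊗ₖ 1))
      rw [← Matrix.mul_kronecker_mul, ← Matrix.mul_kronecker_mul, C.ζ_Γ, neg_kron, one_mul,
        mul_one])
    hdim hρ

end Pool.Agent.Helper10K9.Kd
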