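import Mathlib
import Pool.Agent.Helper10K9.KerD
import Pool.Agent.Helper10K9.FlagDefs

/-!
# Clifford data
-/

set_option autoImplicit false

open scoped Kronecker
open Matrix Pool.Agent.Helper10K9.Ig Pool.Agent.Helper10K9.Kc Pool.Agent.Helper10K9.Kd

namespace Pool.Agent.Helper10K9.Wd

/-- The four basic matrices. -/
def m2 (a : Fin 4) : Matrix (Fin 2) (Fin 2) ℤ :=
  if a = 0 then !![1, 0; 0, 1] else if a = 1 then !![0, 1; 1, 0] else
    if a = 2 then !![1, 0; 0, -1] else !![0, 1; -1, 0]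

/-- commutation signs -/
def sg (a b : Fin 4) : ℤ := if a = 0 ∨ b = 0 ∨ a = b then 1 else -1

/-- transposition signs -/
def ts (a : Fin 4) : ℤ := if a = 3 then -1 else 1

theorem m2_comm (a b : Fin 4) (x y : Fin 2) :
    (m2 a * m2 b) x y = sg a b * (m2 b * m2 a) x y := by
  revert a b x y; decide +kernel

theorem m2_sq (a : Fin 4) (x y : Fin 2) :
    (m2 a * m2 a) x y = ts a * (1 : Matrix (Fin 2) (Fin 2) ℤ) x y := by
  revert a x y; decide +kernel

theorem m2_tr (a : Fin 4) (x y : Fin 2) : m2 a y x = ts a * m2 a x y := by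
  revert a x y; decide +kernel

variable {k : ℕ}

/-- The matrix of a word. -/
def wd (w : Fin k → Fin 4) : Matrix (Fin k → Fin 2) (Fin k → Fin 2) ℝ :=
  Matrix.of fun x y => ∏ i, ((m2 (w i) (x i) (y i) : ℤ) : ℝ)

theorem wd_mul (w v : Fin k → Fin 4) (x y : Fin k → Fin 2) :
    (wd w * wd v) x y = ∏ i, (((m2 (w i) * m2 (v i)) (x i) (y i) : ℤ) : ℝ) := by
  rw [Matrix.mul_apply]
  simp only [wd, Matrix.of_apply, ← Finset.prod_mul_distrib]
  have h := (Finset.prod_univ_sum (fun _ : Fin k => (Finset.univ : Finset (Fin 2)))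
    (fun i u => ((m2 (w i) (x i) u : ℤ) : ℝ) * ((m2 (v i) u (y i) : ℤ) : ℝ))).symm
  rw [Fintype.piFinset_univ] at h
  rw [h]
  refine Finset.prod_congr rfl fun i _ => ?_
  rw [Matrix.mul_apply]
  push_cast
  rfl

theorem wd_comm (w v : Fin k → Fin 4) :
    wd w * wd v = ((∏ i, sg (w i) (v i) : ℤ) : ℝ) • (wd v * wd w) := by
  ext x y
  rw [Matrix.smul_apply, wd_mul, wd_mul, smul_eq_mul, Int.cast_prod, ← Finset.prod_mul_distrib]
  refine Finset.prod_congr rfl fun i _ => ?_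
  rw [m2_comm]
  push_cast; rfl

theorem wd_sq (w : Fin k → Fin 4) : wd w * wd w = ((∏ i, ts (w i) : ℤ) : ℝ) • 1 := by
  ext x y
  rw [Matrix.smul_apply, wd_mul, smul_eq_mul, Int.cast_prod]
  have h1 : (1 : Matrix (Fin k → Fin 2) (Fin k → Fin 2) ℝ) x y =
      ∏ i, (((1 : Matrix (Fin 2) (Fin 2) ℤ) (x i) (y i) : ℤ) : ℝ) := by
    by_cases h : x = y
    · subst h; simp
    · rw [Matrix.one_apply_ne h]
      obtain ⟨i, hi⟩ := Function.ne_iff.mp h
      symm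
      apply Finset.prod_eq_zero (Finset.mem_univ i)
      rw [Matrix.one_apply_ne hi]; simp
  rw [h1, ← Finset.prod_mul_distrib]
  refine Finset.prod_congr rfl fun i _ => ?_
  rw [m2_sq]
  push_cast; rfl

theorem wd_tr (w : Fin k → Fin 4) : (wd w)ᵀ = ((∏ i, ts (w i) : ℤ) : ℝ) • wd w := by
  ext x y
  rw [Matrix.transpose_apply, Matrix.smul_apply, smul_eq_mul, wd, Matrix.of_apply, Matrix.of_apply,
    Int.cast_prod, ← Finset.prod_mul_distrib]
  refine Finset.prod_congr rfl fun i _ => ?_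
  rw [m2_tr]
  push_cast; rfl

theorem wd_anti {w v : Fin k → Fin 4} (h : ∏ i, sg (w i) (v i) = -1) :
    wd w * wd v = -(wd v * wd w) := by
  rw [wd_comm, h]; simp

theorem wd_commute {w v : Fin k → Fin 4} (h : ∏ i, sg (w i) (v i) = 1) :
    wd w * wd v = wd v * wd w := by
  rw [wd_comm, h]; simp

theorem wd_neg_one {w : Fin k → Fin 4} (h : ∏ i, ts (w i) = -1) : wd w * wd w = -1 := by
  rw [wd_sq, h]; simp

theorem ts_sq (w : Fin k → Fin 4) : (∏ i, ts (w i)) * (∏ i, ts (w i)) = 1 := by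
  rw [← Finset.prod_mul_distrib]
  apply Finset.prod_eq_one
  intro i _
  rw [ts]
  split_ifs <;> norm_num

/-- Clifford data from words. -/
def ofWords {q c : ℕ} (g : Fin (q + 1) → Fin k → Fin 4) (z : Fin k → Fin 4)
    (h1 : ∀ l, ∏ i, ts (g l i) = 1) (h2 : ∀ l l', l ≠ l' → ∏ i, sg (g l i) (g l' i) = -1)
    (h3 : ∀ l, ∏ i, sg (z i) (g l i) = -1)
    (hc : c = 1 ∨ (c = 2 ∧ ∃ I : Fin k → Fin 4, ∏ i, ts (I i) = -1 ∧
      ∀ l, ∏ i, sg (I i) (g l i) = 1) ∨ (c = 4 ∧ ∃ I J : Fin k → Fin 4, ∏ i, ts (I i) = -1 ∧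
      ∏ i, ts (J i) = -1 ∧ ∏ i, sg (I i) (J i) = -1 ∧
      ∀ l, ∏ i, sg (I i) (g l i) = 1 ∧ ∏ i, sg (J i) (g l i) = 1)) :
    Clf q c (Fin k → Fin 2) where
  σ l := wd (g l.castSucc)
  Γ := wd (g (Fin.last q))
  ζ := wd z
  ζ' := ((∏ i, ts (z i) : ℤ) : ℝ) • wd z
  σ_symm l := by rw [wd_tr, h1]; simp
  σ_sq l := by rw [wd_sq, h1]; simp
  σ_anti l l' h := wd_anti (h2 _ _ fun hc => h (Fin.castSucc_injective _ hc))
  Γ_symm := by rw [wd_tr, h1]; simp
  Γ_sq := by rw [wd_sq, h1]; simp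
  Γ_anti l := wd_anti (h2 _ _ (Fin.castSucc_ne_last l).symm)
  ζ_inv := by
    rw [Matrix.mul_smul, wd_sq, smul_smul, ← Int.cast_mul, ts_sq, Int.cast_one, one_smul]
  ζ_σ l := wd_anti (h3 _)
  ζ_Γ := wd_anti (h3 _)
  comm := by
    rcases hc with h | ⟨h, I, hI, hA⟩ | ⟨h, I, J, hI, hJ, hIJ, hA⟩
    · exact Or.inl h
    · refine Or.inr (Or.inl ⟨h, wd I, wd_neg_one hI, ?_⟩)
      rintro X (⟨l, rfl⟩ | rfl)
      · exact wd_commute (hA _)
      · exact wd_commute (hA _)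
    · refine Or.inr (Or.inr ⟨h, wd I, wd J, wd_neg_one hI, wd_neg_one hJ, wd_anti hIJ, ?_⟩)
      rintro X (⟨l, rfl⟩ | rfl)
      · exact ⟨wd_commute (hA _).1, wd_commute (hA _).2⟩
      · exact ⟨wd_commute (hA _).1, wd_commute (hA _).2⟩

/-- The eight words. -/
def g8 : Fin 8 → Fin 4 → Fin 4 :=
  ![![1, 0, 3, 3], ![3, 1, 0, 3], ![3, 2, 0, 3], ![3, 3, 3, 3], ![0, 3, 1, 3], ![0, 3, 2, 3],
    ![0, 0, 0, 1], ![2, 0, 3, 3]]

/-- The ninth word. -/
def g9 : Fin 4 → Fin 4 := ![0, 0, 0, 2]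

theorem g8_ts : ∀ l, ∏ i, ts (g8 l i) = 1 := by decide +kernel

theorem g8_anti : ∀ l l', l ≠ l' → ∏ i, sg (g8 l i) (g8 l' i) = -1 := by decide +kernel

theorem g9_ts : ∏ i, ts (g9 i) = 1 := by decide +kernel

theorem g9_anti : ∀ l, ∏ i, sg (g9 i) (g8 l i) = -1 := by decide +kernel

theorem kron_neg {a b : Type} [Fintype a] [Fintype b] (A : Matrix a a ℝ) (B : Matrix b b ℝ) :
    A ⊗ₖ (-B) = -(A ⊗ₖ B) := by
  ext ⟨x, i⟩ ⟨y, j⟩
  simp [Matrix.kroneckerMap_apply]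

/-- The periodicity step. -/
def step {q c : ℕ} {a : Type} [Fintype a] [DecidableEq a] (C : Clf q c a) :
    Clf (q + 8) c (a × (Fin 4 → Fin 2)) where
  σ := Fin.addCases (fun l => C.σ l ⊗ₖ wd g9) (fun i => (1 : Matrix a a ℝ) ⊗ₖ wd (g8 i))
  Γ := C.Γ ⊗ₖ wd g9
  ζ := C.ζ ⊗ₖ wd g9
  ζ' := C.ζ' ⊗ₖ wd g9
  σ_symm l := by
    refine Fin.addCases (fun l => ?_) (fun i => ?_) l
    · rw [Fin.addCases_left, ← Matrix.kroneckerMap_transpose, C.σ_symm, wd_tr, g9_ts]; simp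
    · rw [Fin.addCases_right, ← Matrix.kroneckerMap_transpose, wd_tr, g8_ts]; simp
  σ_sq l := by
    refine Fin.addCases (fun l => ?_) (fun i => ?_) l
    · rw [Fin.addCases_left, ← Matrix.mul_kronecker_mul, C.σ_sq, wd_sq, g9_ts]; simp
    · rw [Fin.addCases_right, ← Matrix.mul_kronecker_mul, one_mul, wd_sq, g8_ts]; simp
  σ_anti l l' := by
    refine Fin.addCases (fun l => ?_) (fun i => ?_) l <;>
      refine Fin.addCases (fun l' => ?_) (fun i' => ?_) l' <;> intro h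
    · rw [Fin.addCases_left, Fin.addCases_left, ← Matrix.mul_kronecker_mul,
        ← Matrix.mul_kronecker_mul, C.σ_anti l l' (fun hc => h (by rw [hc])), neg_kron]
    · rw [Fin.addCases_left, Fin.addCases_right, ← Matrix.mul_kronecker_mul,
        ← Matrix.mul_kronecker_mul, wd_anti (g9_anti i'), kron_neg, mul_one, one_mul]
    · rw [Fin.addCases_left, Fin.addCases_right, ← Matrix.mul_kronecker_mul,
        ← Matrix.mul_kronecker_mul, wd_anti (g9_anti i), kron_neg, mul_one, one_mul, neg_neg]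
    · rw [Fin.addCases_right, Fin.addCases_right, ← Matrix.mul_kronecker_mul,
        ← Matrix.mul_kronecker_mul, wd_anti (g8_anti i i' (fun hc => h (by rw [hc]))), kron_neg]
  Γ_symm := by
    rw [← Matrix.kroneckerMap_transpose, C.Γ_symm, wd_tr, g9_ts]; simp
  Γ_sq := by
    rw [← Matrix.mul_kronecker_mul, C.Γ_sq, wd_sq, g9_ts]; simp
  Γ_anti l := by
    refine Fin.addCases (fun l => ?_) (fun i => ?_) l
    · rw [Fin.addCases_left, ← Matrix.mul_kronecker_mul, ← Matrix.mul_kronecker_mul, C.Γ_anti,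
        neg_kron]
    · rw [Fin.addCases_right, ← Matrix.mul_kronecker_mul, ← Matrix.mul_kronecker_mul,
        wd_anti (g9_anti i), kron_neg, mul_one, one_mul]
  ζ_inv := by
    rw [← Matrix.mul_kronecker_mul, C.ζ_inv, wd_sq, g9_ts]; simp
  ζ_σ l := by
    refine Fin.addCases (fun l => ?_) (fun i => ?_) l
    · rw [Fin.addCases_left, ← Matrix.mul_kronecker_mul, ← Matrix.mul_kronecker_mul, C.ζ_σ,
        neg_kron]
    · rw [Fin.addCases_right, ← Matrix.mul_kronecker_mul, ← Matrix.mul_kronecker_mul,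
        wd_anti (g9_anti i), kron_neg, mul_one, one_mul]
  ζ_Γ := by
    rw [← Matrix.mul_kronecker_mul, ← Matrix.mul_kronecker_mul, C.ζ_Γ, neg_kron]
  comm := by
    have hl : ∀ I : Matrix a a ℝ,
        (∀ X ∈ ({X | (∃ l, X = C.σ l) ∨ X = C.Γ} : Set (Matrix a a ℝ)), I * X = X * I) →
        ∀ X ∈ ({X | (∃ l, X = Fin.addCases (fun l => C.σ l ⊗ₖ wd g9)
          (fun i => (1 : Matrix a a ℝ) ⊗ₖ wd (g8 i)) l) ∨ X = C.Γ ⊗ₖ wd g9} :
            Set (Matrix (a × (Fin 4 → Fin 2)) (a × (Fin 4 → Fin 2)) ℝ)),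
          (I ⊗ₖ (1 : Matrix (Fin 4 → Fin 2) (Fin 4 → Fin 2) ℝ)) * X = X * (I ⊗ₖ 1) := by
      intro I hI X hX
      rcases hX with ⟨l, rfl⟩ | rfl
      · refine Fin.addCases (fun l => ?_) (fun i => ?_) l
        · rw [Fin.addCases_left, ← Matrix.mul_kronecker_mul, ← Matrix.mul_kronecker_mul,
            hI _ (Or.inl ⟨l, rfl⟩), one_mul, mul_one]
        · rw [Fin.addCases_right, ← Matrix.mul_kronecker_mul, ← Matrix.mul_kronecker_mul, one_mul,
            mul_one, one_mul, mul_one]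
      · rw [← Matrix.mul_kronecker_mul, ← Matrix.mul_kronecker_mul, hI _ (Or.inr rfl), one_mul,
          mul_one]
    rcases C.comm with h | ⟨h, I, hI, hA⟩ | ⟨h, I, J, hI, hJ, hIJ, hA⟩
    · exact Or.inl h
    · refine Or.inr (Or.inl ⟨h, I ⊗ₖ 1, ?_, hl I hA⟩)
      rw [← Matrix.mul_kronecker_mul, hI, mul_one, neg_kron, Matrix.one_kronecker_one]
    · refine Or.inr (Or.inr ⟨h, I ⊗ₖ 1, J ⊗ₖ 1, ?_, ?_, ?_, fun X hX =>
        ⟨hl I (fun Y hY => (hA Y hY).1) X hX, hl J (fun Y hY => (hA Y hY).2) X hX⟩⟩)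
      · rw [← Matrix.mul_kronecker_mul, hI, mul_one, neg_kron, Matrix.one_kronecker_one]
      · rw [← Matrix.mul_kronecker_mul, hJ, mul_one, neg_kron, Matrix.one_kronecker_one]
      · rw [← Matrix.mul_kronecker_mul, ← Matrix.mul_kronecker_mul, hIJ, neg_kron]

/-- base data, `n = 0` -/
def base0 : Clf 1 1 (Fin 1 → Fin 2) :=
  ofWords (![![1], ![2]] : Fin 2 → Fin 1 → Fin 4) (![3] : Fin 1 → Fin 4) (by decide +kernel) (by decide +kernel)
    (by decide +kernel) (Or.inl rfl)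

/-- base data, `n = 1` -/
def base1 : Clf 2 2 (Fin 2 → Fin 2) :=
  ofWords (![![2, 2], ![1, 2], ![0, 1]] : Fin 3 → Fin 2 → Fin 4) (![0, 3] : Fin 2 → Fin 4)
    (by decide +kernel) (by decide +kernel) (by decide +kernel)
    (Or.inr (Or.inl ⟨rfl, (![3, 1] : Fin 2 → Fin 4), by decide +kernel, by decide +kernel⟩))

/-- base data, `n = 2` -/
def base2 : Clf 3 4 (Fin 3 → Fin 2) :=
  ofWords (![![0, 2, 2], ![0, 0, 1], ![3, 3, 2], ![0, 1, 2]] : Fin 4 → Fin 3 → Fin 4)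
    (![0, 0, 3] : Fin 3 → Fin 4) (by decide +kernel) (by decide +kernel) (by decide +kernel)
    (Or.inr (Or.inr ⟨rfl, (![1, 3, 1] : Fin 3 → Fin 4), (![2, 3, 1] : Fin 3 → Fin 4),
      by decide +kernel, by decide +kernel, by decide +kernel, by decide +kernel⟩))

/-- base data, `n = 4` -/
def base4 : Clf 5 4 (Fin 4 → Fin 2) :=
  ofWords (![![1, 0, 3, 3], ![3, 1, 0, 3], ![3, 2, 0, 3], ![3, 3, 3, 3], ![0, 3, 1, 3],
      ![0, 3, 2, 3]] : Fin 6 → Fin 4 → Fin 4)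
    (![0, 0, 0, 1] : Fin 4 → Fin 4) (by decide +kernel) (by decide +kernel) (by decide +kernel)
    (Or.inr (Or.inr ⟨rfl, (![0, 0, 0, 3] : Fin 4 → Fin 4), (![2, 0, 3, 1] : Fin 4 → Fin 4),
      by decide +kernel, by decide +kernel, by decide +kernel, by decide +kernel⟩))

open Pool.Agent.Helper10K9.FS (phi)

theorem phi_succ (n : ℕ) : phi (n + 1) = phi n +
    if (n + 1) % 8 = 0 ∨ (n + 1) % 8 = 1 ∨ (n + 1) % 8 = 2 ∨ (n + 1) % 8 = 4 then 1 else 0 := by
  have h : Finset.Icc 1 (n + 1) = insert (n + 1) (Finset.Icc 1 n) := by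
    ext x
    simp only [Finset.mem_Icc, Finset.mem_insert]
    omega
  rw [phi, phi, h, Finset.filter_insert]
  split_ifs with hc
  · rw [Finset.card_insert_of_notMem]
    simp
  · simp

theorem phi_zero : phi 0 = 0 := by simp [phi]

theorem phi_add8 (n : ℕ) : phi (n + 8) = phi n + 4 := by
  have h : ∀ j, phi (n + j + 1) = phi (n + j) +
      if (n % 8 + j + 1) % 8 = 0 ∨ (n % 8 + j + 1) % 8 = 1 ∨ (n % 8 + j + 1) % 8 = 2 ∨
        (n % 8 + j + 1) % 8 = 4 then 1 else 0 := by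
    intro j
    rw [phi_succ]
    have e : (n + j + 1) % 8 = (n % 8 + j + 1) % 8 := by omega
    rw [e]
  have hr : n % 8 < 8 := Nat.mod_lt _ (by norm_num)
  have key : ∀ r < 8, (∑ j ∈ Finset.range 8, if (r + j + 1) % 8 = 0 ∨ (r + j + 1) % 8 = 1 ∨
      (r + j + 1) % 8 = 2 ∨ (r + j + 1) % 8 = 4 then 1 else 0) = 4 := by decide
  have hs : ∀ m, phi (n + m) = phi n + ∑ j ∈ Finset.range m,
      if (n % 8 + j + 1) % 8 = 0 ∨ (n % 8 + j + 1) % 8 = 1 ∨ (n % 8 + j + 1) % 8 = 2 ∨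
        (n % 8 + j + 1) % 8 = 4 then 1 else 0 := by
    intro m
    induction m with
    | zero => simp
    | succ m ih => rw [← add_assoc, h, ih, Finset.sum_range_succ, add_assoc]
  rw [hs 8, key _ hr]

/-- The dimension count. -/
def Good (n : ℕ) : Prop := ∃ (c : ℕ) (a : Type) (_ : Fintype a) (_ : DecidableEq a),
  Nonempty (Clf (n + 1) c a) ∧ Nonempty a ∧ 4 * c ∣ 2 * Fintype.card a ∧ 0 < c ∧
    Fintype.card a * 2 ^ phi n = c * 2 ^ (n + 1)

theorem good_step {n : ℕ} (h : Good n) : Good (n + 8) := by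
  obtain ⟨c, a, i1, i2, ⟨C⟩, ⟨x⟩, hd, hc, hcard⟩ := h
  refine ⟨c, a × (Fin 4 → Fin 2), inferInstance, inferInstance, ⟨step C⟩, ⟨(x, fun _ => 0)⟩,
    ?_, hc, ?_⟩
  · rw [Fintype.card_prod, ← mul_assoc]
    exact Dvd.dvd.mul_right hd _
  · rw [Fintype.card_prod, phi_add8, Fintype.card_fun, Fintype.card_fin, Fintype.card_fin]
    calc Fintype.card a * 2 ^ 4 * 2 ^ (phi n + 4) = (Fintype.card a * 2 ^ phi n) * 2 ^ 8 := by ring
      _ = c * 2 ^ (n + 8 + 1) := by rw [hcard]; ring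

theorem good_base0 : Good 0 := by
  refine ⟨1, _, inferInstance, inferInstance, ⟨base0⟩, ⟨fun _ => 0⟩, ?_, by norm_num, ?_⟩
  · simp
  · rw [phi_zero]; simp

theorem good_base1 : Good 1 := by
  refine ⟨2, _, inferInstance, inferInstance, ⟨base1⟩, ⟨fun _ => 0⟩, ?_, by norm_num, ?_⟩
  · simp
  · rw [phi_succ, phi_zero]; simp

theorem good_base2 : Good 2 := by
  refine ⟨4, _, inferInstance, inferInstance, ⟨base2⟩, ⟨fun _ => 0⟩, ?_, by norm_num, ?_⟩
  · simp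
  · rw [phi_succ, phi_succ, phi_zero]; simp

theorem good_base4 : Good 4 := by
  refine ⟨4, _, inferInstance, inferInstance, ⟨base4⟩, ⟨fun _ => 0⟩, ?_, by norm_num, ?_⟩
  · simp
  · rw [phi_succ, phi_succ, phi_succ, phi_succ, phi_zero]; simp

theorem good_add (m : ℕ) {n : ℕ} (h : Good n) : Good (n + 8 * m) := by
  induction m with
  | zero => exact h
  | succ m ih => exact good_step ih

theorem good_all {n : ℕ} (h : n % 8 = 0 ∨ n % 8 = 1 ∨ n % 8 = 2 ∨ n % 8 = 4) : Good n := by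
  have hn : n = n % 8 + 8 * (n / 8) := (Nat.mod_add_div n 8).symm
  rcases h with h | h | h | h <;> rw [hn, h] <;> apply good_add
  · exact good_base0
  · exact good_base1
  · exact good_base2
  · exact good_base4

end Pool.Agent.Helper10K9.Wd
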