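import Mathlib
import Pool.Agent.Helper10K9.Words

/-!
# The divisibility theorem for families of invertible matrices over spheres
-/

set_option autoImplicit false

open Matrix Pool.Agent.Helper10K9.Ig Pool.Agent.Helper10K9.Kc Pool.Agent.Helper10K9.Kd
  Pool.Agent.Helper10K9.Wd
open Pool.Agent.Helper10K9.FS (phi E)

namespace Pool.Agent.Helper10K9.KO

variable {N : ℕ}

/-- A continuous family of invertible matrices over the `n`-sphere, with `A(-x) = A(x) w`. -/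
def HasA (n : ℕ) (w : Matrix (Fin N) (Fin N) ℝ) : Prop :=
  ∃ A : E (n + 1) → Matrix (Fin N) (Fin N) ℝ, ContinuousOn A (Metric.sphere 0 1) ∧
    (∀ x ∈ Metric.sphere (0 : E (n + 1)) 1, (A x).det ≠ 0) ∧
    (∀ x ∈ Metric.sphere (0 : E (n + 1)) 1, A (-x) = A x * w)

/-- The embedding of a subsphere. -/
noncomputable def emb {n : ℕ} (x : E (n + 1)) : E (n + 1 + 1) :=
  WithLp.toLp 2 (Fin.cons 0 (WithLp.ofLp x) : Fin (n + 1 + 1) → ℝ)

theorem emb_norm {n : ℕ} (x : E (n + 1)) : ‖emb x‖ = ‖x‖ := by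
  rw [EuclideanSpace.norm_eq, EuclideanSpace.norm_eq, Fin.sum_univ_succ]
  simp [emb]

theorem emb_neg {n : ℕ} (x : E (n + 1)) : emb (-x) = -emb x := by
  rw [emb, emb, ← WithLp.toLp_neg]
  congr 1
  funext i
  refine Fin.cases ?_ (fun i => ?_) i
  · simp
  · simp

theorem emb_cont {n : ℕ} : Continuous (emb : E (n + 1) → E (n + 1 + 1)) := by
  apply (PiLp.continuous_toLp 2 _).comp
  refine continuous_pi fun i => ?_
  refine Fin.cases ?_ (fun i => ?_) i
  · simp only [Fin.cons_zero]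
    exact continuous_const
  · simp only [Fin.cons_succ]
    exact (continuous_apply i).comp (PiLp.continuous_ofLp 2 _)

theorem HasA.restrict {n : ℕ} {w : Matrix (Fin N) (Fin N) ℝ} (h : HasA (n + 1) w) : HasA n w := by
  obtain ⟨A, h1, h2, h3⟩ := h
  have hm : ∀ x ∈ Metric.sphere (0 : E (n + 1)) 1, emb x ∈ Metric.sphere (0 : E (n + 1 + 1)) 1 := by
    intro x hx
    rw [mem_sphere_zero_iff_norm] at hx ⊢
    rw [emb_norm, hx]
  refine ⟨fun x => A (emb x), ?_, fun x hx => h2 _ (hm x hx), fun x hx => ?_⟩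
  · exact h1.comp emb_cont.continuousOn hm
  · simp only
    rw [emb_neg]
    exact h3 _ (hm x hx)

theorem HasA.restrict' {n : ℕ} {w : Matrix (Fin N) (Fin N) ℝ} (j : ℕ) (h : HasA (n + j) w) :
    HasA n w := by
  induction j with
  | zero => exact h
  | succ j ih => exact ih h.restrict

theorem ko_good {n : ℕ} (hn : 1 ≤ n) (hg : Good n) {w : Matrix (Fin N) (Fin N) ℝ} (hwT : wᵀ = w)
    (hw : w * w = 1) (h : HasA n w) : ∃ k : ℤ, (N : ℝ) - w.trace = 2 ^ (phi n + 1) * k := by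
  obtain ⟨A, h1, h2, h3⟩ := h
  obtain ⟨c, a, i1, i2, ⟨C⟩, hne, hd, hc, hcard⟩ := hg
  obtain ⟨k, hk⟩ := core C (Nat.succ_pos n) hwT hw h1 h2 h3 hd
  -- the integer m
  set Q : Matrix (Fin N) (Fin N) ℝ := (1 / 2 : ℝ) • (1 - w) with hQ
  have hQQ : Q * Q = Q := by
    rw [hQ, smul_mul_smul_comm]
    have : (1 - w) * (1 - w) = (2 : ℝ) • (1 - w) := by
      rw [sub_mul, one_mul, mul_sub, mul_one, hw, two_smul]; abel
    rw [this, smul_smul]; norm_num
  have htr := trace_idem Q hQQ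
  set m : ℕ := Module.finrank ℝ (LinearMap.range (Matrix.toLin' Q)) with hm
  have htr2 : (N : ℝ) - w.trace = 2 * m := by
    rw [← htr, hQ, Matrix.trace_smul, Matrix.trace_sub, Matrix.trace_one, Fintype.card_fin,
      smul_eq_mul]
    ring
  have hcard' : (Fintype.card a : ℝ) * 2 ^ phi n = c * 2 ^ (n + 1) := by exact_mod_cast hcard
  have hapos : (0 : ℝ) < Fintype.card a := by
    have := Fintype.card_pos (α := a)
    exact_mod_cast this
  have hcpos : (0 : ℝ) < c := by exact_mod_cast hc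
  have e1 : (Fintype.card a : ℝ) * (m * (2 ^ n - 1)) = Fintype.card a * (2 ^ phi n * k) := by
    have e2 : w.trace - N = -(2 * m) := by linarith
    rw [e2, inv_mul_eq_iff_eq_mul₀ (by positivity)] at hk
    have e3 : (Fintype.card a : ℝ) * (2 ^ phi n * k) = c * 2 ^ (n + 1) * k := by
      rw [← hcard']; ring
    rw [e3]
    rw [pow_succ] at hk ⊢
    nlinarith
  have e2 : (m : ℝ) * (2 ^ n - 1) = 2 ^ phi n * k := mul_left_cancel₀ hapos.ne' e1
  have e3 : (m : ℤ) * (2 ^ n - 1) = 2 ^ phi n * k := by exact_mod_cast e2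
  have hcop : IsCoprime ((2 : ℤ) ^ phi n) (2 ^ n - 1) := by
    apply IsCoprime.pow_left
    obtain ⟨n', rfl⟩ : ∃ n', n = n' + 1 := ⟨n - 1, by omega⟩
    refine ⟨2 ^ n', -1, ?_⟩
    rw [pow_succ]; ring
  have hdvd : (2 : ℤ) ^ phi n ∣ (m : ℤ) := by
    apply hcop.dvd_of_dvd_mul_right
    exact ⟨k, e3⟩
  obtain ⟨k', hk'⟩ := hdvd
  refine ⟨k', ?_⟩
  rw [htr2]
  have : (m : ℝ) = 2 ^ phi n * k' := by exact_mod_cast hk'
  rw [this, pow_succ]; ring

theorem exists_good (n : ℕ) (hn : 1 ≤ n) : ∃ n' j, n = n' + j ∧ 1 ≤ n' ∧ Good n' ∧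
    phi n = phi n' := by
  by_cases h : n % 8 = 0 ∨ n % 8 = 1 ∨ n % 8 = 2 ∨ n % 8 = 4
  · exact ⟨n, 0, rfl, hn, good_all h, rfl⟩
  · have h' : n % 8 = 3 ∨ n % 8 = 5 ∨ n % 8 = 6 ∨ n % 8 = 7 := by omega
    rcases h' with h' | h' | h' | h'
    · obtain ⟨m, rfl⟩ : ∃ m, n = m + 1 := ⟨n - 1, by omega⟩
      refine ⟨m, 1, rfl, by omega, good_all (by omega), ?_⟩
      rw [phi_succ, if_neg (by omega), add_zero]
    · obtain ⟨m, rfl⟩ : ∃ m, n = m + 1 := ⟨n - 1, by omega⟩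
      refine ⟨m, 1, rfl, by omega, good_all (by omega), ?_⟩
      rw [phi_succ, if_neg (by omega), add_zero]
    · obtain ⟨m, rfl⟩ : ∃ m, n = m + 2 := ⟨n - 2, by omega⟩
      refine ⟨m, 2, rfl, by omega, good_all (by omega), ?_⟩
      rw [phi_succ, if_neg (by omega), phi_succ, if_neg (by omega), add_zero, add_zero]
    · obtain ⟨m, rfl⟩ : ∃ m, n = m + 3 := ⟨n - 3, by omega⟩
      refine ⟨m, 3, rfl, by omega, good_all (by omega), ?_⟩
      rw [phi_succ, if_neg (by omega), phi_succ, if_neg (by omega), phi_succ, if_neg (by omega),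
        add_zero, add_zero, add_zero]

/-- The divisibility theorem. -/
theorem ko_bound {n : ℕ} (hn : 1 ≤ n) {w : Matrix (Fin N) (Fin N) ℝ} (hwT : wᵀ = w)
    (hw : w * w = 1) {A : E (n + 1) → Matrix (Fin N) (Fin N) ℝ}
    (hA : ContinuousOn A (Metric.sphere 0 1))
    (hdet : ∀ x ∈ Metric.sphere (0 : E (n + 1)) 1, (A x).det ≠ 0)
    (hneg : ∀ x ∈ Metric.sphere (0 : E (n + 1)) 1, A (-x) = A x * w) :
    ∃ k : ℤ, (N : ℝ) - w.trace = 2 ^ (phi n + 1) * k := by
  obtain ⟨n', j, rfl, hn', hg, hphi⟩ := exists_good n hn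
  rw [hphi]
  exact ko_good hn' hg hwT hw (HasA.restrict' j ⟨A, hA, hdet, hneg⟩)

end Pool.Agent.Helper10K9.KO
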